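import Mathlib
import Pool.Agent.Lib.MP_ae5b4e_an_hopf.Plane
import Pool.Agent.Lib.MP_ae5b4e_an_RG.Defs

/-!
# MP_ae5b4e_an, project RIG: finite determinacy of the solutions, definitions

A solution of the problem is a closed convex curve `γ` of positive curvature together with closed
curves `L_c = {γ.pt t (U c t)}` around it and a function `κ`: the involution of the tangent line at
`t` is `u ↦ κ t - u` in the coordinate `u` of the point `γ t + γ' t / u`.
-/

noncomputable section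

namespace Pool.Agent.MP_ae5b4e_an_RIG

open Real Set Filter Topology
open scoped ContDiff
open Pool.Agent.MP_ae5b4e_an_hopf
open Pool.Agent.MP_ae5b4e_an_RG

/-- A solution: a one-sided neighbourhood of `γ` (of any thickness) is filled by the closed curves
`L_c`, `0 < c < 1`, and all the involutions of the tangent lines are projective. -/
structure Sol (γ : ConvexCurve) (U : ℝ → ℝ → ℝ) (κ : ℝ → ℝ) : Prop where
  cont : ContinuousOn (fun z : ℝ × ℝ => U z.1 z.2) (Ioo 0 1 ×ˢ univ)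
  per : ∀ c ∈ Ioo (0:ℝ) 1, ∀ t, U c (t + γ.T) = U c t
  simple : ∀ c ∈ Ioo (0:ℝ) 1, ∀ t t', γ.pt t (U c t) = γ.pt t' (U c t') →
    ∃ n : ℤ, t' = t + n * γ.T
  anti : ∀ t, StrictAntiOn (fun c => U c t) (Ioo 0 1)
  lim : ∀ t, Tendsto (fun c => U c t) (𝓝[>] 0) atTop
  reg : ContDiff ℝ ∞ κ ∨ (ContDiffOn ℝ ∞ (fun z : ℝ × ℝ => U z.1 z.2) (Ioo 0 1 ×ˢ univ) ∧
    ∀ c ∈ Ioo (0:ℝ) 1, ∀ t, deriv (fun r => U r t) c < 0)
  proj : ∀ c ∈ Ioo (0:ℝ) 1, ∀ t u v, u ≠ v → γ.pt t u ∈ γ.leaf U c →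
    γ.pt t v ∈ γ.leaf U c → u + v = κ t

/-- The normalized lift of a solution. -/
def lift (γ : ConvexCurve) (σ lam : ℝ → ℝ) (x : ℝ) : Fin 3 → ℝ := lam x • γ.Γ (σ x)

/-- The normal form of a curve with a field of projective involutions: the parameter `σ` (of period
one) and the factor `lam` of the lift `P = lam • (γ ∘ σ, 1)` are determined, up to a translation of
the parameter, by `det (P, P', P'') = 1` and `lam' / lam = (κ / 2) σ'`; in this parameter the
involution of the tangent line at `x` exchanges the points `P' x + v P x` and `P' x - v P x`.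
The functions `r` and `m` are the coefficients of `P''' + r P' + m P = 0`. -/
structure Normal (γ : ConvexCurve) (κ σ lam r m : ℝ → ℝ) : Prop where
  smooth_σ : ContDiff ℝ ∞ σ
  pos_σ : ∀ x, 0 < deriv σ x
  per_σ : ∀ x, σ (x + 1) = σ x + γ.T
  smooth_lam : ContDiff ℝ ∞ lam
  pos_lam : ∀ x, 0 < lam x
  eq_lam : ∀ x, deriv lam x = lam x * (κ (σ x) / 2) * deriv σ x
  wr : ∀ x, det3 (lift γ σ lam x) (deriv (lift γ σ lam) x) (deriv (deriv (lift γ σ lam)) x) = 1
  smooth_r : ContDiff ℝ ∞ r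
  smooth_m : ContDiff ℝ ∞ m
  per_r : Function.Periodic r 1
  per_m : Function.Periodic m 1
  ode : ∀ x, deriv (deriv (deriv (lift γ σ lam))) x =
    -(r x) • deriv (lift γ σ lam) x - m x • lift γ σ lam x

/-- bounds for the coefficients and their derivatives -/
structure Bnd (K : ℝ) (r m : ℝ → ℝ) : Prop where
  r0 : ∀ x, |r x| ≤ K
  r1 : ∀ x, |deriv r x| ≤ K
  r2 : ∀ x, |deriv (deriv r) x| ≤ K
  r3 : ∀ x, |deriv (deriv (deriv r)) x| ≤ K
  m0 : ∀ x, |m x| ≤ K
  m1 : ∀ x, |deriv m x| ≤ K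
  m2 : ∀ x, |deriv (deriv m) x| ≤ K

/-- Some leaf has at least the distance `δ` from the curve: if the point of the leaf on the tangent
line at `x` is also on the tangent line at `y`, `x < y < x + 1`, then `x + δ ≤ y` (in the normal
parameter). -/
def Reach (γ : ConvexCurve) (U : ℝ → ℝ → ℝ) (σ : ℝ → ℝ) (δ : ℝ) : Prop :=
  ∃ c ∈ Ioo (0:ℝ) 1, ∀ x y, x < y → y < x + 1 →
    det3 (γ.hvec (σ x) (U c (σ x))) (γ.Γ (σ y)) (deriv γ.Γ (σ y)) = 0 → x + δ ≤ y

end Pool.Agent.MP_ae5b4e_an_RIG
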