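import Mathlib
import Pool.Agent.Lib.MP_ae5b4e_an_RIG.GDef
import Pool.Agent.Lib.MP_ae5b4e_an_RG.Norm
import Pool.Agent.Lib.MP_ae5b4e_an_RG.LOf

/-!
# MP_ae5b4e_an, project RIG, module GGau: a solution in its normal form is a normalized system

PROOF.  MODEL: `RG/Norm.lean` (`LSys.normalize`), second half, with `f (σ x) = lam x` and
`1 / m (σ x) = deriv σ x` (here `σ` and `lam` are given).
(1) `lam` is periodic: `log (lam (x + 1)) - log (lam x) = ∫ (κ (σ s) / 2) σ' s ds` over `[x, x + 1]`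
    `= ∫ κ / 2` over a period `= 0` (`LSys.mean_zero`); or: the derivative of
    `x ↦ lam (x + 1) / lam x` is `0` (both solve the same equation, `κ` and `deriv σ` are periodic), so
    `lam (x + 1) = a * lam x`, and `log a = ∫ 0..1 (κ (σ s) / 2) σ' s = (1 / 2) ∫ κ = 0`.
(2) `P x = lam x • Γ (σ x)`: `dd P x y = lam x * lam y ^ 2 * deriv σ y * dd Γ (σ x) (σ y)` and
    `ddx P x y = deriv σ x * lam x * lam y ^ 2 * deriv σ y * ((κ (σ x) / 2) * dd Γ (σ x) (σ y) +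
    ddx Γ (σ x) (σ y))`, hence `L1 P x y = deriv σ x * (κ (σ x) / 2 + L1 Γ (σ x) (σ y))` if
    `dd Γ (σ x) (σ y) ≠ 0`.
(3) `Curve 1 P` and the fields of `LSys` as in the model (`anti`, `lim0`, `per`, `cont`, `feq`).
(4) `nxt`: for `y = nxt P 1 U' c x`, `σ x < σ y < σ x + T` and (2) give
    `L1 Γ (σ x) (σ y) = -(U c (σ x))`; conclude with `Curve.nx_unique`.
(5) For `Reach`: `det3 (γ.hvec t u) (γ.Γ s) (deriv γ.Γ s) = u * dd γ.Γ t s + ddx γ.Γ t s`
    (`γ.hvec_eq`), which vanishes if `L1 γ.Γ t s = -u`.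
-/

noncomputable section

namespace Pool.Agent.MP_ae5b4e_an_RIG

open Real Set Filter Topology MeasureTheory intervalIntegral
open scoped ContDiff
open Pool.Agent.MP_ae5b4e_an_hopf
open Pool.Agent.MP_ae5b4e_an_RG

/-- the leaves in the normal form -/
def rU (κ σ : ℝ → ℝ) (U : ℝ → ℝ → ℝ) (c x : ℝ) : ℝ := deriv σ x * (U c (σ x) - κ (σ x) / 2)

theorem gauge {T : ℝ} {Γ : ℝ → Fin 3 → ℝ} {U : ℝ → ℝ → ℝ} {κ : ℝ → ℝ} (h : LSys T Γ U κ)
    {σ lam : ℝ → ℝ} (hσ : ContDiff ℝ ∞ σ) (hσ' : ∀ x, 0 < deriv σ x)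
    (hσp : ∀ x, σ (x + 1) = σ x + T) (hlam : ContDiff ℝ ∞ lam) (hlam0 : ∀ x, 0 < lam x)
    (hlamd : ∀ x, deriv lam x = lam x * (κ (σ x) / 2) * deriv σ x)
    (hW : ∀ x, 0 < Wr (fun x => lam x • Γ (σ x)) x) :
    LSys 1 (fun x => lam x • Γ (σ x)) (rU κ σ U) (fun _ => 0) ∧
      ∀ c ∈ Ioo (0:ℝ) 1, ∀ x, σ (nxt (fun x => lam x • Γ (σ x)) 1 (rU κ σ U) c x) =
        nxt Γ T U c (σ x) := by
  have hC := h.curve
  have hκs := h.smooth_κ
  have hσd : ∀ x, HasDerivAt σ (deriv σ x) x := fun x =>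
    (hσ.differentiable (by simp) x).hasDerivAt
  have hld : ∀ x, HasDerivAt lam (lam x * (κ (σ x) / 2) * deriv σ x) x := fun x => by
    rw [← hlamd x]
    exact (hlam.differentiable (by simp) x).hasDerivAt
  have hσm : StrictMono σ := strictMono_of_deriv_pos hσ'
  have hσ's : ContDiff ℝ ∞ (deriv σ) := (contDiff_infty_iff_deriv.1 hσ).2
  -- the speed is periodic
  have hσ'p : ∀ x, deriv σ (x + 1) = deriv σ x := by
    intro x
    have h1 : (fun s => σ (s + 1)) = fun s => σ s + T := funext hσp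
    have h2 := congrFun (congrArg deriv h1) x
    rw [deriv_comp_add_const, deriv_add_const] at h2
    exact h2
  -- the factor is periodic
  obtain ⟨hFs, hFd⟩ := contDiff_prim (hκs.div_const 2)
  set F : ℝ → ℝ := fun t => ∫ x in (0)..t, κ x / 2 with hF
  have hint0 : ∫ x in (0)..T, κ x / 2 = 0 := by
    rw [intervalIntegral.integral_div, h.mean_zero]
    simp
  have hFp : ∀ t, F (t + T) = F t := by
    intro t
    simp only [hF]
    rw [prim_per (hκs.div_const 2).continuous (fun t => by simp only [h.κ_per]) t, hint0, add_zero]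
  have hq : ∀ x, HasDerivAt (fun x => lam x * exp (-(F (σ x)))) 0 x := by
    intro x
    have k1 := ((hFd (σ x)).comp x (hσd x)).neg.exp
    refine ((hld x).mul k1).congr_deriv ?_
    simp only [Function.comp, hF, Pi.neg_apply]
    ring
  have hlamp : ∀ x, lam (x + 1) = lam x := by
    intro x
    have k1 := is_const_of_deriv_eq_zero (fun x => (hq x).differentiableAt)
      (fun x => (hq x).deriv) (x + 1) x
    simp only [hσp, hFp] at k1
    exact mul_right_cancel₀ (exp_pos _).ne' k1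
  -- derivative of the new curve
  set G : ℝ → Fin 3 → ℝ := fun x => lam x • Γ (σ x) with hG
  have hGd : ∀ x, HasDerivAt G
      ((lam x * deriv σ x) • ((κ (σ x) / 2) • Γ (σ x) + deriv Γ (σ x))) x := by
    intro x
    have k2 := (hC.hd0 (σ x)).scomp x (hσd x)
    refine ((hld x).smul k2).congr_deriv ?_
    funext i
    simp only [Function.comp, Pi.add_apply, Pi.smul_apply, smul_eq_mul]
    ring
  have hdG : deriv G = fun x => (lam x * deriv σ x) •
      ((κ (σ x) / 2) • Γ (σ x) + deriv Γ (σ x)) := funext fun x => (hGd x).deriv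
  have hdd : ∀ x y, dd G x y = lam x * lam y * (lam y * deriv σ y) * dd Γ (σ x) (σ y) := by
    intro x y
    unfold dd
    rw [hdG]
    exact det3_lin _ _ _ _ _ _ _
  have hlt : ∀ x y, x < y → y < x + 1 → σ x < σ y ∧ σ y < σ x + T := by
    intro x y h1 h2
    refine ⟨hσm h1, ?_⟩
    rw [← hσp]
    exact hσm h2
  have hGs : ContDiff ℝ ∞ G := hlam.smul (hC.smooth.comp hσ)
  have hcurve : Curve 1 G :=
    { T_pos := one_pos
      smooth := hGs
      per := fun x => by simp only [hG, hσp, hlamp, hC.per]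
      pos := fun x y h1 h2 => by
        obtain ⟨k1, k2⟩ := hlt x y h1 h2
        rw [hdd]
        have a1 := hlam0 x
        have a2 := hlam0 y
        have a3 := hσ' y
        have a4 := hC.dd_pos_right k1 k2
        positivity
      Wr_pos := hW }
  -- the logarithmic derivative
  have hL1 : ∀ x y, dd Γ (σ x) (σ y) ≠ 0 →
      L1 G x y = deriv σ x * (κ (σ x) / 2 + L1 Γ (σ x) (σ y)) := by
    intro x y hn
    have a1 := (hlam0 x).ne'
    have a2 := (hlam0 y).ne'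
    have a3 := (hσ' y).ne'
    have hddx : ddx G x y = (lam x * deriv σ x) * lam y * (lam y * deriv σ y) *
        ((κ (σ x) / 2) * dd Γ (σ x) (σ y) + ddx Γ (σ x) (σ y)) := by
      unfold ddx dd
      rw [hdG]
      simp only [hG]
      unfold det3
      simp only [Pi.smul_apply, Pi.add_apply, smul_eq_mul]
      ring
    unfold L1
    rw [hddx, hdd]
    field_simp
  -- the equation of the tangent points
  have hkey : ∀ c x y, x < y → y < x + 1 → L1 G x y = -(rU κ σ U c x) →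
      L1 Γ (σ x) (σ y) = -(U c (σ x)) := by
    intro c x y h1 h2 h3
    obtain ⟨k1, k2⟩ := hlt x y h1 h2
    rw [hL1 x y (hC.dd_pos_right k1 k2).ne'] at h3
    have h4 : deriv σ x * (κ (σ x) / 2 + L1 Γ (σ x) (σ y)) =
        deriv σ x * (κ (σ x) / 2 - U c (σ x)) := by
      rw [h3]
      unfold rU
      ring
    have h5 := mul_left_cancel₀ (hσ' x).ne' h4
    linarith
  refine ⟨⟨hcurve, ?_, ?_, ?_, ?_, contDiff_const, ?_⟩, ?_⟩
  · -- continuity
    have k1 : ContinuousOn (fun q : ℝ × ℝ => U q.1 (σ q.2)) (Ioo 0 1 ×ˢ univ) := by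
      refine h.cont.comp (f := fun q : ℝ × ℝ => (q.1, σ q.2))
        (continuous_fst.prodMk (hσ.continuous.comp continuous_snd)).continuousOn ?_
      rintro q ⟨hq, -⟩
      exact ⟨hq, mem_univ _⟩
    have k2 : Continuous (fun q : ℝ × ℝ => κ (σ q.2) / 2) :=
      (hκs.continuous.comp (hσ.continuous.comp continuous_snd)).div_const 2
    have k3 : Continuous (fun q : ℝ × ℝ => deriv σ q.2) :=
      hσ's.continuous.comp continuous_snd
    exact k3.continuousOn.mul (k1.sub k2.continuousOn)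
  · intro c hc x
    unfold rU
    rw [hσp, hσ'p, h.κ_per, h.per c hc]
  · intro x c hc c' hc' hcc
    have k1 : U c' (σ x) < U c (σ x) := h.anti (σ x) hc hc' hcc
    show rU κ σ U c' x < rU κ σ U c x
    unfold rU
    exact mul_lt_mul_of_pos_left (by linarith) (hσ' x)
  · intro x
    refine Tendsto.const_mul_atTop (hσ' x) ?_
    exact tendsto_atTop_add_const_right _ (-(κ (σ x) / 2)) (h.lim0 (σ x))
  · intro c hc x y h1 h2 h3
    obtain ⟨k1, k2⟩ := hlt x y h1 h2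
    have n2 := (hC.dd_pos_left k1 k2).ne'
    have h4 := hkey c x y h1 h2 h3
    have h5 := h.feq c hc (σ x) (σ y) k1 k2 h4
    show rU κ σ U c y = 0 + L1 G y x
    unfold rU
    rw [zero_add, hL1 y x n2, h5]
    ring
  · intro c _ x
    obtain ⟨s1, s2, s3⟩ := hcurve.nx_spec x (rU κ σ U c x)
    have h4 := hkey c x _ s1 s2 s3
    obtain ⟨k1, k2⟩ := hlt x _ s1 s2
    exact (hC.nx_unique k1 k2 h4).symm

/-- a solution is a system -/
theorem Sol.lsys {γ : ConvexCurve} {U : ℝ → ℝ → ℝ} {κ : ℝ → ℝ} (h : Sol γ U κ) :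
    LSys γ.T γ.Γ U κ := by
  have hfeq : ∀ c ∈ Ioo (0:ℝ) 1, ∀ t s, t < s → s < t + γ.T → L1 γ.Γ t s = -(U c t) →
      U c s = κ s + L1 γ.Γ s t := fun c hc t s h1 h2 h3 =>
    γ.feq_of_proj (h.simple c hc) (h.proj c hc) h1 h2 h3
  have hκ : ContDiff ℝ ∞ κ := by
    rcases h.reg with h | ⟨h1, h2⟩
    · exact h
    · exact contDiff_kappa γ.isCurve h1 h2 h.lim hfeq
  exact ⟨γ.isCurve, h.cont, h.per, h.anti, h.lim, hκ, hfeq⟩

theorem Normal.lsys {γ : ConvexCurve} {U : ℝ → ℝ → ℝ} {κ σ lam r m : ℝ → ℝ} (h : Sol γ U κ)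
    (hN : Normal γ κ σ lam r m) : LSys 1 (lift γ σ lam) (rU κ σ U) (fun _ => 0) :=
  (gauge h.lsys hN.smooth_σ hN.pos_σ hN.per_σ hN.smooth_lam hN.pos_lam hN.eq_lam
    (fun x => by
      have : Wr (lift γ σ lam) x = 1 := hN.wr x
      show 0 < Wr (lift γ σ lam) x
      rw [this]; exact one_pos)).1

theorem Normal.step {γ : ConvexCurve} {U : ℝ → ℝ → ℝ} {κ σ lam r m : ℝ → ℝ} {δ : ℝ}
    (h : Sol γ U κ) (hN : Normal γ κ σ lam r m) (hR : Reach γ U σ δ) :
    ∃ c ∈ Ioo (0:ℝ) 1, ∀ t, t + δ ≤ nxt (lift γ σ lam) 1 (rU κ σ U) c t := by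
  obtain ⟨g1, g2⟩ := gauge h.lsys hN.smooth_σ hN.pos_σ hN.per_σ hN.smooth_lam hN.pos_lam
    hN.eq_lam (fun x => by
      have : Wr (lift γ σ lam) x = 1 := hN.wr x
      show 0 < Wr (lift γ σ lam) x
      rw [this]; exact one_pos)
  obtain ⟨c, hc, hR⟩ := hR
  refine ⟨c, hc, fun t => ?_⟩
  obtain ⟨z, hz⟩ : ∃ z, z = nxt (lift γ σ lam) 1 (rU κ σ U) c t := ⟨_, rfl⟩
  obtain ⟨s1, s2, -⟩ : t < nxt (lift γ σ lam) 1 (rU κ σ U) c t ∧
      nxt (lift γ σ lam) 1 (rU κ σ U) c t < t + 1 ∧ _ := g1.nxt_spec c t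
  have e1 : σ (nxt (lift γ σ lam) 1 (rU κ σ U) c t) = nxt γ.Γ γ.T U c (σ t) := g2 c hc t
  obtain ⟨k1, k2, k3⟩ := h.lsys.nxt_spec c (σ t)
  rw [← e1] at k1 k2 k3
  rw [← hz] at s1 s2 k1 k2 k3 ⊢
  refine hR t _ s1 s2 ?_
  have hn := (γ.isCurve.dd_pos_right k1 k2).ne'
  have k4 : ddx γ.Γ (σ t) (σ z) = -(U c (σ t)) * dd γ.Γ (σ t) (σ z) := by
    unfold L1 at k3
    rwa [div_eq_iff hn] at k3
  rw [γ.hvec_eq]
  have k5 : det3 (U c (σ t) • γ.Γ (σ t) + deriv γ.Γ (σ t)) (γ.Γ (σ z)) (deriv γ.Γ (σ z)) =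
      U c (σ t) * dd γ.Γ (σ t) (σ z) + ddx γ.Γ (σ t) (σ z) := by
    unfold dd ddx det3
    simp only [Pi.smul_apply, Pi.add_apply, smul_eq_mul]
    ring
  rw [k5, k4]
  ring

end Pool.Agent.MP_ae5b4e_an_RIG
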