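import Mathlib
import Pool.Agent.Lib.MP_ae5b4e_an_RG.KE

/-!
# MP_ae5b4e_an, project RIG: the core theorem with uniform constants

Text: `/team-store/POR_RIG.md`, section 8.
-/

noncomputable section

namespace Pool.Agent.MP_ae5b4e_an_RIG

open Real Set Filter Topology MeasureTheory intervalIntegral
open Pool.Agent.MP_ae5b4e_an_RG

private lemma V_zero_rho (N : ℕ) (k : ℤ) : V 0 N 3 k = (1 + |(k:ℝ)|) ^ 3 := by
  unfold V w
  rw [zero_mul, Real.exp_zero, mul_one]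

private lemma exp_num : Real.exp 1 * Real.exp (1 / 12) ≤ 3 := by
  have h1 := Real.exp_one_lt_d9
  have h2 : Real.exp (1 / 12) ≤ 12 / 11 := by
    have h3 := Real.one_sub_le_exp_neg (1 / 12)
    rw [Real.exp_neg] at h3
    have h4 : 0 < Real.exp (1 / 12) := Real.exp_pos _
    have h5 : (11 / 12 : ℝ) ≤ (Real.exp (1 / 12))⁻¹ := by linarith
    have h6 := mul_le_mul_of_nonneg_right h5 h4.le
    rw [inv_mul_cancel₀ h4.ne'] at h6
    linarith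
  have h7 : 0 < Real.exp (1 / 12) := Real.exp_pos _
  nlinarith

/-- one function, one step of the bootstrap -/
private lemma core_a {R : ℝ → ℝ} {A0 A C5 Q ρ : ℝ} {N : ℕ} (hA0 : 0 ≤ A0) (hA : 3 * A0 + 1 = A)
    (hQ1 : 1 ≤ Q) (hC5 : 2 * C5 / A ≤ Q) (hρ : 0 ≤ ρ) (hρQ : ρ ≤ 1 / Q)
    (h1 : Dec 0 0 A0 R)
    (hk : ∀ n : ℤ, Q ≤ |(n:ℝ)| → ‖rc R n‖ ≤ C5 / (|(n:ℝ)| * V ρ N 3 n)) (k : ℤ) :
    ‖rc R k‖ ≤ Real.exp 1 / 3 * A / V ρ N 3 k := by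
  have hQ0 : 0 < Q := by linarith
  have hA1 : 0 < A := by linarith
  have hV := V_pos ρ N 3 k
  have he := Real.exp_one_gt_d9
  rw [le_div_iff₀ hV]
  by_cases h : Q ≤ |(k:ℝ)|
  · have h2 := hk k h
    have hk0 : 0 < |(k:ℝ)| := by linarith
    rw [le_div_iff₀ (mul_pos hk0 hV)] at h2
    have h3 : C5 ≤ Q * A / 2 := by
      rw [div_le_iff₀ hA1] at hC5
      linarith
    have h4 : ‖rc R k‖ * V ρ N 3 k * |(k:ℝ)| ≤ A / 2 * |(k:ℝ)| := by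
      calc ‖rc R k‖ * V ρ N 3 k * |(k:ℝ)| = ‖rc R k‖ * (|(k:ℝ)| * V ρ N 3 k) := by ring
        _ ≤ C5 := h2
        _ ≤ Q * A / 2 := h3
        _ ≤ |(k:ℝ)| * A / 2 := by nlinarith
        _ = A / 2 * |(k:ℝ)| := by ring
    have h5 := le_of_mul_le_mul_right h4 hk0
    nlinarith
  · push Not at h
    have h2 := Dec.rc_le (le_refl 0) h1 k
    rw [V_zero_rho] at h2
    have hp : 0 < (1 + |(k:ℝ)|) ^ 3 := by positivity
    rw [le_div_iff₀ hp] at h2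
    have h3 : w ρ N k ≤ Real.exp 1 := by
      unfold w
      apply Real.exp_le_exp.mpr
      calc ρ * min |(k:ℝ)| (N:ℝ) ≤ ρ * |(k:ℝ)| := mul_le_mul_of_nonneg_left (min_le_left _ _) hρ
        _ ≤ 1 / Q * Q := mul_le_mul hρQ h.le (abs_nonneg _) (by positivity)
        _ = 1 := by field_simp
    have h4 : 0 < w ρ N k := w_pos ρ N k
    calc ‖rc R k‖ * V ρ N 3 k = ‖rc R k‖ * (1 + |(k:ℝ)|) ^ 3 * w ρ N k := by
          unfold V
          ring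
      _ ≤ A0 * Real.exp 1 := mul_le_mul h2 h3 h4.le hA0
      _ ≤ Real.exp 1 / 3 * A := by nlinarith

/-- growth of the weight in one step -/
private lemma core_b {R : ℝ → ℝ} {A ρ ρ' : ℝ} {N : ℕ} (hA : 0 < A) (hρρ : ρ' ≤ ρ + 1 / (12 * ((N:ℝ) + 1)))
    (hs : ∀ x, HasSum (fun k => rc R k * e k x) ((R x : ℝ) : ℂ))
    (h : ∀ k, ‖rc R k‖ ≤ Real.exp 1 / 3 * A / V ρ N 3 k) : Dec ρ' N A R := by
  refine ⟨rc R, fun k => ?_, hs⟩
  have hV := V_pos ρ N 3 k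
  have hV' := V_pos ρ' N 3 k
  have h1 := h k
  rw [le_div_iff₀ hV] at h1
  rw [le_div_iff₀ hV']
  have hN : (0:ℝ) ≤ N := Nat.cast_nonneg N
  have h2 : V ρ' N 3 k ≤ V ρ N 3 k * Real.exp (1 / 12) := by
    unfold V w
    rw [mul_assoc, ← Real.exp_add]
    apply mul_le_mul_of_nonneg_left _ (by positivity)
    apply Real.exp_le_exp.mpr
    have hm0 : 0 ≤ min |(k:ℝ)| (N:ℝ) := le_min (abs_nonneg _) hN
    have hm1 : min |(k:ℝ)| (N:ℝ) ≤ N := min_le_right _ _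
    have h3 : 1 / (12 * ((N:ℝ) + 1)) * min |(k:ℝ)| (N:ℝ) ≤ 1 / 12 := by
      rw [div_mul_eq_mul_div, one_mul, div_le_div_iff₀ (by positivity) (by norm_num)]
      nlinarith
    calc ρ' * min |(k:ℝ)| (N:ℝ) ≤ (ρ + 1 / (12 * ((N:ℝ) + 1))) * min |(k:ℝ)| (N:ℝ) :=
          mul_le_mul_of_nonneg_right hρρ hm0
      _ = ρ * min |(k:ℝ)| (N:ℝ) + 1 / (12 * ((N:ℝ) + 1)) * min |(k:ℝ)| (N:ℝ) := by ring
      _ ≤ _ := by linarith
  have h4 := exp_num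
  have h5 : 0 < Real.exp (1 / 12) := Real.exp_pos _
  calc ‖rc R k‖ * V ρ' N 3 k ≤ ‖rc R k‖ * (V ρ N 3 k * Real.exp (1 / 12)) :=
        mul_le_mul_of_nonneg_left h2 (norm_nonneg _)
    _ = ‖rc R k‖ * V ρ N 3 k * Real.exp (1 / 12) := by ring
    _ ≤ Real.exp 1 / 3 * A * Real.exp (1 / 12) := mul_le_mul_of_nonneg_right h1 h5.le
    _ = (Real.exp 1 * Real.exp (1 / 12)) * (A / 3) := by ring
    _ ≤ 3 * (A / 3) := mul_le_mul_of_nonneg_right h4 (by positivity)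
    _ = A := by ring

/-- The core theorem of project REG with uniform constants. -/
theorem core_unif (A0 Cs : ℝ) (q0 : ℕ) (hA0 : 0 ≤ A0) (hCs : 0 ≤ Cs) :
    ∃ ρ A : ℝ, 0 < ρ ∧ 1 ≤ A ∧ ∀ R1 R2 : ℝ → ℝ, Dec 0 0 A0 R1 → Dec 0 0 A0 R2 →
      (∀ p q : ℕ, PQ p q → q0 ≤ q → ∃ u, Leaf R1 R2 p q Cs u) →
      ∀ N : ℕ, Dec ρ N A R1 ∧ Dec ρ N A R2 := by
  have hA1 : (1:ℝ) ≤ 3 * A0 + 1 := by linarith
  have hA : (0:ℝ) < 3 * A0 + 1 := by linarith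
  obtain ⟨Q0, C5, hC5, hQ0, hKE⟩ := keyEstimate (3 * A0 + 1) Cs q0 hA1 hCs
  set Q : ℝ := max (Q0:ℝ) (max (2 * C5 / (3 * A0 + 1)) 1) with hQd
  have hQ1 : 1 ≤ Q := (le_max_right _ _).trans (le_max_right _ _)
  have hQ2 : 2 * C5 / (3 * A0 + 1) ≤ Q := (le_max_left _ _).trans (le_max_right _ _)
  have hQ3 : (Q0:ℝ) ≤ Q := le_max_left _ _
  have hQp : 0 < Q := by linarith
  refine ⟨1 / Q, 3 * A0 + 1, by positivity, hA1, ?_⟩
  intro R1 R2 h1 h2 hleaf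
  have hs1 : ∀ x, HasSum (fun k => rc R1 k * e k x) ((R1 x : ℝ) : ℂ) :=
    fun x => Dec.hasSum_rc (le_refl 0) h1 x
  have hs2 : ∀ x, HasSum (fun k => rc R2 k * e k x) ((R2 x : ℝ) : ℂ) :=
    fun x => Dec.hasSum_rc (le_refl 0) h2 x
  have hzero : ∀ (N : ℕ) (R : ℝ → ℝ), Dec 0 0 A0 R → Dec 0 N (3 * A0 + 1) R := by
    intro N R h
    refine ⟨rc R, fun k => ?_, fun x => Dec.hasSum_rc (le_refl 0) h x⟩
    have h3 := Dec.rc_le (le_refl 0) h k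
    rw [V_zero_rho] at h3 ⊢
    refine h3.trans ?_
    apply div_le_div_of_nonneg_right _ (by positivity)
    linarith
  have key : ∀ (N : ℕ) (j : ℕ),
      Dec (min ((j:ℝ) * (1 / (12 * ((N:ℝ) + 1)))) (1 / Q)) N (3 * A0 + 1) R1 ∧
      Dec (min ((j:ℝ) * (1 / (12 * ((N:ℝ) + 1)))) (1 / Q)) N (3 * A0 + 1) R2 := by
    intro N j
    have hN : (0:ℝ) ≤ N := Nat.cast_nonneg N
    have hδ : 0 < 1 / (12 * ((N:ℝ) + 1)) := by positivity
    have hQi : 0 < 1 / Q := by positivity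
    induction j with
    | zero =>
      have e0 : min (((0:ℕ):ℝ) * (1 / (12 * ((N:ℝ) + 1)))) (1 / Q) = 0 := by
        rw [Nat.cast_zero, zero_mul]
        exact min_eq_left hQi.le
      rw [e0]
      exact ⟨hzero N R1 h1, hzero N R2 h2⟩
    | succ j ih =>
      obtain ⟨i1, i2⟩ := ih
      have hρ : 0 ≤ min ((j:ℝ) * (1 / (12 * ((N:ℝ) + 1)))) (1 / Q) :=
        le_min (by positivity) hQi.le
      have hρ2 : min ((j:ℝ) * (1 / (12 * ((N:ℝ) + 1)))) (1 / Q) ≤ 1 / Q := min_le_right _ _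
      have hk := hKE _ N R1 R2 hρ i1 i2 hleaf
      have hstep : min (((j + 1 : ℕ):ℝ) * (1 / (12 * ((N:ℝ) + 1)))) (1 / Q) ≤
          min ((j:ℝ) * (1 / (12 * ((N:ℝ) + 1)))) (1 / Q) + 1 / (12 * ((N:ℝ) + 1)) := by
        rw [← min_add_add_right]
        apply min_le_min
        · push_cast
          linarith
        · linarith
      constructor
      · exact core_b hA hstep hs1 (core_a hA0 rfl hQ1 hQ2 hρ hρ2 h1
          (fun n hn => (hk n (hQ3.trans hn)).1))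
      · exact core_b hA hstep hs2 (core_a hA0 rfl hQ1 hQ2 hρ hρ2 h2
          (fun n hn => (hk n (hQ3.trans hn)).2))
  intro N
  have hN : (0:ℝ) ≤ N := Nat.cast_nonneg N
  have hδ : 0 < 1 / (12 * ((N:ℝ) + 1)) := by positivity
  obtain ⟨j, hj⟩ := exists_nat_ge (1 / Q / (1 / (12 * ((N:ℝ) + 1))))
  have hj' : 1 / Q ≤ (j:ℝ) * (1 / (12 * ((N:ℝ) + 1))) := by
    rwa [div_le_iff₀ hδ] at hj
  have h3 := key N j
  rwa [min_eq_right hj'] at h3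

end Pool.Agent.MP_ae5b4e_an_RIG
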