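import Mathlib
import Pool.Agent.Lib.MP_ae5b4e_an_RG.TMap

/-!
# MP_ae5b4e_an, project RIG, module GPer: existence of the curves of periodic points, explicit

MODEL: `RG/Per.lean` (`exists_pleaf`): the same proof with the given `c₀`, `δ` instead of `1 / 2`
and the `δ` of `exists_delta` (copy the private lemmas `contF`, `perN`, `iter_cont`, `iter_le`,
`iter_lt`, `iter_lim`, `iter_big`, `exists_cc`, `iter_add`; in `exists_cc` the interval
`Icc c1 (1/2)` becomes `Icc c1 c₀`).
-/

noncomputable section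

namespace Pool.Agent.MP_ae5b4e_an_RIG

open Real Set Filter Topology MeasureTheory intervalIntegral
open scoped ContDiff
open Pool.Agent.MP_ae5b4e_an_RG

section aux

variable {T : ℝ} {F : ℝ → ℝ → ℝ} (h : TMap T F)

include h

private theorem contF {c : ℝ} (hc : c ∈ Ioo (0:ℝ) 1) : Continuous (F c) :=
  h.cont.comp_continuous (continuous_const.prodMk continuous_id) fun _ => ⟨hc, trivial⟩

private theorem perN {c : ℝ} (hc : c ∈ Ioo (0:ℝ) 1) (n : ℕ) (t : ℝ) :
    F c (t + n * T) = F c t + n * T := by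
  induction n with
  | zero => simp
  | succ n ih =>
    have e1 : t + ((n + 1 : ℕ) : ℝ) * T = (t + n * T) + T := by push_cast; ring
    rw [e1, h.per c hc, ih]
    push_cast
    ring

private theorem iter_cont (j : ℕ) (t : ℝ) : ContinuousOn (fun c => (F c)^[j] t) (Ioo 0 1) := by
  induction j with
  | zero => simpa using continuousOn_const
  | succ j ih =>
    have e : (fun c => (F c)^[j + 1] t) = fun c => F c ((F c)^[j] t) := by
      funext c
      exact Function.iterate_succ_apply' _ _ _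
    rw [e]
    have h1 : ContinuousOn (fun c => ((c, (F c)^[j] t) : ℝ × ℝ)) (Ioo 0 1) :=
      continuousOn_id.prodMk ih
    exact h.cont.comp h1 fun c hc => ⟨hc, trivial⟩

private theorem iter_le {c c' : ℝ} (hc : c ∈ Ioo (0:ℝ) 1) (hc' : c' ∈ Ioo (0:ℝ) 1) (hcc : c < c')
    (j : ℕ) (t : ℝ) : (F c)^[j] t ≤ (F c')^[j] t := by
  induction j with
  | zero => simp
  | succ j ih =>
    rw [Function.iterate_succ_apply', Function.iterate_succ_apply']
    exact (h.mono_c _ hc hc' hcc).le.trans ((h.mono_t c' hc').monotone ih)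

private theorem iter_lt {c c' : ℝ} (hc : c ∈ Ioo (0:ℝ) 1) (hc' : c' ∈ Ioo (0:ℝ) 1) (hcc : c < c')
    {q : ℕ} (hq : 1 ≤ q) (t : ℝ) : (F c)^[q] t < (F c')^[q] t := by
  obtain ⟨j, rfl⟩ : ∃ j, q = j + 1 := ⟨q - 1, by omega⟩
  rw [Function.iterate_succ_apply', Function.iterate_succ_apply']
  exact (h.mono_c _ hc hc' hcc).trans_le ((h.mono_t c' hc').monotone (iter_le h hc hc' hcc j t))

private theorem iter_lim (j : ℕ) (t : ℝ) :
    Tendsto (fun c => (F c)^[j] t) (𝓝[>] 0) (𝓝 t) := by
  induction j with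
  | zero => simp
  | succ j ih =>
    have hIoo : ∀ᶠ c in 𝓝[>] (0:ℝ), c ∈ Ioo (0:ℝ) 1 := Ioo_mem_nhdsGT (by norm_num)
    rw [tendsto_order] at ih ⊢
    constructor
    · intro a ha
      filter_upwards [ih.1 a ha, hIoo] with c h1 hc
      rw [Function.iterate_succ_apply']
      exact h1.trans (h.gt c hc _)
    · intro b hb
      have hm : t < (t + b) / 2 := by linarith
      have hm2 : (t + b) / 2 < b := by linarith
      have h2 := (tendsto_order.1 (h.lim ((t + b) / 2))).2 b hm2
      filter_upwards [ih.2 _ hm, h2, hIoo] with c h1 h3 hc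
      rw [Function.iterate_succ_apply']
      exact (h.mono_t c hc h1).trans h3

omit h in
private theorem iter_big {c₀ δ : ℝ} (hδ : ∀ t, t + δ ≤ F c₀ t) (j : ℕ) (t : ℝ) :
    t + j * δ ≤ (F c₀)^[j] t := by
  induction j with
  | zero => simp
  | succ j ih =>
    rw [Function.iterate_succ_apply']
    have := hδ ((F c₀)^[j] t)
    push_cast
    linarith

private theorem exists_cc {c₀ δ : ℝ} (hc₀ : c₀ ∈ Ioo (0:ℝ) 1) (hδ : ∀ t, t + δ ≤ F c₀ t)
    {p q : ℕ}
    (hp : 1 ≤ p) (hq : (p : ℝ) * T < q * δ) (t : ℝ) :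
    ∃ c ∈ Ioo (0:ℝ) 1, (F c)^[q] t = t + p * T := by
  have hpT : 0 < (p : ℝ) * T := mul_pos (by exact_mod_cast hp) h.T_pos
  have h1 := (tendsto_order.1 (iter_lim h q t)).2 (t + p * T) (by linarith)
  have h2 : ∀ᶠ c in 𝓝[>] (0:ℝ), c ∈ Ioo (0:ℝ) c₀ := Ioo_mem_nhdsGT hc₀.1
  obtain ⟨c1, hc1, hc1'⟩ := (h1.and h2).exists
  have hsub : Icc c1 c₀ ⊆ Ioo (0:ℝ) 1 := fun c hc =>
    ⟨hc1'.1.trans_le hc.1, lt_of_le_of_lt hc.2 hc₀.2⟩
  have h3 := intermediate_value_Icc hc1'.2.le ((iter_cont h q t).mono hsub)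
  have h4 : t + p * T ∈ Icc ((F c1)^[q] t) ((F c₀)^[q] t) := by
    refine ⟨hc1.le, ?_⟩
    have := iter_big hδ q t
    linarith
  obtain ⟨c, hc, hce⟩ := h3 h4
  exact ⟨c, hsub hc, hce⟩

private theorem iter_add {c : ℝ} (hc : c ∈ Ioo (0:ℝ) 1) (j : ℕ) (t : ℝ) :
    (F c)^[j] (t + T) = (F c)^[j] t + T := by
  induction j with
  | zero => simp
  | succ j ih =>
    rw [Function.iterate_succ_apply', Function.iterate_succ_apply', ih, h.per c hc]

end aux

theorem exists_pleaf_of_step {T : ℝ} {F : ℝ → ℝ → ℝ} (h : TMap T F) {c₀ δ : ℝ}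
    (hc₀ : c₀ ∈ Ioo (0:ℝ) 1) (hδ0 : 0 < δ) (hδ : ∀ t, t + δ ≤ F c₀ t) {p q : ℕ} (hpq : PQ p q)
    (hq : 2 * T < q * δ) : ∃ L, PLeaf T F p q L := by
  have hT := h.T_pos
  have hp1 : 1 ≤ p := by rcases hpq.1 with h1 | h1 <;> omega
  have hp2 : p ≤ 2 := by rcases hpq.1 with h1 | h1 <;> omega
  have hq1 : 1 ≤ q := by have := hpq.2.1; omega
  have hqR : (0 : ℝ) < q := by exact_mod_cast hq1
  have hqδ : (p : ℝ) * T < q * δ := by
    have h2 : (p : ℝ) ≤ 2 := by exact_mod_cast hp2
    nlinarith
  choose cc hcc hcq using exists_cc h hc₀ hδ hp1 hqδ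
  have huniq : ∀ t c, c ∈ Ioo (0:ℝ) 1 → (F c)^[q] t = t + p * T → c = cc t := by
    intro t c hc he
    rcases lt_trichotomy c (cc t) with h1 | h1 | h1
    · have := iter_lt h hc (hcc t) h1 hq1 t
      rw [he, hcq t] at this
      exact absurd this (lt_irrefl _)
    · exact h1
    · have := iter_lt h (hcc t) hc h1 hq1 t
      rw [he, hcq t] at this
      exact absurd this (lt_irrefl _)
  set τ : ℝ → ℝ := fun t => F (cc t) t with hτ
  -- invariance of `cc`
  have hccτ : ∀ t, cc (τ t) = cc t := by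
    intro t
    refine (huniq _ _ (hcc t) ?_).symm
    show (F (cc t))^[q] (F (cc t) t) = F (cc t) t + p * T
    rw [← Function.iterate_succ_apply, Function.iterate_succ_apply', hcq t, perN h (hcc t)]
  have hiter : ∀ t j, cc (τ^[j] t) = cc t ∧ τ^[j] t = (F (cc t))^[j] t := by
    intro t j
    induction j with
    | zero => simp
    | succ j ih =>
      rw [Function.iterate_succ_apply', Function.iterate_succ_apply', hccτ]
      refine ⟨ih.1, ?_⟩
      show F (cc (τ^[j] t)) (τ^[j] t) = _
      rw [ih.1, ih.2]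
  have hτq : ∀ t, τ^[q] t = t + p * T := fun t => by rw [(hiter t q).2, hcq t]
  have hccT : ∀ t, cc (t + T) = cc t := by
    intro t
    refine (huniq _ _ (hcc t) ?_).symm
    rw [iter_add h (hcc t), hcq t]
    ring
  have hτT : ∀ t, τ (t + T) = τ t + T := by
    intro t
    show F (cc (t + T)) (t + T) = F (cc t) t + T
    rw [hccT, h.per _ (hcc t)]
  -- monotonicity
  have hτm : StrictMono τ := by
    intro t t' htt
    show F (cc t) t < F (cc t') t'
    rcases le_or_gt (cc t) (cc t') with h1 | h1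
    · exact (h.mono_t _ (hcc t) htt).trans_le ((h.mono_c t').monotoneOn (hcc t) (hcc t') h1)
    · by_contra hcon
      rw [not_lt] at hcon
      have h2 : ∀ j : ℕ, (F (cc t'))^[j + 1] t' ≤ (F (cc t))^[j + 1] t := by
        intro j
        induction j with
        | zero => simpa using hcon
        | succ j ih =>
          rw [Function.iterate_succ_apply', Function.iterate_succ_apply' (n := j + 1)]
          exact (h.mono_c _ (hcc t') (hcc t) h1).le.trans ((h.mono_t _ (hcc t)).monotone ih)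
      obtain ⟨j, hj⟩ : ∃ j, q = j + 1 := ⟨q - 1, by omega⟩
      have h3 := h2 j
      rw [← hj, hcq, hcq] at h3
      linarith
  have hτs : Function.Surjective τ := by
    intro y
    obtain ⟨j, hj⟩ : ∃ j, q = j + 1 := ⟨q - 1, by omega⟩
    refine ⟨τ^[j] (y - p * T), ?_⟩
    have h5 := hτq (y - p * T)
    rw [hj, Function.iterate_succ_apply'] at h5
    rw [h5]
    ring
  have hτc : Continuous τ := (hτm.orderIsoOfSurjective τ hτs).continuous
  have hjm : ∀ j : ℕ, StrictMono (τ^[j]) := fun j => hτm.iterate j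
  have hjc : ∀ j : ℕ, Continuous (τ^[j]) := fun j => hτc.iterate j
  have hjT : ∀ (j : ℕ) t, τ^[j] (t + T) = τ^[j] t + T := by
    intro j t
    induction j with
    | zero => simp
    | succ j ih => rw [Function.iterate_succ_apply', Function.iterate_succ_apply', ih, hτT]
  -- the averaged coordinate
  set om : ℝ := (p : ℝ) * T / q with hom
  set G : ℝ → ℝ := fun t => (1 / (q : ℝ)) * ∑ j ∈ Finset.range q, (τ^[j] t - j * om) with hG
  have hGm : StrictMono G := by
    intro t t' htt
    refine mul_lt_mul_of_pos_left ?_ (by positivity)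
    refine Finset.sum_lt_sum_of_nonempty ⟨0, Finset.mem_range.2 hq1⟩ fun j _ => ?_
    have := hjm j htt
    linarith
  have hGc : Continuous G := by
    refine continuous_const.mul (continuous_finsetSum _ fun j _ => ?_)
    exact (hjc j).sub continuous_const
  have hGT : ∀ t, G (t + T) = G t + T := by
    intro t
    show (1 / (q : ℝ)) * ∑ j ∈ Finset.range q, (τ^[j] (t + T) - j * om) = _
    have e1 : ∑ j ∈ Finset.range q, (τ^[j] (t + T) - j * om) =
        ∑ j ∈ Finset.range q, (τ^[j] t - j * om) + q * T := by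
      rw [Finset.sum_congr rfl fun j _ => show τ^[j] (t + T) - j * om = (τ^[j] t - j * om) + T by
        rw [hjT]; ring, Finset.sum_add_distrib]
      simp
    rw [e1, mul_add]
    congr 1
    field_simp
  have hGτ : ∀ t, G (τ t) = G t + om := by
    intro t
    show (1 / (q : ℝ)) * ∑ j ∈ Finset.range q, (τ^[j] (τ t) - j * om) =
      (1 / (q : ℝ)) * ∑ j ∈ Finset.range q, (τ^[j] t - j * om) + om
    have e1 : ∑ j ∈ Finset.range q, τ^[j] (τ t) = ∑ j ∈ Finset.range q, τ^[j] t + p * T := by
      have e2 : ∀ j ∈ Finset.range q, τ^[j] (τ t) = τ^[j + 1] t := fun j _ =>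
        (Function.iterate_succ_apply τ j t).symm
      rw [Finset.sum_congr rfl e2]
      have e3 := Finset.sum_range_succ' (fun j => τ^[j] t) q
      have e4 := Finset.sum_range_succ (fun j => τ^[j] t) q
      have e5 : τ^[q] t = t + p * T := hτq t
      have e6 : τ^[0] t = t := rfl
      linarith
    rw [Finset.sum_sub_distrib, Finset.sum_sub_distrib, e1, hom]
    field_simp
    ring
  have hGn : ∀ (n : ℕ) t, G (t + n * T) = G t + n * T := by
    intro n t
    induction n with
    | zero => simp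
    | succ n ih =>
      have e1 : t + ((n + 1 : ℕ) : ℝ) * T = (t + n * T) + T := by push_cast; ring
      rw [e1, hGT, ih]
      push_cast
      ring
  have hGs : Function.Surjective G := by
    intro y
    obtain ⟨n, hn⟩ := exists_nat_gt (|y - G 0| / T)
    rw [div_lt_iff₀ hT] at hn
    have h1 := hGn n 0
    have h2 := hGn n (-(n * T))
    rw [zero_add] at h1
    rw [neg_add_cancel] at h2
    have h3 := abs_lt.1 hn
    have hle : -((n:ℝ) * T) ≤ n * T := by
      have : 0 ≤ (n:ℝ) * T := by positivity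
      linarith
    have hmem : y ∈ Icc (G (-(n * T))) (G (n * T)) := by
      rw [h1]
      exact ⟨by linarith [h3.1], by linarith [h3.2]⟩
    obtain ⟨s, -, hs'⟩ := intermediate_value_Icc hle hGc.continuousOn hmem
    exact ⟨s, hs'⟩
  set e := hGm.orderIsoOfSurjective G hGs with he
  set L : ℝ → ℝ := ⇑e.symm with hL
  have e1 : ∀ t, L (G t) = t := fun t => e.symm_apply_apply t
  have e2 : ∀ x, G (L x) = x := fun x => e.apply_symm_apply x
  have hLom : ∀ x, L (x + om) = τ (L x) := by
    intro x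
    rw [← e1 (τ (L x)), hGτ, e2]
  have hLj : ∀ (j : ℕ) x, L (x + j * om) = τ^[j] (L x) := by
    intro j x
    induction j with
    | zero => simp
    | succ j ih =>
      have e3 : x + ((j + 1 : ℕ) : ℝ) * om = (x + j * om) + om := by push_cast; ring
      rw [e3, hLom, ih, Function.iterate_succ_apply']
  refine ⟨L, ⟨e.symm.continuous, e.symm.strictMono, fun x => ?_, fun x => ?_, fun x => ?_⟩⟩
  · rw [← e1 (L x + T), hGT, e2]
  · have e3 : L x = τ (L (x - om)) := by
      rw [← hLom]
      congr 1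
      ring
    refine ⟨cc (L (x - om)), hcc _, e3.symm, ?_⟩
    show F (cc (L (x - om))) (L x) = L (x + om)
    rw [hLom]
    show _ = F (cc (L x)) (L x)
    have e4 : cc (L x) = cc (L (x - om)) := by
      rw [e3, hccτ]
    rw [e4]
  · show ∑ j ∈ Finset.range q, (L (x + j * om) - (x + j * om)) = 0
    have e3 : ∑ j ∈ Finset.range q, (L (x + j * om) - (x + j * om)) =
        ∑ j ∈ Finset.range q, (τ^[j] (L x) - j * om) - q * x := by
      have e6 : ∀ j ∈ Finset.range q, L (x + j * om) - (x + j * om) =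
          (τ^[j] (L x) - j * om) - x := fun j _ => by
        rw [hLj]
        ring
      rw [Finset.sum_congr rfl e6, Finset.sum_sub_distrib (g := fun _ => x)]
      simp
    have e4 : (1 / (q : ℝ)) * ∑ j ∈ Finset.range q, (τ^[j] (L x) - j * om) = x := e2 x
    have e5 : ∑ j ∈ Finset.range q, (τ^[j] (L x) - j * om) = q * x := by
      have e7 : (q : ℝ) * ((1 / (q : ℝ)) * ∑ j ∈ Finset.range q, (τ^[j] (L x) - j * om)) =
          q * x := by rw [e4]
      rw [← mul_assoc, mul_one_div_cancel hqR.ne', one_mul] at e7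
      exact e7
    rw [e3, e5, sub_self]

end Pool.Agent.MP_ae5b4e_an_RIG
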