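import Mathlib
import Pool.Agent.Lib.MP_ae5b4e_an_RIG.GDef
import Pool.Agent.Lib.MP_ae5b4e_an_RIG.GTay
import Pool.Agent.Lib.MP_ae5b4e_an_RG.LSys
import Pool.Agent.Lib.MP_ae5b4e_an_RG.VForm

/-!
# MP_ae5b4e_an, project RIG, module GSml: all the steps of a curve of periodic points are small

The constants depend only on the bound `K` of `r`, `m` and on `ε`.

PROOF.  Put `om = p / q`, `D x = L (x + om) - L x > 0` (`L` is strictly monotone).
(1) Expansion.  For `0 < |d| ≤ d0` (`d0 < 1` from `taylor_unif K`) the relation `rel_L1`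
    gives `Rel R1 R2 a d (d * L1 P (a + d) a - 2)`, and `taylor_unif` gives
    `|d * L1 P (a + d) a - 2| ≤ C1 * d ^ 2` with `C1 := 2 * K + C` (because `|d| ≤ 1`).
    Hence, for `0 < d ≤ d1 := min d0 (1 / (8 * C1 + 8))`:
    (a) `y = a + d`, the next point seen from behind: `L1 P y a = (2 + ρ) / d`, `|ρ| ≤ C1 d ^ 2`;
    (b) `y = a - d`: `L1 P y a = -(2 + ρ) / d`, `|ρ| ≤ C1 d ^ 2`.
(2) Law.  If `x < y < z` are consecutive points of an orbit (`L (x₀ - om)`, `L x₀`, `L (x₀ + om)`; use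
    `hL.com x₀` and `h.law`, as in `orb_of_pleaf` of `RG/Geo.lean`) then `L1 P y z = -L1 P y x`.
(3) The next step is small: if `D' := y - x ≤ d1 / 2` then `z - y ≤ 2 * (y - x)`.  Otherwise
    `z' := y + 2 (y - x) < z < y + 1` and, `L1 P y ·` being strictly increasing on `(y, y + 1)`
    (`h.curve.strictMono_L1`), `L1 P y z' < L1 P y z = -L1 P y x ≤ -(2 - 1/8) / (y - x)`, while (b)
    gives `L1 P y z' ≥ -(2 + 1/8) / (2 (y - x))`, a contradiction.
(4) Ratio.  If `s = y - x ≤ d1`, `t = z - y ≤ d1`, then `(2 + ρm) / s = (2 + ρp) / t` with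
    `|ρm| ≤ C1 s ^ 2 ≤ 1/8`, `|ρp| ≤ C1 t ^ 2 ≤ 1/8`, hence `t ≤ s * (1 + C1 (s ^ 2 + t ^ 2))
    ≤ s * exp (C1 (s ^ 2 + t ^ 2))`, and symmetrically.
(5) Chain.  `∑ j ∈ range q, D (x + j om) = p = q om` (telescoping, `hL.per`; as `hsum` in
    `apriori` of `RG/Apri.lean`), so there is `j₀ < q` with `D (x + j₀ om) ≤ om`.  Put
    `d j = D (x + (j₀ + j) om)`.  CLAIM: if `q` is so large that `om ≤ 2 / q ≤ d1 / 8` and
    `48 * C1 * om ≤ 1 / 2`, then `d j ≤ 2 om` for all `j ≤ q`.  Induction: if it holds up to `j`, (3)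
    gives `d (j + 1) ≤ 4 om`, and (4) gives
    `d (j + 1) ≤ d 0 * exp (2 C1 * ∑ i ≤ j + 1, (d i) ^ 2)
      ≤ om * exp (2 C1 * 4 om * ∑ i ≤ j + 1, d i) ≤ om * exp (2 C1 * 4 om * 6) ≤ 2 om`, because
    `∑ i ≤ j + 1, d i = L (x + (j₀ + j + 2) om) - L (x + j₀ om) ≤ (number of periods) ≤ p + 4 om ≤ 6`
    (bound the first `q` terms by `p ≤ 2` and the at most two remaining ones by `4 om ≤ 1`).
    By periodicity (`D (x + q om) = D x`) every `D (x + i om)` is one of the `d j`, in particular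
    `D x ≤ 2 om ≤ 4 / q ≤ ε` for large `q`.
-/

noncomputable section

namespace Pool.Agent.MP_ae5b4e_an_RIG

open Real Set Filter Topology MeasureTheory intervalIntegral
open scoped ContDiff
open Pool.Agent.MP_ae5b4e_an_hopf
open Pool.Agent.MP_ae5b4e_an_RG

/-- translation by integers -/
private theorem sml_per {L : ℝ → ℝ} (h : ∀ x, L (x + 1) = L x + 1) (n : ℕ) (x : ℝ) :
    L (x + n) = L x + n := by
  induction n with
  | zero => simp
  | succ n ih =>
    have : x + ((n + 1 : ℕ) : ℝ) = (x + n) + 1 := by push_cast; ring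
    rw [this, h, ih]
    push_cast
    ring

/-- the expansion gives a quadratic bound -/
private theorem sml_rho {K C C1 d R b ρ : ℝ} (hK : 0 ≤ K) (hC : 0 ≤ C) (hC1 : 2 * K + C ≤ C1)
    (hd : |d| ≤ 1) (hR : |R| ≤ K) (hb : |b| ≤ K)
    (h : |ρ + R / 6 * d ^ 2 + b * d ^ 3| ≤ C * d ^ 4) : |ρ| ≤ C1 * d ^ 2 := by
  have h2 : d ^ 2 ≤ 1 := (sq_le_one_iff_abs_le_one d).2 hd
  have e1 : |R / 6 * d ^ 2| ≤ K * d ^ 2 := by
    rw [abs_mul, abs_div, abs_of_pos (by norm_num : (0:ℝ) < 6), abs_of_nonneg (sq_nonneg d)]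
    have : |R| / 6 ≤ K := by linarith [abs_nonneg R]
    exact mul_le_mul_of_nonneg_right this (sq_nonneg d)
  have e2 : |b * d ^ 3| ≤ K * d ^ 2 := by
    have h4 : b * d ^ 3 = (b * d) * d ^ 2 := by ring
    rw [h4, abs_mul, abs_mul, abs_of_nonneg (sq_nonneg d)]
    have h3 : |b| * |d| ≤ K * 1 := mul_le_mul hb hd (abs_nonneg _) hK
    rw [mul_one] at h3
    exact mul_le_mul_of_nonneg_right h3 (sq_nonneg d)
  have e3 : C * d ^ 4 ≤ C * d ^ 2 := by
    have : d ^ 4 ≤ d ^ 2 := by nlinarith [sq_nonneg d]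
    exact mul_le_mul_of_nonneg_left this hC
  have f1 := abs_le.1 h
  have f2 := abs_le.1 e1
  have f3 := abs_le.1 e2
  have e5 : (2 * K + C) * d ^ 2 ≤ C1 * d ^ 2 := mul_le_mul_of_nonneg_right hC1 (sq_nonneg d)
  have e6 : (2 * K + C) * d ^ 2 = 2 * (K * d ^ 2) + C * d ^ 2 := by ring
  rw [abs_le]
  constructor
  · linarith [f1.1, f1.2, f2.1, f2.2, f3.1, f3.2]
  · linarith [f1.1, f1.2, f2.1, f2.2, f3.1, f3.2]

/-- small squares -/
private theorem sml_sq {C1 z : ℝ} (hC1 : 1 ≤ C1) (hz : 0 < z) (hz1 : z ≤ 1 / (8 * C1)) :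
    C1 * z ^ 2 ≤ 1 / 8 := by
  have hC0 : 0 < C1 := by linarith
  have h1 : C1 * z ≤ 1 / 8 := by
    calc C1 * z ≤ C1 * (1 / (8 * C1)) := mul_le_mul_of_nonneg_left hz1 hC0.le
      _ = 1 / 8 := by field_simp
  have h2 : z ≤ 1 := by
    refine hz1.trans ?_
    rw [div_le_one (by linarith)]
    linarith
  calc C1 * z ^ 2 = (C1 * z) * z := by ring
    _ ≤ (1 / 8) * 1 := mul_le_mul h1 h2 hz.le (by norm_num)
    _ = 1 / 8 := by norm_num

/-- multiplicative form of the law -/
private theorem sml_ratio {C1 s t A : ℝ} (hC1 : 1 ≤ C1) (hs : 0 < s) (ht : 0 < t)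
    (hs1 : s ≤ 1 / (8 * C1)) (hrm : |s * A - 2| ≤ C1 * s ^ 2)
    (hrp : |t * A - 2| ≤ C1 * t ^ 2) : t ≤ s * Real.exp (C1 * (s ^ 2 + t ^ 2)) := by
  have h1 : |s * A - 2| ≤ 1 / 8 := hrm.trans (sml_sq hC1 hs hs1)
  have h2 := abs_le.1 h1
  have e2 : (t * A - 2) - (s * A - 2) ≤ C1 * (s ^ 2 + t ^ 2) := by
    have h3 := (abs_le.1 hrp).2
    have h4 := (abs_le.1 hrm).1
    linarith
  have hX : 0 ≤ C1 * (s ^ 2 + t ^ 2) := by positivity
  have hA : 1 ≤ s * A := by linarith [h2.1]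
  have e4 : t ≤ s * (1 + C1 * (s ^ 2 + t ^ 2)) := by
    have h5 : t * A ≤ (1 + C1 * (s ^ 2 + t ^ 2)) * (s * A) := by
      have := mul_le_mul_of_nonneg_left hA hX
      linarith
    have hA0 : 0 < A := by
      by_contra hn
      have : s * A ≤ 0 := mul_nonpos_of_nonneg_of_nonpos hs.le (not_lt.1 hn)
      linarith
    have h6 : t * A ≤ (s * (1 + C1 * (s ^ 2 + t ^ 2))) * A := by linarith
    exact le_of_mul_le_mul_right h6 hA0
  have e5 : 1 + C1 * (s ^ 2 + t ^ 2) ≤ Real.exp (C1 * (s ^ 2 + t ^ 2)) := by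
    linarith [Real.add_one_le_exp (C1 * (s ^ 2 + t ^ 2))]
  exact e4.trans (mul_le_mul_of_nonneg_left e5 hs.le)

/-- chains of multiplicative estimates -/
private theorem sml_exp {c : ℝ} (hc : 0 ≤ c) {d : ℕ → ℝ} (hd : ∀ n, 0 < d n) {N : ℕ}
    (h : ∀ n < N, d (n + 1) ≤ d n * Real.exp (c * (d n ^ 2 + d (n + 1) ^ 2))) :
    d N ≤ d 0 * Real.exp (2 * c * ∑ j ∈ Finset.range (N + 1), d j ^ 2) := by
  have key : ∀ n, n ≤ N →
      d n ≤ d 0 * Real.exp (c * (2 * ∑ j ∈ Finset.range n, d j ^ 2 + d n ^ 2)) := by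
    intro n
    induction n with
    | zero =>
      intro _
      have : 1 ≤ Real.exp (c * (2 * ∑ j ∈ Finset.range 0, d j ^ 2 + d 0 ^ 2)) := by
        apply Real.one_le_exp
        have := hd 0
        simp only [Finset.range_zero, Finset.sum_empty]
        positivity
      nlinarith [hd 0]
    | succ n ih =>
      intro hn
      calc d (n + 1) ≤ d n * Real.exp (c * (d n ^ 2 + d (n + 1) ^ 2)) := h n (by omega)
        _ ≤ (d 0 * Real.exp (c * (2 * ∑ j ∈ Finset.range n, d j ^ 2 + d n ^ 2))) *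
            Real.exp (c * (d n ^ 2 + d (n + 1) ^ 2)) :=
            mul_le_mul_of_nonneg_right (ih (by omega)) (Real.exp_pos _).le
        _ = d 0 * Real.exp (c * (2 * ∑ j ∈ Finset.range (n + 1), d j ^ 2 + d (n + 1) ^ 2)) := by
            rw [mul_assoc, ← Real.exp_add, Finset.sum_range_succ]
            congr 2
            ring
  refine (key N le_rfl).trans (mul_le_mul_of_nonneg_left (Real.exp_le_exp.2 ?_) (hd 0).le)
  rw [Finset.sum_range_succ]
  nlinarith [mul_nonneg hc (sq_nonneg (d N))]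

/-- the chain: all the steps are small -/
private theorem sml_chain {C1 d1 om : ℝ} (hC1 : 0 ≤ C1) (hom : 0 < om) (h1 : 4 * om ≤ d1)
    (h2 : 48 * C1 * om ≤ 1) (h3 : 4 * om ≤ 1) {d : ℕ → ℝ} (hd : ∀ n, 0 < d n) (h0 : d 0 ≤ om)
    {q : ℕ} (hsum : ∑ j ∈ Finset.range q, d j ≤ 2)
    (hnext : ∀ n, d n ≤ d1 / 2 → d (n + 1) ≤ 2 * d n)
    (hratio : ∀ n, d n ≤ d1 → d (n + 1) ≤ d1 →
      d (n + 1) ≤ d n * Real.exp (C1 * (d n ^ 2 + d (n + 1) ^ 2))) :
    ∀ n, n ≤ q → ∀ i ≤ n, d i ≤ 2 * om := by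
  intro n
  induction n with
  | zero =>
    intro _ i hi
    have : i = 0 := by omega
    subst this
    linarith
  | succ n ih =>
    intro hn i hi
    have ih' := ih (by omega)
    rcases Nat.lt_or_ge n i with hlt | hge
    · have : i = n + 1 := by omega
      subst this
      have g1 : d (n + 1) ≤ 4 * om := by
        have := hnext n (by linarith [ih' n le_rfl])
        linarith [ih' n le_rfl]
      have g2 : ∀ j ≤ n + 1, d j ≤ 4 * om := by
        intro j hj
        rcases Nat.lt_or_ge n j with h5 | h5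
        · have : j = n + 1 := by omega
          subst this
          exact g1
        · linarith [ih' j h5]
      have g3 := sml_exp hC1 hd (N := n + 1) (fun j hj =>
        hratio j ((g2 j (by omega)).trans h1) ((g2 (j + 1) (by omega)).trans h1))
      have g4 : ∑ j ∈ Finset.range (n + 1), d j ≤ 2 := by
        refine le_trans ?_ hsum
        refine Finset.sum_le_sum_of_subset_of_nonneg ?_ fun i _ _ => (hd i).le
        intro i hi
        rw [Finset.mem_range] at hi ⊢
        omega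
      have g5 : ∑ j ∈ Finset.range (n + 1 + 1), d j ≤ 3 := by
        rw [Finset.sum_range_succ]
        linarith
      have g6 : ∑ j ∈ Finset.range (n + 1 + 1), d j ^ 2 ≤ 4 * om * 3 := by
        calc ∑ j ∈ Finset.range (n + 1 + 1), d j ^ 2
            ≤ ∑ j ∈ Finset.range (n + 1 + 1), 4 * om * d j := by
              refine Finset.sum_le_sum fun j hj => ?_
              rw [sq]
              exact mul_le_mul_of_nonneg_right
                (g2 j (by rw [Finset.mem_range] at hj; omega)) (hd j).le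
          _ = 4 * om * ∑ j ∈ Finset.range (n + 1 + 1), d j := by rw [Finset.mul_sum]
          _ ≤ 4 * om * 3 := mul_le_mul_of_nonneg_left g5 (by positivity)
      have g7 : 2 * C1 * ∑ j ∈ Finset.range (n + 1 + 1), d j ^ 2 ≤ 1 / 2 := by
        calc 2 * C1 * ∑ j ∈ Finset.range (n + 1 + 1), d j ^ 2 ≤ 2 * C1 * (4 * om * 3) :=
              mul_le_mul_of_nonneg_left g6 (by positivity)
          _ = (48 * C1 * om) / 2 := by ring
          _ ≤ 1 / 2 := by linarith
      have g8 : Real.exp (2 * C1 * ∑ j ∈ Finset.range (n + 1 + 1), d j ^ 2) ≤ 2 := by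
        refine (Real.exp_le_exp.2 g7).trans ?_
        have h7 : Real.exp (1 / 2) ^ 2 ≤ 2 ^ 2 := by
          rw [← Real.exp_nat_mul]
          have : ((2 : ℕ) : ℝ) * (1 / 2) = 1 := by norm_num
          rw [this]
          linarith [Real.exp_one_lt_d9]
        exact le_of_sq_le_sq h7 (by norm_num)
      calc d (n + 1) ≤ d 0 * Real.exp (2 * C1 * ∑ j ∈ Finset.range (n + 1 + 1), d j ^ 2) := g3
        _ ≤ om * 2 := mul_le_mul h0 g8 (Real.exp_pos _).le hom.le
        _ = 2 * om := by ring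
    · exact ih' i hge

theorem pleaf_small_unif (K ε : ℝ) (hK : 0 ≤ K) (hε : 0 < ε) :
    ∃ q1 : ℕ, ∀ (P : ℝ → Fin 3 → ℝ) (U : ℝ → ℝ → ℝ) (r m R1 R2 : ℝ → ℝ),
      LSys 1 P U (fun _ => 0) → (∀ x, Wr P x = 1) → ContDiff ℝ ∞ r → ContDiff ℝ ∞ m →
      (∀ x, deriv (deriv (deriv P)) x = -(r x) • deriv P x - m x • P x) → Bnd K r m →
      (∀ x, HasDerivAt R1 (m x) x) → (∀ x, R2 x = r x - R1 x) →
      ∀ (p q : ℕ) (L : ℝ → ℝ), PQ p q → q1 ≤ q → PLeaf 1 (nxt P 1 U) p q L →
        ∀ x, L (x + (p:ℝ) / q) - L x ≤ ε := by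
  obtain ⟨C, d0, hC, hd0, hd01, htay⟩ := taylor_unif K hK
  set C1 : ℝ := 2 * K + C + 1 with hC1d
  have hC1 : 1 ≤ C1 := by rw [hC1d]; linarith
  have hC10 : 0 < C1 := by linarith
  set d1 : ℝ := min d0 (1 / (8 * C1)) with hd1d
  have hd1 : 0 < d1 := lt_min hd0 (by positivity)
  have hd1a : d1 ≤ d0 := min_le_left _ _
  have hd1b : d1 ≤ 1 / (8 * C1) := min_le_right _ _
  set η : ℝ := min (d1 / 4) (min (1 / (48 * C1)) (ε / 2)) with hηd
  have hη : 0 < η := lt_min (by positivity) (lt_min (by positivity) (by positivity))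
  obtain ⟨q1, hq1⟩ := exists_nat_gt (2 / η)
  refine ⟨q1, ?_⟩
  intro P U r m R1 R2 h hW hr hm hode hB hR1 hR2 p q L hpq hq hL x
  obtain ⟨hp, hq2, -⟩ := hpq
  have hp2 : (p : ℝ) ≤ 2 := by
    rcases hp with rfl | rfl <;> norm_num
  have hp0 : (0:ℝ) < p := by
    rcases hp with rfl | rfl <;> norm_num
  have hq0 : (0:ℝ) < q := by
    have : 0 < q := by omega
    exact_mod_cast this
  set om : ℝ := (p:ℝ) / q with hom
  have hom0 : 0 < om := div_pos hp0 hq0
  have hqom : q * om = p := by rw [hom]; field_simp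
  have homη : om ≤ η := by
    have h1 : 2 / η < (q:ℝ) := by
      have : (q1:ℝ) ≤ q := by exact_mod_cast hq
      linarith
    have h2 : 2 < q * η := by rwa [div_lt_iff₀ hη] at h1
    have h3 : q * om ≤ q * η := by rw [hqom]; linarith
    exact le_of_mul_le_mul_left h3 hq0
  have hom1 : 4 * om ≤ d1 := by
    have : om ≤ d1 / 4 := homη.trans (min_le_left _ _)
    linarith
  have hom2 : 48 * C1 * om ≤ 1 := by
    have : om ≤ 1 / (48 * C1) := homη.trans ((min_le_right _ _).trans (min_le_left _ _))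
    rwa [le_div_iff₀ (by positivity), mul_comm] at this
  have homε : 2 * om ≤ ε := by
    have : om ≤ ε / 2 := homη.trans ((min_le_right _ _).trans (min_le_right _ _))
    linarith
  have hom3 : 4 * om ≤ 1 := by linarith
  -- (1) the expansion
  have hρ : ∀ y d : ℝ, d ≠ 0 → |d| ≤ d0 → |d * L1 P y (y - d) - 2| ≤ C1 * d ^ 2 := by
    intro y d hd hd'
    have h1 := rel_L1 h.curve hW hr.continuous hm.continuous hode hR1 hR2 (a := y - d) hd
      (by linarith)
    rw [sub_add_cancel] at h1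
    have h2 := htay r m R1 R2 hr hm hB.r0 hB.m0 hB.m1 hB.r2 hR1 hR2 (y - d) d _ hd' h1
    have h3 : |deriv r (y - d) / 10 + m (y - d) / 20| ≤ K := by
      have e1 := abs_le.1 (hB.r1 (y - d))
      have e2 := abs_le.1 (hB.m0 (y - d))
      rw [abs_le]
      constructor <;> linarith [e1.1, e1.2, e2.1, e2.2]
    exact sml_rho hK hC.le (by rw [hC1d]; linarith) (hd'.trans hd01.le) (hB.r0 _) h3 h2
  -- (2) the law
  have hlaw : ∀ x, L1 P (L (x + om)) (L (x + om + om)) = -L1 P (L (x + om)) (L x) ∧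
      L (x + om + om) < L (x + om) + 1 := by
    intro x
    obtain ⟨c, hc, e1, e2⟩ := hL.com (x + om)
    rw [mul_one] at e1 e2
    rw [← hom, add_sub_cancel_right] at e1
    rw [← hom] at e2
    have k1 := h.law hc (L x)
    rw [e1, e2] at k1
    have k2 := (h.nxt_spec c (L (x + om))).2.1
    rw [e2] at k2
    exact ⟨by linarith, k2⟩
  set D : ℝ → ℝ := fun x => L (x + om) - L x with hD
  have hDpos : ∀ x, 0 < D x := fun x => sub_pos.2 (hL.mono (by linarith))
  have hDA : ∀ x, D x ≤ d1 → |D x * L1 P (L (x + om)) (L x) - 2| ≤ C1 * D x ^ 2 := by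
    intro x hx
    have h1 := hρ (L (x + om)) (D x) (hDpos x).ne' (by
      rw [abs_of_pos (hDpos x)]
      linarith)
    have h2 : L (x + om) - D x = L x := by simp only [hD]; ring
    rw [h2] at h1
    exact h1
  -- (3) the next step is small
  have hnext : ∀ x, D x ≤ d1 / 2 → D (x + om) ≤ 2 * D x := by
    intro x hx
    by_contra hn
    have hn' : 2 * D x < D (x + om) := not_le.1 hn
    have hs := hDpos x
    obtain ⟨l1, l2⟩ := hlaw x
    have h1 := hDA x (by linarith)
    have h2 := hρ (L (x + om)) (-(2 * D x)) (by linarith : -(2 * D x) < 0).ne (by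
      rw [abs_neg, abs_of_pos (by linarith)]
      linarith)
    have h3 : L (x + om) - -(2 * D x) = L (x + om) + 2 * D x := by ring
    rw [h3] at h2
    have hz : D (x + om) = L (x + om + om) - L (x + om) := rfl
    have h4 : L1 P (L (x + om)) (L (x + om) + 2 * D x) < L1 P (L (x + om)) (L (x + om + om)) :=
      h.curve.strictMono_L1 (L (x + om)) (show L (x + om) + 2 * D x ∈ _ from
        ⟨by linarith, by linarith⟩) (show L (x + om + om) ∈ _ from ⟨by linarith, l2⟩)
        (by linarith)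
    rw [l1] at h4
    have h5 := sml_sq hC1 hs (by linarith)
    have h6 := sml_sq hC1 (z := 2 * D x) (by linarith) (by linarith)
    have h7 : (-(2 * D x)) ^ 2 = (2 * D x) ^ 2 := by ring
    rw [h7] at h2
    have h8 := (abs_le.1 h1).1
    have h9 := (abs_le.1 h2).2
    have h10 := mul_lt_mul_of_pos_left h4 (show 0 < 2 * D x by linarith)
    nlinarith
  -- (4) the ratio
  have hratio : ∀ x, D x ≤ d1 → D (x + om) ≤ d1 →
      D (x + om) ≤ D x * Real.exp (C1 * (D x ^ 2 + D (x + om) ^ 2)) := by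
    intro x hx hy
    obtain ⟨l1, -⟩ := hlaw x
    have h1 := hDA x hx
    have h2 := hρ (L (x + om)) (-(D (x + om))) (by linarith [hDpos (x + om)] : _ < (0:ℝ)).ne (by
      rw [abs_neg, abs_of_pos (hDpos _)]
      linarith)
    have h3 : L (x + om) - -(D (x + om)) = L (x + om + om) := by simp only [hD]; ring
    rw [h3, l1] at h2
    refine sml_ratio hC1 (hDpos x) (hDpos (x + om)) (hx.trans hd1b) h1 ?_
    have h4 : -(D (x + om)) * -L1 P (L (x + om)) (L x) - 2 =
        D (x + om) * L1 P (L (x + om)) (L x) - 2 := by ring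
    have h5 : (-(D (x + om))) ^ 2 = D (x + om) ^ 2 := by ring
    rw [h4, h5] at h2
    exact h2
  -- (5) the chain
  have hper : ∀ x, D (x + q * om) = D x := by
    intro x
    show L (x + q * om + om) - L (x + q * om) = L (x + om) - L x
    have h1 : x + q * om + om = (x + om) + p := by rw [hqom]; ring
    rw [h1, hqom, sml_per hL.per, sml_per hL.per]
    ring
  have hsum : ∀ x, ∑ j ∈ Finset.range q, D (x + j * om) = p := by
    intro x
    have h1 : ∀ j : ℕ, D (x + j * om) =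
        L (x + ((j + 1 : ℕ) : ℝ) * om) - L (x + (j : ℝ) * om) := by
      intro j
      show L (x + j * om + om) - L (x + j * om) = _
      congr 2
      push_cast
      ring
    rw [Finset.sum_congr rfl fun j _ => h1 j,
      Finset.sum_range_sub (fun j : ℕ => L (x + (j : ℝ) * om)) q, hqom, sml_per hL.per]
    push_cast
    ring_nf
  obtain ⟨j0, hj0, hj0'⟩ : ∃ j < q, D (x + j * om) ≤ om := by
    by_contra hn
    push Not at hn
    have h1 : ∑ j ∈ Finset.range q, om < ∑ j ∈ Finset.range q, D (x + j * om) :=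
      Finset.sum_lt_sum_of_nonempty ⟨0, Finset.mem_range.2 (by omega)⟩
        fun j hj => hn j (Finset.mem_range.1 hj)
    rw [hsum, Finset.sum_const, Finset.card_range, nsmul_eq_mul, hqom] at h1
    exact lt_irrefl _ h1
  have hcst : ∀ n : ℕ, x + j0 * om + ((n + 1 : ℕ) : ℝ) * om = x + j0 * om + n * om + om := by
    intro n
    push_cast
    ring
  have hfin := sml_chain (d := fun n : ℕ => D (x + j0 * om + n * om)) hC10.le hom0 hom1 hom2 hom3
    (fun n => hDpos _) (by
      show D (x + j0 * om + ((0:ℕ):ℝ) * om) ≤ om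
      rw [Nat.cast_zero, zero_mul, add_zero]
      exact hj0') (q := q) (by
      rw [hsum]
      exact hp2) (fun n hn => by
      show D (x + j0 * om + ((n + 1 : ℕ) : ℝ) * om) ≤ 2 * D (x + j0 * om + n * om)
      rw [hcst]
      exact hnext _ hn) (fun n hn hn' => by
      have hn'' : D (x + j0 * om + ((n + 1 : ℕ) : ℝ) * om) ≤ d1 := hn'
      show D (x + j0 * om + ((n + 1 : ℕ) : ℝ) * om) ≤ D (x + j0 * om + n * om) *
        Real.exp (C1 * (D (x + j0 * om + n * om) ^ 2 +
          D (x + j0 * om + ((n + 1 : ℕ) : ℝ) * om) ^ 2))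
      rw [hcst] at hn'' ⊢
      exact hratio _ hn hn'') q le_rfl (q - j0) (by omega)
  have hx : x + j0 * om + ((q - j0 : ℕ) : ℝ) * om = x + q * om := by
    rw [Nat.cast_sub hj0.le]
    ring
  have hfin' : D (x + j0 * om + ((q - j0 : ℕ) : ℝ) * om) ≤ 2 * om := hfin
  rw [hx, hper] at hfin'
  exact hfin'.trans homε

end Pool.Agent.MP_ae5b4e_an_RIG
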