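import Mathlib
import Pool.Agent.Lib.MP_ae5b4e_an_RG.DecS

/-!
# MP_ae5b4e_an, project RIG, module GDec: decay of the coefficients with an explicit constant

PROOF. MODEL: `RG/DecS.lean`. `rc R 0` is bounded by `K`; for `k ≠ 0`, three times `rc_deriv` gives
`rc R''' k = (2 π i k) ^ 3 * rc R k`, hence `‖rc R k‖ ≤ K / (2 π |k|) ^ 3 ≤ K / (1 + |k|) ^ 3`, because
`1 + |k| ≤ 2 |k| ≤ 2 π |k|`.  `V 0 0 3 k = (1 + |k|) ^ 3` (`w 0 0 k = exp 0 = 1`).  The series converges
to `R` at every point as in `rc_hasSum` of `DecS.lean` (private there: use `dec_of_contDiff hR pR`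
(it gives `Dec 0 0 A R` for some `A`) and `Dec.hasSum_rc` of `Bda.lean`).
-/

noncomputable section

namespace Pool.Agent.MP_ae5b4e_an_RIG

open Real Set Filter Topology MeasureTheory intervalIntegral
open scoped ContDiff
open Pool.Agent.MP_ae5b4e_an_RG

private lemma GDec_contDiff {R : ℝ → ℝ} (hR : ContDiff ℝ ∞ R) : ContDiff ℝ ∞ (deriv R) :=
  (contDiff_infty_iff_deriv.1 hR).2

private lemma GDec_per {R : ℝ → ℝ} (hp : Function.Periodic R 1) :
    Function.Periodic (deriv R) 1 := by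
  intro x
  have h1 : (fun y => R (y + 1)) = R := funext fun y => hp y
  have h2 := deriv_comp_add_const (f := R) (1 : ℝ) x
  rw [h1] at h2
  exact h2.symm

private lemma GDec_bound {K : ℝ} {R : ℝ → ℝ} (h0 : ∀ x, |R x| ≤ K) (k : ℤ) : ‖rc R k‖ ≤ K := by
  unfold rc fc
  have h1 := intervalIntegral.norm_integral_le_of_norm_le_const (a := (0:ℝ)) (b := (1:ℝ))
    (f := fun x => (R x : ℂ) * e (-k) x) (C := K) (fun x _ => by
      rw [norm_mul, norm_e, mul_one, Complex.norm_real]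
      exact h0 x)
  rw [sub_zero, abs_one, mul_one] at h1
  exact h1

theorem dec_unif {K : ℝ} {R : ℝ → ℝ} (hR : ContDiff ℝ ∞ R) (pR : Function.Periodic R 1)
    (h0 : ∀ x, |R x| ≤ K) (h3 : ∀ x, |deriv (deriv (deriv R)) x| ≤ K) : Dec 0 0 K R := by
  obtain ⟨A, -, hA⟩ := dec_of_contDiff hR pR
  refine ⟨rc R, fun k => ?_, fun x => hA.hasSum_rc le_rfl x⟩
  have hR1 := GDec_contDiff hR
  have hR2 := GDec_contDiff hR1
  have hp1 := GDec_per pR
  have hp2 := GDec_per hp1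
  rw [le_div_iff₀ (V_pos 0 0 3 k)]
  have hV : V 0 0 3 k = (1 + |(k:ℝ)|) ^ 3 := by
    unfold V w
    rw [zero_mul, Real.exp_zero, mul_one]
  rw [hV]
  by_cases hk : k = 0
  · subst hk
    rw [Int.cast_zero, abs_zero, add_zero, one_pow, mul_one]
    exact GDec_bound h0 0
  · have h3' : rc (deriv (deriv (deriv R))) k =
        (2 * π * Complex.I * k) ^ 3 * rc R k := by
      rw [rc_deriv hR2 hp2 k, rc_deriv hR1 hp1 k, rc_deriv hR pR k]
      ring
    have h4 := GDec_bound h3 k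
    rw [h3', norm_mul, norm_pow] at h4
    have h5 : ‖(2 * π * Complex.I * k : ℂ)‖ = 2 * π * |(k:ℝ)| := by
      rw [norm_mul, norm_mul, norm_mul, Complex.norm_I, Complex.norm_real, Complex.norm_intCast,
        Real.norm_eq_abs, abs_of_pos Real.pi_pos, mul_one]
      norm_num
    rw [h5] at h4
    have hk1 : (1:ℝ) ≤ |(k:ℝ)| := by
      have h6 : 1 ≤ |k| := Int.one_le_abs hk
      have : ((1:ℤ):ℝ) ≤ ((|k| : ℤ) : ℝ) := by exact_mod_cast h6
      rwa [Int.cast_one, Int.cast_abs] at this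
    have h7 : 1 + |(k:ℝ)| ≤ 2 * π * |(k:ℝ)| := by
      have := Real.pi_gt_three
      nlinarith
    have h8 : (1 + |(k:ℝ)|) ^ 3 ≤ (2 * π * |(k:ℝ)|) ^ 3 :=
      pow_le_pow_left₀ (by linarith) h7 3
    have h9 := mul_le_mul_of_nonneg_left h8 (norm_nonneg (rc R k))
    linarith [mul_comm ((2 * π * |(k:ℝ)|) ^ 3) ‖rc R k‖]

end Pool.Agent.MP_ae5b4e_an_RIG
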