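import Mathlib
import Pool.Agent.Lib.MP_ae5b4e_an_RIG.GDef
import Pool.Agent.Lib.MP_ae5b4e_an_RIG.GDec

/-!
# MP_ae5b4e_an, project RIG, module GMod: the functions R1, R2 and their coefficients

`prm m` is the primitive of `m` with mean value zero.

PROOF.  `prm m x = (∫ 0..x m) - ∫ 0..1 (∫ 0..y m) dy`: derivative `m` (`contDiff_prim`,
`hopf/Gauge.lean`), periodic because `∫ 0..1 m = 0` (`prim_per`), mean zero; a continuous function
with mean zero vanishes somewhere on `[0, 1]`, and `|deriv| ≤ K`, hence `|prm m| ≤ K` on `[0, 1]`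
and everywhere.  `rc m k = 2 π i k * rc (prm m) k` is `rc_deriv` (`RG/DecS.lean`).
(`rc_sub`: linearity of the integral, as `rc_add` in `RG/Fin.lean`.)
`dec`: `dec_unif` with `deriv (deriv (deriv (prm m))) = deriv (deriv m)`, and for `r - prm m` the
bounds `2 K`; `Dec 0 0 K R → Dec 0 0 (2 K) R` by monotonicity.
`transfer`: for `k ≠ 0`, `‖rc m k‖ = 2 π |k| ‖rc R1 k‖` and `|k| e^{-ρ|k|} ≤ (2 / ρ) e^{-ρ|k|/2}`.
-/

noncomputable section

namespace Pool.Agent.MP_ae5b4e_an_RIG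

open Real Set Filter Topology MeasureTheory intervalIntegral
open scoped ContDiff
open Pool.Agent.MP_ae5b4e_an_hopf
open Pool.Agent.MP_ae5b4e_an_RG

/-- the primitive with mean value zero -/
def prm (m : ℝ → ℝ) (x : ℝ) : ℝ := (∫ t in (0:ℝ)..x, m t) - ∫ y in (0:ℝ)..1, ∫ t in (0:ℝ)..y, m t

variable {K : ℝ} {r m : ℝ → ℝ}

lemma hasDerivAt_prm (hm : ContDiff ℝ ∞ m) (x : ℝ) : HasDerivAt (prm m) (m x) x := by
  exact ((contDiff_prim hm).2 x).sub_const _

lemma contDiff_prm (hm : ContDiff ℝ ∞ m) : ContDiff ℝ ∞ (prm m) := by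
  exact (contDiff_prim hm).1.sub contDiff_const

lemma periodic_prm (hm : ContDiff ℝ ∞ m) (pm : Function.Periodic m 1)
    (h0 : ∫ x in (0:ℝ)..1, m x = 0) : Function.Periodic (prm m) 1 := by
  intro x
  have h1 := prim_per hm.continuous pm x
  unfold prm
  rw [h1, h0, add_zero]

private lemma GMod_deriv (hm : ContDiff ℝ ∞ m) : deriv (prm m) = m :=
  funext fun x => (hasDerivAt_prm hm x).deriv

private lemma GMod_mean (hm : ContDiff ℝ ∞ m) : ∫ x in (0:ℝ)..1, prm m x = 0 := by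
  unfold prm
  rw [intervalIntegral.integral_sub ((contDiff_prim hm).1.continuous.intervalIntegrable _ _)
    (continuous_const.intervalIntegrable _ _), intervalIntegral.integral_const]
  simp

private lemma GMod_zero (hm : ContDiff ℝ ∞ m) : ∃ z ∈ Icc (0:ℝ) 1, prm m z = 0 := by
  have hp : ContDiff ℝ ∞ (prm m) := contDiff_prm hm
  have h1 := contDiff_prim hp
  have h2 : (∫ x in (0:ℝ)..0, prm m x) = ∫ x in (0:ℝ)..1, prm m x := by
    rw [GMod_mean hm, intervalIntegral.integral_same]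
  obtain ⟨z, hz, hz0⟩ := exists_hasDerivAt_eq_zero (f := fun t => ∫ x in (0:ℝ)..t, prm m x)
    (f' := prm m) one_pos h1.1.continuous.continuousOn h2 (fun x _ => h1.2 x)
  exact ⟨z, ⟨hz.1.le, hz.2.le⟩, hz0⟩

private lemma GMod_mono {A A' : ℝ} {R : ℝ → ℝ} (h : Dec 0 0 A R) (hA : A ≤ A') :
    Dec 0 0 A' R := by
  obtain ⟨a, h1, h2⟩ := h
  refine ⟨a, fun k => (h1 k).trans ?_, h2⟩
  have : 0 < V 0 0 3 k := by
    unfold V w
    positivity
  exact div_le_div_of_nonneg_right hA this.le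

lemma abs_prm_le (hm : ContDiff ℝ ∞ m) (pm : Function.Periodic m 1)
    (h0 : ∫ x in (0:ℝ)..1, m x = 0) (hK : ∀ x, |m x| ≤ K) (x : ℝ) : |prm m x| ≤ K := by
  have hK0 : 0 ≤ K := (abs_nonneg _).trans (hK 0)
  obtain ⟨z, hz, hz0⟩ := GMod_zero hm
  have key : ∀ y ∈ Icc (0:ℝ) 1, |prm m y| ≤ K := by
    intro y hy
    have h1 := Convex.norm_image_sub_le_of_norm_hasDerivWithin_le (f := prm m) (f' := m) (C := K)
      (s := univ) (x := z) (y := y) (fun x _ => (hasDerivAt_prm hm x).hasDerivWithinAt)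
      (fun x _ => hK x) convex_univ (mem_univ _) (mem_univ _)
    rw [hz0, sub_zero, Real.norm_eq_abs, Real.norm_eq_abs] at h1
    have h2 : |y - z| ≤ 1 := by
      rw [abs_le]
      constructor <;> linarith [hy.1, hy.2, hz.1, hz.2]
    exact h1.trans ((mul_le_mul_of_nonneg_left h2 hK0).trans (mul_one K).le)
  have h2 : prm m x = prm m (Int.fract x) := by
    have h3 := (periodic_prm hm pm h0).sub_int_mul_eq (x := x) ⌊x⌋
    rw [mul_one] at h3
    exact h3.symm
  rw [h2]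
  exact key _ ⟨Int.fract_nonneg x, (Int.fract_lt_one x).le⟩

lemma rc_prm_zero (hm : ContDiff ℝ ∞ m) : rc (prm m) 0 = 0 := by
  have h1 := GMod_mean hm
  unfold rc fc
  have h2 : ∀ x : ℝ, ((prm m x : ℝ) : ℂ) * e (-0) x = ((prm m x : ℝ) : ℂ) := by
    intro x
    have h3 : e (-0) x = 1 := by
      unfold e
      simp
    rw [h3, mul_one]
  simp only [h2]
  rw [intervalIntegral.integral_ofReal, h1, Complex.ofReal_zero]

lemma rc_eq_prm (hm : ContDiff ℝ ∞ m) (pm : Function.Periodic m 1)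
    (h0 : ∫ x in (0:ℝ)..1, m x = 0) (k : ℤ) :
    rc m k = 2 * π * Complex.I * k * rc (prm m) k := by
  have h1 := rc_deriv (contDiff_prm hm) (periodic_prm hm pm h0) k
  rwa [GMod_deriv hm] at h1

lemma rc_sub_prm (hr : ContDiff ℝ ∞ r) (hm : ContDiff ℝ ∞ m) (k : ℤ) :
    rc (fun x => r x - prm m x) k = rc r k - rc (prm m) k := by
  have he : Continuous (e (-k)) := continuous_e (-k)
  have hr' : Continuous r := hr.continuous
  have hm' : Continuous (prm m) := (contDiff_prm hm).continuous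
  unfold rc fc
  rw [← intervalIntegral.integral_sub]
  · refine intervalIntegral.integral_congr fun x _ => ?_
    show ((r x - prm m x : ℝ) : ℂ) * e (-k) x =
      ((r x : ℝ) : ℂ) * e (-k) x - ((prm m x : ℝ) : ℂ) * e (-k) x
    push_cast
    ring
  · exact ((Complex.continuous_ofReal.comp hr').mul he).intervalIntegrable _ _
  · exact ((Complex.continuous_ofReal.comp hm').mul he).intervalIntegrable _ _

lemma dec (hr : ContDiff ℝ ∞ r) (hm : ContDiff ℝ ∞ m) (pr : Function.Periodic r 1)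
    (pm : Function.Periodic m 1) (h0 : ∫ x in (0:ℝ)..1, m x = 0) (hK : Bnd K r m) :
    Dec 0 0 (2 * K) (prm m) ∧ Dec 0 0 (2 * K) (fun x => r x - prm m x) := by
  have hK0 : 0 ≤ K := (abs_nonneg _).trans (hK.r0 0)
  have e1 := GMod_deriv hm
  have hb := abs_prm_le hm pm h0 hK.m0
  refine ⟨?_, ?_⟩
  · refine GMod_mono (A := K) (dec_unif (contDiff_prm hm) (periodic_prm hm pm h0) hb ?_)
      (by linarith)
    intro x
    rw [e1]
    exact hK.m2 x
  · refine dec_unif (hr.sub (contDiff_prm hm)) ?_ ?_ ?_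
    · intro x
      show r (x + 1) - prm m (x + 1) = r x - prm m x
      rw [pr x, periodic_prm hm pm h0 x]
    · intro x
      have h1 := abs_sub (r x) (prm m x)
      have h2 := hK.r0 x
      have h3 := hb x
      linarith
    · intro x
      have dr : ∀ y, DifferentiableAt ℝ r y := fun y => (contDiff_infty_iff_deriv.1 hr).1 y
      have hr1 := (contDiff_infty_iff_deriv.1 hr).2
      have dr1 : ∀ y, DifferentiableAt ℝ (deriv r) y := fun y => (contDiff_infty_iff_deriv.1 hr1).1 y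
      have hr2 := (contDiff_infty_iff_deriv.1 hr1).2
      have dr2 : ∀ y, DifferentiableAt ℝ (deriv (deriv r)) y :=
        fun y => (contDiff_infty_iff_deriv.1 hr2).1 y
      have dm : ∀ y, DifferentiableAt ℝ m y := fun y => (contDiff_infty_iff_deriv.1 hm).1 y
      have hm1 := (contDiff_infty_iff_deriv.1 hm).2
      have dm1 : ∀ y, DifferentiableAt ℝ (deriv m) y :=
        fun y => (contDiff_infty_iff_deriv.1 hm1).1 y
      have k1 : deriv (fun x => r x - prm m x) = fun x => deriv r x - m x := by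
        funext y
        have h1 := deriv_fun_sub (dr y) (hasDerivAt_prm hm y).differentiableAt
        rw [h1, (hasDerivAt_prm hm y).deriv]
      have k2 : deriv (fun x => deriv r x - m x) = fun x => deriv (deriv r) x - deriv m x := by
        funext y
        exact deriv_fun_sub (dr1 y) (dm y)
      have k3 : deriv (fun x => deriv (deriv r) x - deriv m x) =
          fun x => deriv (deriv (deriv r)) x - deriv (deriv m) x := by
        funext y
        exact deriv_fun_sub (dr2 y) (dm1 y)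
      rw [k1, k2, k3]
      have h1 := abs_sub (deriv (deriv (deriv r)) x) (deriv (deriv m) x)
      have h2 := hK.r3 x
      have h3 := hK.m2 x
      linarith

/-- from the coefficients of `R1`, `R2` to those of `r`, `m` -/
lemma transfer {ρ : ℝ} (hρ : 0 < ρ) :
    ∃ C' : ℝ, 0 < C' ∧ ∀ (D : ℝ) (r m r' m' : ℝ → ℝ), 0 ≤ D → ContDiff ℝ ∞ r → ContDiff ℝ ∞ m →
      ContDiff ℝ ∞ r' → ContDiff ℝ ∞ m' → Function.Periodic m 1 → Function.Periodic m' 1 →
      (∫ x in (0:ℝ)..1, m x = 0) → (∫ x in (0:ℝ)..1, m' x = 0) → ∀ k : ℤ,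
      ‖rc (prm m) k - rc (prm m') k‖ ≤ D * Real.exp (-(ρ * |(k:ℝ)|)) →
      ‖rc (fun x => r x - prm m x) k - rc (fun x => r' x - prm m' x) k‖ ≤
        D * Real.exp (-(ρ * |(k:ℝ)|)) →
      ‖rc r k - rc r' k‖ ≤ C' * D * Real.exp (-(ρ / 2 * |(k:ℝ)|)) ∧
      ‖rc m k - rc m' k‖ ≤ C' * D * Real.exp (-(ρ / 2 * |(k:ℝ)|)) := by
  refine ⟨2 + 4 * π / ρ, by positivity, ?_⟩
  intro D r m r' m' hD hr hm hr' hm' pm pm' h0 h0' k h1 h2
  rw [rc_sub_prm hr hm, rc_sub_prm hr' hm'] at h2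
  have hπ := Real.pi_pos
  have hk : 0 ≤ |(k:ℝ)| := abs_nonneg _
  have e1 : Real.exp (-(ρ * |(k:ℝ)|)) =
      Real.exp (-(ρ / 2 * |(k:ℝ)|)) * Real.exp (-(ρ / 2 * |(k:ℝ)|)) := by
    rw [← Real.exp_add]
    congr 1
    ring
  have e2 : 0 < Real.exp (-(ρ / 2 * |(k:ℝ)|)) := Real.exp_pos _
  have e3 : Real.exp (-(ρ / 2 * |(k:ℝ)|)) ≤ 1 := by
    rw [Real.exp_le_one_iff, neg_nonpos]
    positivity
  have e4 : |(k:ℝ)| * Real.exp (-(ρ / 2 * |(k:ℝ)|)) ≤ 2 / ρ := by
    have h3 : ρ / 2 * |(k:ℝ)| ≤ Real.exp (ρ / 2 * |(k:ℝ)|) := by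
      have := Real.add_one_le_exp (ρ / 2 * |(k:ℝ)|)
      linarith
    rw [Real.exp_neg, ← div_eq_mul_inv, div_le_div_iff₀ (Real.exp_pos _) hρ]
    linarith
  have e5 : Real.exp (-(ρ * |(k:ℝ)|)) ≤ Real.exp (-(ρ / 2 * |(k:ℝ)|)) := by
    rw [e1]
    exact mul_le_of_le_one_right e2.le e3
  have e6 : |(k:ℝ)| * Real.exp (-(ρ * |(k:ℝ)|)) ≤ 2 / ρ * Real.exp (-(ρ / 2 * |(k:ℝ)|)) := by
    rw [e1, ← mul_assoc]
    exact mul_le_mul_of_nonneg_right e4 e2.le
  generalize Real.exp (-(ρ * |(k:ℝ)|)) = E at *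
  generalize Real.exp (-(ρ / 2 * |(k:ℝ)|)) = E' at *
  refine ⟨?_, ?_⟩
  · have h3 : rc r k - rc r' k = (rc r k - rc (prm m) k - (rc r' k - rc (prm m') k)) +
        (rc (prm m) k - rc (prm m') k) := by ring
    rw [h3]
    refine (norm_add_le _ _).trans ((add_le_add h2 h1).trans ?_)
    have h4 : D * E ≤ D * E' := mul_le_mul_of_nonneg_left e5 hD
    have h5 : 0 ≤ 4 * π / ρ * D * E' := by positivity
    have h6 : (2 + 4 * π / ρ) * D * E' = D * E' + D * E' + 4 * π / ρ * D * E' := by ring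
    rw [h6]
    linarith
  · rw [rc_eq_prm hm pm h0, rc_eq_prm hm' pm' h0', ← mul_sub, norm_mul, norm_mul, norm_mul,
      norm_mul, Complex.norm_I, mul_one, Complex.norm_ofNat, Complex.norm_real, Real.norm_eq_abs,
      abs_of_pos hπ]
    have h3 : ‖(k : ℂ)‖ = |(k:ℝ)| := by
      rw [Complex.norm_intCast]
    rw [h3]
    have h4 : 2 * π * |(k:ℝ)| * ‖rc (prm m) k - rc (prm m') k‖ ≤ 2 * π * |(k:ℝ)| * (D * E) :=
      mul_le_mul_of_nonneg_left h1 (by positivity)
    refine h4.trans ?_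
    have h5 : 2 * π * |(k:ℝ)| * (D * E) = 2 * π * D * (|(k:ℝ)| * E) := by ring
    have h6 : 2 * π * D * (|(k:ℝ)| * E) ≤ 2 * π * D * (2 / ρ * E') :=
      mul_le_mul_of_nonneg_left e6 (by positivity)
    have h7 : 2 * π * D * (2 / ρ * E') = 4 * π / ρ * D * E' := by ring
    have h8 : (2 + 4 * π / ρ) * D * E' = 2 * (D * E') + 4 * π / ρ * D * E' := by ring
    have h9 : 0 ≤ D * E' := by positivity
    rw [h8]
    linarith

/-- a smooth periodic function is determined by its coefficients -/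
lemma eq_of_rc {f g : ℝ → ℝ} (hf : ContDiff ℝ ∞ f) (hg : ContDiff ℝ ∞ g)
    (pf : Function.Periodic f 1) (pg : Function.Periodic g 1) (h : ∀ k, rc f k = rc g k) :
    f = g := by
  funext x
  obtain ⟨A, -, hA⟩ := dec_of_contDiff hf pf
  obtain ⟨B, -, hB⟩ := dec_of_contDiff hg pg
  have h1 := hA.hasSum_rc (le_refl 0) x
  have h2 := hB.hasSum_rc (le_refl 0) x
  simp only [h] at h1
  exact_mod_cast h1.unique h2

end Pool.Agent.MP_ae5b4e_an_RIG
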