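import Mathlib
import Pool.Agent.Lib.MP_ae5b4e_an_RIG.GGau
import Pool.Agent.Lib.MP_ae5b4e_an_RG.Ode

/-!
# MP_ae5b4e_an, project RIG, module GEx: every solution has a normal form

PROOF.  `h.lsys.normalize` (`RG/Norm.lean`) gives `σ`, `lam`; `exists_ode` (`RG/Ode.lean`) gives `r`,
`m`.  `fun x => lam x • γ.Γ (σ x)` is `lift γ σ lam` by definition.
-/

noncomputable section

namespace Pool.Agent.MP_ae5b4e_an_RIG

open Real Set Filter Topology MeasureTheory intervalIntegral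
open scoped ContDiff
open Pool.Agent.MP_ae5b4e_an_hopf
open Pool.Agent.MP_ae5b4e_an_RG

theorem Sol.exists_normal {γ : ConvexCurve} {U : ℝ → ℝ → ℝ} {κ : ℝ → ℝ} (h : Sol γ U κ) :
    ∃ σ lam r m : ℝ → ℝ, Normal γ κ σ lam r m := by
  obtain ⟨σ, lam, U', h1, h2, h3, h4, h5, h6, h7, h8⟩ := h.lsys.normalize
  obtain ⟨r, m, h9, h10, h11, h12, h13⟩ := exists_ode h7.curve h8
  exact ⟨σ, lam, r, m, ⟨h1, h2, h3, h4, h5, h6, h8, h9, h10, h11, h12, h13⟩⟩

end Pool.Agent.MP_ae5b4e_an_RIG
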