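import Mathlib
import Pool.Agent.Lib.MP_ae5b4e_an_RG.Six

/-!
# MP_ae5b4e_an, project RIG: pairs of functions in the norm of the sum space

Text: `/team-store/POR_RIG.md`, section 1.
-/

noncomputable section

namespace Pool.Agent.MP_ae5b4e_an_RIG

open Real Set Filter Topology MeasureTheory intervalIntegral
open Pool.Agent.MP_ae5b4e_an_RG

/-- `f` and `f'` have norm at most `M` and their difference has norm at most `ε M`. -/
def DB (ρ : ℝ) (N : ℕ) (η ε M : ℝ) (f f' : ℝ → ℝ) : Prop :=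
  NB ρ N η M (fun x => (f x : ℂ)) ∧ NB ρ N η M (fun x => (f' x : ℂ)) ∧
    NB ρ N η (ε * M) (fun x => ((f x - f' x : ℝ) : ℂ))

lemma NB.closed {ρ : ℝ} {N : ℕ} {η M : ℝ} {f : ℝ → ℂ}
    (h : ∀ δ > 0, NB ρ N η (M + δ) f) : NB ρ N η M f := by
  refine ⟨(h 1 one_pos).1, (h 1 one_pos).2.1, fun δ hδ => ?_⟩
  obtain ⟨g, m, ε, hm, hε, hg, hfg, hle⟩ := (h (δ / 2) (by positivity)).2.2 (δ / 2) (by positivity)
  exact ⟨g, m, ε, hm, hε, hg, hfg, by linarith⟩

lemma NB.mono_eta {ρ : ℝ} {N : ℕ} {η η' M : ℝ} {f : ℝ → ℂ} (hη : 0 < η) (hle : η ≤ η')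
    (h : NB ρ N η M f) : NB ρ N η' M f := by
  refine ⟨h.1, h.2.1, fun δ hδ => ?_⟩
  obtain ⟨g, m, ε, hm, hε, hg, hfg, hle'⟩ := h.2.2 δ hδ
  refine ⟨g, m, ε, hm, hε, hg, hfg, ?_⟩
  have h1 : ε / η' ≤ ε / η := div_le_div_of_nonneg_left hε hη hle
  linarith

lemma Dec.mono {ρ : ℝ} {N : ℕ} {A A' : ℝ} {R : ℝ → ℝ} (h : Dec ρ N A R) (hA : A ≤ A') :
    Dec ρ N A' R := by
  obtain ⟨a, h1, h2⟩ := h
  exact ⟨a, fun k => (h1 k).trans (div_le_div_of_nonneg_right hA (V_pos ρ N 3 k).le), h2⟩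

lemma Dec.const_mul {ρ : ℝ} {N : ℕ} {A : ℝ} {R : ℝ → ℝ} (h : Dec ρ N A R) (c : ℝ) :
    Dec ρ N (|c| * A) (fun x => c * R x) := by
  obtain ⟨a, h1, h2⟩ := h
  refine ⟨fun k => (c : ℂ) * a k, fun k => ?_, fun x => ?_⟩
  · rw [norm_mul, Complex.norm_real, Real.norm_eq_abs, mul_div_assoc]
    exact mul_le_mul_of_nonneg_left (h1 k) (abs_nonneg c)
  · have h3 := (h2 x).mul_left (c : ℂ)
    have e1 : (fun k : ℤ => (c : ℂ) * (a k * e k x)) = fun k => (c : ℂ) * a k * e k x := by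
      funext k
      ring
    rw [e1] at h3
    rwa [Complex.ofReal_mul]

namespace DB

variable {ρ : ℝ} {N : ℕ} {η ε M M' : ℝ} {f f' g g' : ℝ → ℝ}

lemma congr (h : DB ρ N η ε M f f') (h1 : ∀ x, f x = g x) (h2 : ∀ x, f' x = g' x) :
    DB ρ N η ε M g g' := by
  have e1 : g = f := funext fun x => (h1 x).symm
  have e2 : g' = f' := funext fun x => (h2 x).symm
  rw [e1, e2]
  exact h

lemma nonneg (hη : 0 < η) (h : DB ρ N η ε M f f') : 0 ≤ M := h.1.nonneg hη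

lemma mono (hε : 0 ≤ ε) (h : DB ρ N η ε M f f') (hM : M ≤ M') : DB ρ N η ε M' f f' :=
  ⟨h.1.mono hM, h.2.1.mono hM, h.2.2.mono (mul_le_mul_of_nonneg_left hM hε)⟩

lemma cont_left (h : DB ρ N η ε M f f') : Continuous f := by
  have := Complex.continuous_re.comp h.1.continuous
  simpa [Function.comp_def] using this

lemma cont_right (h : DB ρ N η ε M f f') : Continuous f' := by
  have := Complex.continuous_re.comp h.2.1.continuous
  simpa [Function.comp_def] using this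

lemma add (h : DB ρ N η ε M f f') (h' : DB ρ N η ε M' g g') :
    DB ρ N η ε (M + M') (fun x => f x + g x) (fun x => f' x + g' x) := by
  refine ⟨?_, ?_, ?_⟩
  · simpa only [Complex.ofReal_add] using h.1.add h'.1
  · simpa only [Complex.ofReal_add] using h.2.1.add h'.2.1
  · have h1 := h.2.2.add h'.2.2
    rw [← mul_add] at h1
    have e1 : (fun x => ((f x - f' x : ℝ) : ℂ) + ((g x - g' x : ℝ) : ℂ)) =
        fun x => ((f x + g x - (f' x + g' x) : ℝ) : ℂ) := by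
      funext x
      push_cast
      ring
    rwa [e1] at h1

lemma cmul (hη : 0 < η) (c : ℝ) (h : DB ρ N η ε M f f') :
    DB ρ N η ε (|c| * M) (fun x => c * f x) (fun x => c * f' x) := by
  refine ⟨?_, ?_, ?_⟩
  · have h1 := h.1.const_mul hη (c : ℂ)
    rw [Complex.norm_real, Real.norm_eq_abs] at h1
    simpa only [Complex.ofReal_mul] using h1
  · have h1 := h.2.1.const_mul hη (c : ℂ)
    rw [Complex.norm_real, Real.norm_eq_abs] at h1
    simpa only [Complex.ofReal_mul] using h1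
  · have h1 := h.2.2.const_mul hη (c : ℂ)
    rw [Complex.norm_real, Real.norm_eq_abs] at h1
    have e1 : (fun x => (c : ℂ) * ((f x - f' x : ℝ) : ℂ)) =
        fun x => ((c * f x - c * f' x : ℝ) : ℂ) := by
      funext x
      push_cast
      ring
    rw [e1] at h1
    refine h1.mono (le_of_eq ?_)
    ring

lemma neg (hη : 0 < η) (h : DB ρ N η ε M f f') :
    DB ρ N η ε M (fun x => -f x) (fun x => -f' x) := by
  have h1 := h.cmul hη (-1)
  rw [abs_neg, abs_one, one_mul] at h1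
  exact h1.congr (fun x => by ring) (fun x => by ring)

lemma sub (hη : 0 < η) (h : DB ρ N η ε M f f') (h' : DB ρ N η ε M' g g') :
    DB ρ N η ε (M + M') (fun x => f x - g x) (fun x => f' x - g' x) :=
  (h.add (h'.neg hη)).congr (fun x => by ring) (fun x => by ring)

lemma mul (hρ : 0 ≤ ρ) (hη : 0 < η) (hη1 : η ≤ 1) (h : DB ρ N η ε M f f')
    (h' : DB ρ N η ε M' g g') :
    DB ρ N η ε (2 * (M * M')) (fun x => f x * g x) (fun x => f' x * g' x) := by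
  have hM := h.nonneg hη
  have hM' := h'.nonneg hη
  have hMM : 0 ≤ M * M' := mul_nonneg hM hM'
  refine ⟨?_, ?_, ?_⟩
  · have h1 := h.1.mul hρ hη hη1 h'.1
    refine NB.mono ?_ (by linarith : M * M' ≤ 2 * (M * M'))
    simpa only [Complex.ofReal_mul] using h1
  · have h1 := h.2.1.mul hρ hη hη1 h'.2.1
    refine NB.mono ?_ (by linarith : M * M' ≤ 2 * (M * M'))
    simpa only [Complex.ofReal_mul] using h1
  · have h1 := (h.2.2.mul hρ hη hη1 h'.1).add (h.2.1.mul hρ hη hη1 h'.2.2)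
    have e1 : (fun x => ((f x - f' x : ℝ) : ℂ) * (g x : ℂ) + (f' x : ℂ) * ((g x - g' x : ℝ) : ℂ)) =
        fun x => ((f x * g x - f' x * g' x : ℝ) : ℂ) := by
      funext x
      push_cast
      ring
    rw [e1] at h1
    refine h1.mono (le_of_eq ?_)
    ring

lemma const (ρ : ℝ) (N : ℕ) (hη : 0 < η) (hε : 0 ≤ ε) {c : ℝ} (hc : 0 ≤ c) :
    DB ρ N η ε (12 * c) (fun _ => c) (fun _ => c) := by
  have h1 := NB.const ρ N hη (c : ℂ)
  rw [Complex.norm_real, Real.norm_eq_abs, abs_of_nonneg hc] at h1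
  refine ⟨h1, h1, ?_⟩
  have h2 := NB.const ρ N hη 0
  rw [norm_zero, mul_zero] at h2
  simp only [sub_self, Complex.ofReal_zero]
  exact h2.mono (by positivity)

lemma shift (h : DB ρ N η ε M f f') (y : ℝ) :
    DB ρ N η ε M (fun x => f (x + y)) (fun x => f' (x + y)) :=
  ⟨h.1.shift y, h.2.1.shift y, h.2.2.shift y⟩

/-- a pair with the same function twice -/
lemma diag (hη : 0 < η) (hε : 0 ≤ ε) (h : NB ρ N η M (fun x => (f x : ℂ))) : DB ρ N η ε M f f := by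
  refine ⟨h, h, ?_⟩
  have h2 := NB.const ρ N hη 0
  rw [norm_zero, mul_zero] at h2
  simp only [sub_self, Complex.ofReal_zero]
  exact h2.mono (mul_nonneg hε (h.nonneg hη))

lemma integral (hη : 0 < η) {F F' : ℝ → ℝ → ℝ} {σ : ℝ} (hσ : σ ∈ Icc (0:ℝ) 1) (hε : 0 ≤ ε)
    (hc : Continuous fun z : ℝ × ℝ => F z.1 z.2) (hc' : Continuous fun z : ℝ × ℝ => F' z.1 z.2)
    (h : ∀ s ∈ Icc (0:ℝ) 1, DB ρ N η ε M (F s) (F' s)) :
    DB ρ N η ε M (fun x => ∫ s in (0:ℝ)..σ, F s x) (fun x => ∫ s in (0:ℝ)..σ, F' s x) := by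
  have hM : 0 ≤ M := (h 0 (by norm_num)).nonneg hη
  have key : ∀ {G : ℝ → ℝ → ℝ} {P : ℝ}, 0 ≤ P → (Continuous fun z : ℝ × ℝ => G z.1 z.2) →
      (∀ s ∈ Icc (0:ℝ) 1, NB ρ N η P (fun x => (G s x : ℂ))) →
      NB ρ N η P (fun x => ((∫ s in (0:ℝ)..σ, G s x : ℝ) : ℂ)) := by
    intro G P hP hG hG1
    have h1 := NB.integral (ρ := ρ) (N := N) (M := P) hη (F := fun s x => (G s x : ℂ)) hσ.1
      (Complex.continuous_ofReal.comp hG) fun s hs => hG1 s ⟨hs.1, hs.2.trans hσ.2⟩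
    have h2 : (σ - 0) * P ≤ P := by
      rw [sub_zero]
      exact mul_le_of_le_one_left hP hσ.2
    have h3 := h1.mono h2
    simpa only [intervalIntegral.integral_ofReal] using h3
  refine ⟨key hM hc fun s hs => (h s hs).1, key hM hc' fun s hs => (h s hs).2.1, ?_⟩
  have h1 := key (G := fun s x => F s x - F' s x) (mul_nonneg hε hM) (hc.sub hc')
    fun s hs => (h s hs).2.2
  have e1 : (fun x => ((∫ s in (0:ℝ)..σ, (F s x - F' s x) : ℝ) : ℂ)) =
      fun x => (((∫ s in (0:ℝ)..σ, F s x) - ∫ s in (0:ℝ)..σ, F' s x : ℝ) : ℂ) := by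
    funext x
    congr 1
    refine intervalIntegral.integral_sub ?_ ?_
    · exact (hc.comp (Continuous.prodMk_left x)).intervalIntegrable _ _
    · exact (hc'.comp (Continuous.prodMk_left x)).intervalIntegrable _ _
  rwa [e1] at h1

lemma limit (hη : 0 < η) {F F' : ℕ → ℝ → ℝ} (hF : ∀ n, DB ρ N η ε M (F n) (F' n))
    (hlim : ∀ δ > 0, ∃ n, ∀ x, |f x - F n x| ≤ δ ∧ |f' x - F' n x| ≤ δ) :
    DB ρ N η ε M f f' := by
  refine ⟨?_, ?_, ?_⟩
  · refine NB.limit hη (F := fun n x => (F n x : ℂ)) (fun n => (hF n).1) fun δ hδ => ?_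
    obtain ⟨n, hn⟩ := hlim δ hδ
    refine ⟨n, fun x => ?_⟩
    rw [← Complex.ofReal_sub, Complex.norm_real, Real.norm_eq_abs]
    exact (hn x).1
  · refine NB.limit hη (F := fun n x => (F' n x : ℂ)) (fun n => (hF n).2.1) fun δ hδ => ?_
    obtain ⟨n, hn⟩ := hlim δ hδ
    refine ⟨n, fun x => ?_⟩
    rw [← Complex.ofReal_sub, Complex.norm_real, Real.norm_eq_abs]
    exact (hn x).2
  · refine NB.limit hη (F := fun n x => ((F n x - F' n x : ℝ) : ℂ)) (fun n => (hF n).2.2)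
      fun δ hδ => ?_
    obtain ⟨n, hn⟩ := hlim (δ / 2) (by positivity)
    refine ⟨n, fun x => ?_⟩
    rw [← Complex.ofReal_sub, Complex.norm_real, Real.norm_eq_abs]
    have e1 : f x - f' x - (F n x - F' n x) = (f x - F n x) - (f' x - F' n x) := by ring
    rw [e1]
    refine (abs_sub _ _).trans ?_
    linarith [(hn x).1, (hn x).2]

lemma sup (hρ : 0 ≤ ρ) (hη : 0 < η) (hη1 : η ≤ 1) (h : DB ρ N η ε M f f') (x : ℝ) :
    |f x| ≤ M ∧ |f' x| ≤ M := by
  have h1 := h.1.sup hρ hη hη1 x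
  have h2 := h.2.1.sup hρ hη hη1 x
  rw [Complex.norm_real, Real.norm_eq_abs] at h1 h2
  exact ⟨h1, h2⟩

lemma inv (hρ : 0 ≤ ρ) (hη : 0 < η) (hη1 : η ≤ 1) (hε : 0 ≤ ε) (h : DB ρ N η ε M f f')
    (hM : M ≤ 1 / 2) :
    (∀ x, 1 + f x ≠ 0) ∧ (∀ x, 1 + f' x ≠ 0) ∧
      DB ρ N η ε (4 * M) (fun x => 1 / (1 + f x) - 1) (fun x => 1 / (1 + f' x) - 1) := by
  have hM0 := h.nonneg hη
  obtain ⟨n1, i1⟩ := NB.inv hρ hη hη1 h.1 hM
  obtain ⟨n2, i2⟩ := NB.inv hρ hη hη1 h.2.1 hM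
  have m1 : ∀ x, 1 + f x ≠ 0 := fun x hx => n1 x (by exact_mod_cast hx)
  have m2 : ∀ x, 1 + f' x ≠ 0 := fun x hx => n2 x (by exact_mod_cast hx)
  have e1 : (fun x => 1 / (1 + (f x : ℂ)) - 1) = fun x => ((1 / (1 + f x) - 1 : ℝ) : ℂ) := by
    funext x
    push_cast
    rfl
  have e2 : (fun x => 1 / (1 + (f' x : ℂ)) - 1) = fun x => ((1 / (1 + f' x) - 1 : ℝ) : ℂ) := by
    funext x
    push_cast
    rfl
  rw [e1] at i1
  rw [e2] at i2
  refine ⟨m1, m2, i1.mono (by linarith), i2.mono (by linarith), ?_⟩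
  -- the difference is `-(f - f')(1 + I)(1 + I')`
  have j1 := h.2.2
  have j2 := j1.mul hρ hη hη1 i1
  have j3 := j1.mul hρ hη hη1 i2
  have j4 := j2.mul hρ hη hη1 i2
  have j5 := (((j1.add j2).add (j3.add j4)).const_mul hη (-1))
  have e3 : (fun x => (-1 : ℂ) * (((f x - f' x : ℝ) : ℂ) +
      ((f x - f' x : ℝ) : ℂ) * ((1 / (1 + f x) - 1 : ℝ) : ℂ) +
      (((f x - f' x : ℝ) : ℂ) * ((1 / (1 + f' x) - 1 : ℝ) : ℂ) +
      ((f x - f' x : ℝ) : ℂ) * ((1 / (1 + f x) - 1 : ℝ) : ℂ) *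
        ((1 / (1 + f' x) - 1 : ℝ) : ℂ)))) =
      fun x => (((1 / (1 + f x) - 1) - (1 / (1 + f' x) - 1) : ℝ) : ℂ) := by
    funext x
    have a1 := m1 x
    have a2 := m2 x
    have a3 : ((1 / (1 + f x) - 1) - (1 / (1 + f' x) - 1) : ℝ) =
        -1 * ((f x - f' x) + (f x - f' x) * (1 / (1 + f x) - 1) +
          ((f x - f' x) * (1 / (1 + f' x) - 1) +
            (f x - f' x) * (1 / (1 + f x) - 1) * (1 / (1 + f' x) - 1))) := by
      field_simp
      ring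
    rw [a3]
    push_cast
    ring
  rw [e3] at j5
  refine j5.mono ?_
  rw [norm_neg, norm_one, one_mul]
  have hεM : 0 ≤ ε * M := mul_nonneg hε hM0
  have k1 : ε * M * (2 * M) ≤ ε * M * 1 := mul_le_mul_of_nonneg_left (by linarith) hεM
  have k2 : ε * M * (2 * M) * (2 * M) ≤ ε * M * 1 * 1 :=
    mul_le_mul k1 (by linarith) (by linarith) (by linarith)
  linarith

end DB

end Pool.Agent.MP_ae5b4e_an_RIG
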