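import Mathlib
import Pool.Agent.Lib.MP_ae5b4e_an_RIG.CDB

/-!
# MP_ae5b4e_an, project RIG: composition for pairs

Text: `/team-store/POR_RIG.md`, section 2.
-/

noncomputable section

namespace Pool.Agent.MP_ae5b4e_an_RIG

open Real Set Filter Topology MeasureTheory intervalIntegral
open Pool.Agent.MP_ae5b4e_an_RG

private lemma CCmp_hs_congr {f g : ℤ → ℂ} {a : ℂ} (hf : HasSum f a) (h : ∀ n, f n = g n) :
    HasSum g a := (funext h : f = g) ▸ hf

/-- the low part of the composition -/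
private lemma CCmp_bd_sum {ρ : ℝ} {N : ℕ} (hρ : 0 ≤ ρ) {S : Finset ℤ} {a : ℤ → ℂ}
    {g : ℤ → ℝ → ℂ} {m : ℤ → ℝ} {B : ℝ} (hB : 0 ≤ B)
    (hg : ∀ k ∈ S, Bd ρ N (m k) (g k))
    (hm : ∀ k ∈ S, ‖a k‖ * m k ≤ B / V ρ N 2 k) (y : ℝ) :
    Bd ρ N (12 * B) (fun x => ∑ k ∈ S, a k * e k (x + y) * g k x) := by
  classical
  choose! b hb hs using hg
  refine ⟨fun n => ∑ k ∈ S, a k * e k y * b k (n - k), fun n => ?_, fun x => ?_⟩
  · have hVn := V_pos ρ N 2 n
    calc ‖∑ k ∈ S, a k * e k y * b k (n - k)‖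
        ≤ ∑ k ∈ S, ‖a k * e k y * b k (n - k)‖ := norm_sum_le _ _
      _ ≤ ∑ k ∈ S, B * (1 / V ρ N 2 k * (1 / V ρ N 2 (n - k))) := by
          refine Finset.sum_le_sum fun k hk => ?_
          have h1 := hb k hk (n - k)
          have h2 := hm k hk
          have hVk := V_pos ρ N 2 k
          have hVnk := V_pos ρ N 2 (n - k)
          rw [norm_mul, norm_mul, norm_e, mul_one]
          calc ‖a k‖ * ‖b k (n - k)‖ ≤ ‖a k‖ * (m k / V ρ N 2 (n - k)) :=
                mul_le_mul_of_nonneg_left h1 (norm_nonneg _)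
            _ = (‖a k‖ * m k) * (1 / V ρ N 2 (n - k)) := by ring
            _ ≤ (B / V ρ N 2 k) * (1 / V ρ N 2 (n - k)) :=
                mul_le_mul_of_nonneg_right h2 (by positivity)
            _ = B * (1 / V ρ N 2 k * (1 / V ρ N 2 (n - k))) := by ring
      _ = B * ∑ k ∈ S, (1 / V ρ N 2 k * (1 / V ρ N 2 (n - k))) := by rw [Finset.mul_sum]
      _ ≤ B * ∑' k : ℤ, 1 / V ρ N 2 k * (1 / V ρ N 2 (n - k)) := by
          refine mul_le_mul_of_nonneg_left ?_ hB
          refine (summable_conv (N := N) hρ n).sum_le_tsum S fun k _ => ?_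
          have hVk := V_pos ρ N 2 k
          have hVnk := V_pos ρ N 2 (n - k)
          positivity
      _ ≤ B * (12 / V ρ N 2 n) := mul_le_mul_of_nonneg_left (conv_le hρ n) hB
      _ = 12 * B / V ρ N 2 n := by ring
  · have key : ∀ k ∈ S, HasSum (fun n : ℤ => a k * e k y * b k (n - k) * e n x)
        (a k * e k (x + y) * g k x) := by
      intro k hk
      have h1 : HasSum (fun n : ℤ => b k (n - k) * e (n - k) x) (g k x) := by
        have := (Equiv.subRight k).hasSum_iff (f := fun l : ℤ => b k l * e l x) (a := g k x)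
        exact this.2 (hs k hk x)
      have h2 := h1.mul_left (a k * e k (x + y))
      refine CCmp_hs_congr h2 fun n => ?_
      have h3 : e n x = e (n - k) x * e k x := by
        rw [← e_add]; congr 1; ring
      rw [h3, e_shift]
      ring
    have h4 := hasSum_sum key
    refine CCmp_hs_congr h4 fun n => ?_
    rw [Finset.sum_mul]

private lemma CCmp_fk {ρ : ℝ} {N : ℕ} (hρ : 0 ≤ ρ) {η : ℝ} (hη : 0 < η) (hη1 : η ≤ 1)
    {M K : ℝ} {v : ℝ → ℝ} (h : NB ρ N η M (fun x => (v x : ℂ))) {k : ℤ}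
    (hk : 2 * π * |(k:ℝ)| * M ≤ K) :
    NB ρ N η (2 * π * |(k:ℝ)| * M * Real.exp K) (fun x => e k (v x) - 1) := by
  have hM := h.nonneg hη
  have h1 := h.const_mul hη (2 * π * Complex.I * k)
  have hn : ‖(2 * π * Complex.I * k : ℂ)‖ = 2 * π * |(k:ℝ)| := by
    rw [norm_mul, norm_mul, norm_mul, Complex.norm_I, Complex.norm_real, Real.norm_eq_abs,
      abs_of_pos Real.pi_pos]
    simp
  rw [hn] at h1
  have h2 := NB.exp hρ hη hη1 h1
  have h3 : (fun x => e k (v x) - 1) =
      (fun x => Complex.exp (2 * π * Complex.I * k * (v x : ℂ)) - 1) := by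
    funext x
    rfl
  rw [h3]
  refine h2.mono ?_
  have hpi := Real.pi_pos
  have h4 : Real.exp (2 * π * |(k:ℝ)| * M) ≤ Real.exp K := Real.exp_le_exp.2 hk
  have h5 : 0 ≤ 2 * π * |(k:ℝ)| * M := by positivity
  exact mul_le_mul_of_nonneg_left h4 h5

private lemma CCmp_nat_tail (m : ℕ) (hm : 1 ≤ m) (n : ℕ) :
    ∑ i ∈ Finset.range n, (if m ≤ i then 1 / (1 + (i:ℝ)) ^ 2 else 0) ≤
      1 / (m:ℝ) - (if m ≤ n then 1 / (n:ℝ) else 1 / (m:ℝ)) := by
  have hm' : (0:ℝ) < m := by exact_mod_cast hm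
  induction n with
  | zero =>
    rw [Finset.sum_range_zero, if_neg (by omega)]
    linarith
  | succ n ih =>
    rw [Finset.sum_range_succ]
    by_cases h : m ≤ n
    · rw [if_pos h] at ih
      rw [if_pos h, if_pos (by omega)]
      have hn : (0:ℝ) < n := lt_of_lt_of_le hm' (by exact_mod_cast h)
      have key : 1 / (1 + (n:ℝ)) ^ 2 ≤ 1 / (n:ℝ) - 1 / ((n + 1 : ℕ) : ℝ) := by
        push_cast
        rw [div_sub_div _ _ (by positivity) (by positivity),
          div_le_div_iff₀ (by positivity) (by positivity)]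
        nlinarith [pow_pos hn 2, pow_pos hn 3]
      linarith
    · rw [if_neg h] at ih
      rw [if_neg h]
      by_cases h2 : m ≤ n + 1
      · have : m = n + 1 := by omega
        rw [if_pos h2, ← this]
        linarith
      · rw [if_neg h2]
        linarith

private lemma CCmp_tail_S (q : ℕ) (hq : 1 ≤ q) :
    ∃ s : ℝ, HasSum (fun k : ℤ => if (q:ℝ) ^ 2 < |(k:ℝ)| then 1 / (1 + |(k:ℝ)|) ^ 2 else 0) s ∧
      s ≤ 2 / (q:ℝ) ^ 2 := by
  obtain ⟨m, hm⟩ : ∃ m : ℕ, m = q ^ 2 + 1 := ⟨_, rfl⟩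
  have hm1 : 1 ≤ m := by omega
  have hq' : (0:ℝ) < q := by exact_mod_cast hq
  obtain ⟨t, ht⟩ : ∃ t : ℕ → ℝ, t = fun i => (if m ≤ i then 1 / (1 + (i:ℝ)) ^ 2 else 0) :=
    ⟨_, rfl⟩
  have ht0 : ∀ i, 0 ≤ t i := by
    intro i
    rw [ht]
    simp only
    split_ifs
    · positivity
    · simp
  have hb : ∀ n, ∑ i ∈ Finset.range n, t i ≤ 1 / (m:ℝ) := by
    intro n
    rw [ht]
    refine (CCmp_nat_tail m hm1 n).trans ?_
    split_ifs
    · have : (0:ℝ) ≤ 1 / (n:ℝ) := by positivity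
      linarith
    · have : (0:ℝ) ≤ 1 / (m:ℝ) := by positivity
      linarith
  have hsum : Summable t := summable_of_sum_range_le ht0 hb
  have hle : ∑' i, t i ≤ 1 / (m:ℝ) := Real.tsum_le_of_sum_range_le ht0 hb
  have hiff : ∀ n : ℕ, ((q:ℝ) ^ 2 < (n:ℝ)) ↔ m ≤ n := by
    intro n
    rw [hm]
    constructor
    · intro h
      have : q ^ 2 < n := by exact_mod_cast h
      omega
    · intro h
      have : q ^ 2 < n := by omega
      exact_mod_cast this
  have e1 : ∀ n : ℕ, (if (q:ℝ) ^ 2 < |(((n : ℕ) : ℤ) : ℝ)| then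
      1 / (1 + |(((n : ℕ) : ℤ) : ℝ)|) ^ 2 else 0) = t n := by
    intro n
    have : |(((n : ℕ) : ℤ) : ℝ)| = (n:ℝ) := by
      push_cast
      exact abs_of_nonneg (Nat.cast_nonneg _)
    rw [this, ht]
    simp only [hiff]
  have e2 : ∀ n : ℕ, (if (q:ℝ) ^ 2 < |((-((n : ℤ) + 1) : ℤ) : ℝ)| then
      1 / (1 + |((-((n : ℤ) + 1) : ℤ) : ℝ)|) ^ 2 else 0) = t (n + 1) := by
    intro n
    have : |((-((n : ℤ) + 1) : ℤ) : ℝ)| = (((n + 1 : ℕ)) : ℝ) := by
      push_cast
      rw [abs_of_nonpos (by have : (0:ℝ) ≤ n := Nat.cast_nonneg _; linarith)]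
      ring
    rw [this, ht]
    simp only [hiff]
  have h1 : HasSum (fun n : ℕ => t n) (∑' i, t i) := hsum.hasSum
  have h2 : HasSum (fun n : ℕ => t (n + 1)) (∑' i, t i) := by
    have h3 := (hasSum_nat_add_iff' 1).2 h1
    have h4 : t 0 = 0 := by
      rw [ht]
      simp only
      rw [if_neg (by omega)]
    simpa [h4] using h3
  refine ⟨(∑' i, t i) + (∑' i, t i), HasSum.of_nat_of_neg_add_one ?_ ?_, ?_⟩
  · simp only [e1]
    exact h1
  · simp only [e2]
    exact h2
  · have h5 : 1 / (m:ℝ) ≤ 1 / (q:ℝ) ^ 2 := by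
      apply one_div_le_one_div_of_le (by positivity)
      rw [hm]
      push_cast
      linarith
    have h6 : 2 / (q:ℝ) ^ 2 = 1 / (q:ℝ) ^ 2 + 1 / (q:ℝ) ^ 2 := by ring
    rw [h6]
    linarith

/-- the tail of the series of `1 / V_2` beyond `q ^ 2` -/
private lemma CCmp_tail_V2 {ρ : ℝ} {N : ℕ} (hρ : 0 ≤ ρ) {q : ℕ} (hq : 1 ≤ q) :
    Summable (fun k : ℤ => if (q:ℝ) ^ 2 < |(k:ℝ)| then 1 / V ρ N 2 k else 0) ∧
    ∑' k : ℤ, (if (q:ℝ) ^ 2 < |(k:ℝ)| then 1 / V ρ N 2 k else 0) ≤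
      2 / (q:ℝ) ^ 2 * Real.exp (-(ρ * min ((q:ℝ) ^ 2) (N:ℝ))) := by
  obtain ⟨s, hs, hs2⟩ := CCmp_tail_S q hq
  obtain ⟨E, hE⟩ : ∃ E, E = Real.exp (-(ρ * min ((q:ℝ) ^ 2) (N:ℝ))) := ⟨_, rfl⟩
  have pE : 0 < E := by rw [hE]; exact Real.exp_pos _
  have hpt : ∀ k : ℤ, (if (q:ℝ) ^ 2 < |(k:ℝ)| then 1 / V ρ N 2 k else 0) ≤
      E * (if (q:ℝ) ^ 2 < |(k:ℝ)| then 1 / (1 + |(k:ℝ)|) ^ 2 else 0) := by
    intro k
    by_cases h : (q:ℝ) ^ 2 < |(k:ℝ)|
    · rw [if_pos h, if_pos h]
      have hw : E * w ρ N k ≥ 1 := by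
        rw [hE]
        unfold w
        rw [← Real.exp_add]
        apply Real.one_le_exp
        have : min ((q:ℝ) ^ 2) (N:ℝ) ≤ min |(k:ℝ)| (N:ℝ) := min_le_min_right _ h.le
        nlinarith [mul_le_mul_of_nonneg_left this hρ]
      have pw := w_pos ρ N k
      unfold V
      rw [div_le_iff₀ (by positivity)]
      have e : E * (1 / (1 + |(k:ℝ)|) ^ 2) * ((1 + |(k:ℝ)|) ^ 2 * w ρ N k) = E * w ρ N k := by
        field_simp
      rw [e]
      exact hw
    · rw [if_neg h, if_neg h, mul_zero]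
  have hnn : ∀ k : ℤ, 0 ≤ (if (q:ℝ) ^ 2 < |(k:ℝ)| then 1 / V ρ N 2 k else 0) := by
    intro k
    split_ifs
    · have := V_pos ρ N 2 k
      positivity
    · exact le_rfl
  have hsum := Summable.of_nonneg_of_le hnn hpt (hs.summable.mul_left E)
  refine ⟨hsum, (hsum.tsum_le_tsum hpt (hs.summable.mul_left E)).trans ?_⟩
  rw [tsum_mul_left, hs.tsum_eq, ← hE, mul_comm]
  exact mul_le_mul_of_nonneg_right hs2 pE.le

/-- A series of functions with coefficients decaying like `1 / V_3`. -/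
private lemma CCmp_series {ρ : ℝ} {N p q : ℕ} {η : ℝ} (hρ : 0 ≤ ρ) (hpq : PQ p q)
    (hη0 : etam ρ N p q ≤ η) {A c : ℝ} (hA : 0 < A) (hc0 : 0 ≤ c) {a : ℤ → ℂ}
    (ha : ∀ k, ‖a k‖ ≤ A / V ρ N 3 k) {f : ℤ → ℝ → ℂ} {F : ℝ → ℂ} {y : ℝ} (hF : Continuous F)
    (hFp : Function.Periodic F 1) (hs : ∀ x, HasSum (fun k => a k * e k (x + y) * f k x) (F x))
    (hf : ∀ k : ℤ, |(k:ℝ)| ≤ (q:ℝ) ^ 2 → NB ρ N η (c * (1 + |(k:ℝ)|)) (f k))
    (hf' : ∀ k : ℤ, (q:ℝ) ^ 2 < |(k:ℝ)| → ∀ x, ‖f k x‖ ≤ c * (1 + |(k:ℝ)|)) :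
    NB ρ N η (17 * A * c) F := by
  classical
  obtain ⟨hp, hq2, hcop⟩ := hpq
  have hq0 : (0:ℝ) < q := by
    have : 0 < q := by omega
    exact_mod_cast this
  have hp1 : (1:ℝ) ≤ p := by
    rcases hp with rfl | rfl <;> norm_num
  have hp2 : (p:ℝ) ≤ 2 := by
    rcases hp with rfl | rfl <;> norm_num
  set ω : ℝ := (p:ℝ) / q with hω
  have hω0 : 0 < ω := by positivity
  have hE : 0 < Real.exp (-(ρ * min ((q:ℝ) ^ 2) (N:ℝ))) := Real.exp_pos _
  have hetam : etam ρ N p q = ω ^ 2 * Real.exp (-(ρ * min ((q:ℝ) ^ 2) (N:ℝ))) := rfl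
  have hη : 0 < η := lt_of_lt_of_le (by rw [hetam]; positivity) hη0
  refine ⟨hF, hFp, ?_⟩
  intro δ hδ
  set δ' : ℝ := δ / (15 * A) with hδ'
  have hδ'0 : 0 < δ' := by positivity
  set S : Finset ℤ := Finset.Icc (-(q:ℤ) ^ 2) ((q:ℤ) ^ 2) with hS
  have hmemS : ∀ k : ℤ, k ∈ S ↔ |(k:ℝ)| ≤ (q:ℝ) ^ 2 := by
    intro k
    rw [hS, Finset.mem_Icc, abs_le]
    constructor
    · rintro ⟨h1, h2⟩
      exact ⟨by exact_mod_cast h1, by exact_mod_cast h2⟩
    · rintro ⟨h1, h2⟩
      exact ⟨by exact_mod_cast h1, by exact_mod_cast h2⟩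
  have hfk : ∀ k ∈ S, NB ρ N η (c * (1 + |(k:ℝ)|)) (f k) := fun k hk => hf k ((hmemS k).1 hk)
  have hdec : ∀ k ∈ S, ∃ (g : ℝ → ℂ) (m ε : ℝ), 0 ≤ m ∧ 0 ≤ ε ∧ Bd ρ N m g ∧
      (∀ x, ‖f k x - g x‖ ≤ ε) ∧ 12 * m + ε / η ≤ c * (1 + |(k:ℝ)|) + δ' :=
    fun k hk => (hfk k hk).2.2 δ' hδ'0
  choose! g m ε hm0 hε0 hBd hge hle using hdec
  have hle' : ∀ k ∈ S, 12 * m k + ε k / η ≤ (c + δ') * (1 + |(k:ℝ)|) := by
    intro k hk
    have h1 := hle k hk
    have h2 : δ' ≤ δ' * (1 + |(k:ℝ)|) := by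
      have := abs_nonneg (k:ℝ)
      nlinarith
    linarith
  have hV3 : ∀ k : ℤ, V ρ N 3 k = (1 + |(k:ℝ)|) * V ρ N 2 k := fun k => V_succ k
  have hBdG : Bd ρ N (12 * (A * (c + δ') / 12))
      (fun x => ∑ k ∈ S, a k * e k (x + y) * g k x) := by
    refine CCmp_bd_sum hρ (by positivity) hBd ?_ y
    intro k hk
    have hVk := V_pos ρ N 2 k
    have h0 : 0 < 1 + |(k:ℝ)| := by positivity
    have h1 : m k ≤ (c + δ') * (1 + |(k:ℝ)|) / 12 := by
      have h2 := hle' k hk
      have h3 : 0 ≤ ε k / η := div_nonneg (hε0 k hk) hη.le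
      linarith
    calc ‖a k‖ * m k ≤ (A / V ρ N 3 k) * ((c + δ') * (1 + |(k:ℝ)|) / 12) := by
          refine mul_le_mul (ha k) h1 (hm0 k hk) ?_
          rw [hV3]; positivity
      _ = A * (c + δ') / 12 / V ρ N 2 k := by
          rw [hV3]; field_simp
  refine ⟨fun x => ∑ k ∈ S, a k * e k (x + y) * g k x, 12 * (A * (c + δ') / 12),
    3 * A * η * (c + δ') + A * c * (2 / (q:ℝ) ^ 2 * Real.exp (-(ρ * min ((q:ℝ) ^ 2) (N:ℝ)))),
    by positivity, by positivity, hBdG, ?_, ?_⟩
  · intro x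
    have hsub : HasSum (fun k : ℤ => if k ∈ S then (0:ℂ) else a k * e k (x + y) * f k x)
        (F x - ∑ k ∈ S, a k * e k (x + y) * f k x) := by
      have h1 : HasSum (fun k : ℤ => if k ∈ S then a k * e k (x + y) * f k x else 0)
          (∑ k ∈ S, a k * e k (x + y) * f k x) := by
        have : HasSum (fun k : ℤ => if k ∈ S then a k * e k (x + y) * f k x else 0)
            (∑ k ∈ S, if k ∈ S then a k * e k (x + y) * f k x else 0) :=
          hasSum_sum_of_ne_finset_zero (fun k hk => by simp [hk])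
        convert this using 1
        exact Finset.sum_congr rfl fun k hk => by simp [hk]
      have h2 := (hs x).sub h1
      refine CCmp_hs_congr h2 fun k => ?_
      by_cases hk : k ∈ S <;> simp [hk]
    obtain ⟨htS, htl⟩ := CCmp_tail_V2 (N := N) hρ (q := q) (by omega)
    have hhigh : ‖F x - ∑ k ∈ S, a k * e k (x + y) * f k x‖ ≤
        A * c * (2 / (q:ℝ) ^ 2 * Real.exp (-(ρ * min ((q:ℝ) ^ 2) (N:ℝ)))) := by
      rw [← hsub.tsum_eq]
      have hbd : ∀ k : ℤ, ‖(if k ∈ S then (0:ℂ) else a k * e k (x + y) * f k x)‖ ≤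
          A * c * (if (q:ℝ) ^ 2 < |(k:ℝ)| then 1 / V ρ N 2 k else 0) := by
        intro k
        by_cases hk : k ∈ S
        · simp only [hk, if_true, norm_zero]
          have := (V_pos ρ N 2 k)
          split_ifs <;> positivity
        · have hk' : (q:ℝ) ^ 2 < |(k:ℝ)| := by
            rw [hmemS] at hk; exact not_le.1 hk
          simp only [hk, if_false, hk', if_true]
          rw [norm_mul, norm_mul, norm_e, mul_one]
          have hVk := V_pos ρ N 2 k
          have h0 : 0 < 1 + |(k:ℝ)| := by positivity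
          calc ‖a k‖ * ‖f k x‖ ≤ (A / V ρ N 3 k) * (c * (1 + |(k:ℝ)|)) := by
                refine mul_le_mul (ha k) (hf' k hk' x) (norm_nonneg _) ?_
                have := (V_pos ρ N 3 k)
                positivity
            _ = A * c * (1 / V ρ N 2 k) := by
                rw [hV3]; field_simp
      calc ‖∑' k : ℤ, (if k ∈ S then (0:ℂ) else a k * e k (x + y) * f k x)‖
          ≤ ∑' k : ℤ, A * c * (if (q:ℝ) ^ 2 < |(k:ℝ)| then 1 / V ρ N 2 k else 0) :=
            tsum_of_norm_bounded (htS.mul_left (A * c)).hasSum hbd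
        _ = A * c * ∑' k : ℤ, (if (q:ℝ) ^ 2 < |(k:ℝ)| then 1 / V ρ N 2 k else 0) :=
            tsum_mul_left
        _ ≤ _ := mul_le_mul_of_nonneg_left htl (by positivity)
    have hlow : ‖∑ k ∈ S, a k * e k (x + y) * f k x -
        ∑ k ∈ S, a k * e k (x + y) * g k x‖ ≤ 3 * A * η * (c + δ') := by
      rw [← Finset.sum_sub_distrib]
      calc ‖∑ k ∈ S, (a k * e k (x + y) * f k x - a k * e k (x + y) * g k x)‖
          ≤ ∑ k ∈ S, ‖a k * e k (x + y) * f k x - a k * e k (x + y) * g k x‖ :=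
            norm_sum_le _ _
        _ ≤ ∑ k ∈ S, A * η * (c + δ') * (1 / V ρ N 2 k) := by
            refine Finset.sum_le_sum fun k hk => ?_
            have hVk := V_pos ρ N 2 k
            have h0 : 0 < 1 + |(k:ℝ)| := by positivity
            rw [← mul_sub, norm_mul, norm_mul, norm_e, mul_one]
            have h1 : ε k ≤ η * ((c + δ') * (1 + |(k:ℝ)|)) := by
              have h2 := hle' k hk
              have h3 := hm0 k hk
              have h4 : ε k / η ≤ (c + δ') * (1 + |(k:ℝ)|) := by linarith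
              rw [div_le_iff₀ hη] at h4
              linarith
            calc ‖a k‖ * ‖f k x - g k x‖
                ≤ (A / V ρ N 3 k) * (η * ((c + δ') * (1 + |(k:ℝ)|))) := by
                  refine mul_le_mul (ha k) ((hge k hk x).trans h1) (norm_nonneg _) ?_
                  rw [hV3]; positivity
              _ = A * η * (c + δ') * (1 / V ρ N 2 k) := by
                  rw [hV3]; field_simp
        _ = A * η * (c + δ') * ∑ k ∈ S, 1 / V ρ N 2 k := by rw [Finset.mul_sum]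
        _ ≤ A * η * (c + δ') * 3 := by
            refine mul_le_mul_of_nonneg_left ?_ (by positivity)
            refine le_trans ((summable_V2 (N := N) hρ).sum_le_tsum S fun k _ => ?_)
              (tsum_V2 (N := N) hρ)
            have hVk := V_pos ρ N 2 k
            positivity
        _ = 3 * A * η * (c + δ') := by ring
    calc ‖F x - ∑ k ∈ S, a k * e k (x + y) * g k x‖
        = ‖(∑ k ∈ S, a k * e k (x + y) * f k x -
            ∑ k ∈ S, a k * e k (x + y) * g k x) +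
            (F x - ∑ k ∈ S, a k * e k (x + y) * f k x)‖ := by
          congr 1; ring
      _ ≤ _ := (norm_add_le _ _).trans (add_le_add hlow hhigh)
  · -- the final estimate
    have hq4 : 1 / (q:ℝ) ^ 2 ≤ ω ^ 2 := by
      have h1 : 1 / (q:ℝ) ^ 2 = (1 / (q:ℝ)) ^ 2 := by ring
      have h2 : 1 / (q:ℝ) ≤ ω := by
        rw [hω]; gcongr
      calc 1 / (q:ℝ) ^ 2 = (1 / (q:ℝ)) ^ 2 := h1
        _ ≤ ω ^ 2 := by gcongr
    have h1 : 2 / (q:ℝ) ^ 2 * Real.exp (-(ρ * min ((q:ℝ) ^ 2) (N:ℝ))) ≤ 2 * η := by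
      calc 2 / (q:ℝ) ^ 2 * Real.exp (-(ρ * min ((q:ℝ) ^ 2) (N:ℝ)))
          = 2 * (1 / (q:ℝ) ^ 2 * Real.exp (-(ρ * min ((q:ℝ) ^ 2) (N:ℝ)))) := by ring
        _ ≤ 2 * (ω ^ 2 * Real.exp (-(ρ * min ((q:ℝ) ^ 2) (N:ℝ)))) := by
            refine mul_le_mul_of_nonneg_left ?_ (by norm_num)
            exact mul_le_mul_of_nonneg_right hq4 hE.le
        _ = 2 * etam ρ N p q := by rw [hetam]
        _ ≤ 2 * η := by gcongr
    have h2 : (3 * A * η * (c + δ') + A * c * (2 / (q:ℝ) ^ 2 *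
        Real.exp (-(ρ * min ((q:ℝ) ^ 2) (N:ℝ))))) / η ≤ 3 * A * (c + δ') + 2 * A * c := by
      rw [div_le_iff₀ hη]
      have : A * c * (2 / (q:ℝ) ^ 2 * Real.exp (-(ρ * min ((q:ℝ) ^ 2) (N:ℝ)))) ≤
          A * c * (2 * η) := mul_le_mul_of_nonneg_left h1 (by positivity)
      nlinarith
    have h3 : 15 * A * δ' = δ := by rw [hδ']; field_simp
    calc 12 * (12 * (A * (c + δ') / 12)) + (3 * A * η * (c + δ') + A * c * (2 / (q:ℝ) ^ 2 *
        Real.exp (-(ρ * min ((q:ℝ) ^ 2) (N:ℝ))))) / η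
        ≤ 12 * (12 * (A * (c + δ') / 12)) + (3 * A * (c + δ') + 2 * A * c) := by linarith
      _ = 17 * A * c + 15 * A * δ' := by ring
      _ = 17 * A * c + δ := by rw [h3]
      _ ≤ 17 * A * c + δ := le_rfl

/-- The composition estimate for pairs. -/
theorem comp_db (A A1 : ℝ) (hA : 0 < A) (hA1 : 0 < A1) :
    ∃ C2 : ℝ, 0 < C2 ∧ ∀ (ρ : ℝ) (N p q : ℕ) (η ε : ℝ) (R R' v v' : ℝ → ℝ) (y : ℝ), 0 ≤ ρ →
      PQ p q → etam ρ N p q ≤ η → η ≤ 1 → 0 < ε → Dec ρ N A R → Dec ρ N A R' →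
      Dec ρ N (ε * A) (fun x => R x - R' x) →
      DB ρ N η ε (A1 * ((p:ℝ) / q) ^ 2) v v' →
      DB ρ N η ε (C2 * ((p:ℝ) / q) ^ 2) (fun x => R (x + y + v x) - R (x + y))
        (fun x => R' (x + y + v' x) - R' (x + y)) := by
  have hpi := Real.pi_pos
  obtain ⟨Ca, hCa, ha⟩ := comp_bound 1 A1 one_pos hA1
  obtain ⟨Cb, hCb, hb⟩ := comp_bound A A1 hA hA1
  obtain ⟨E1, hE1⟩ : ∃ E1, E1 = 12 + 8 * π * A1 * Real.exp (8 * π * A1) := ⟨_, rfl⟩
  have hE1' : 1 ≤ E1 := by
    have : 0 < 8 * π * A1 * Real.exp (8 * π * A1) := by positivity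
    rw [hE1]
    linarith
  have hE0 : 0 < E1 := by linarith
  obtain ⟨c0, hc0⟩ : ∃ c0, c0 = 2 * π * A1 * Real.exp (16 * π * A1) * E1 := ⟨_, rfl⟩
  have hc0' : 0 < c0 := by
    rw [hc0]
    positivity
  have hc1 : 2 * π * A1 ≤ c0 := by
    have h1 : (1:ℝ) ≤ Real.exp (16 * π * A1) := Real.one_le_exp (by positivity)
    have h2 : (1:ℝ) * 1 ≤ Real.exp (16 * π * A1) * E1 := mul_le_mul h1 hE1' zero_le_one
      (by positivity)
    calc 2 * π * A1 = 2 * π * A1 * (1 * 1) := by ring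
      _ ≤ 2 * π * A1 * (Real.exp (16 * π * A1) * E1) := mul_le_mul_of_nonneg_left h2 (by positivity)
      _ = c0 := by
        rw [hc0]
        ring
  refine ⟨A * Ca + Cb + 17 * A * c0, by positivity, ?_⟩
  intro ρ N p q η ε R R' v v' y hρ hpq hη0 hη1 hε hR hR' hS hv
  obtain ⟨hv1, hv2, hv3⟩ := hv
  have hpq' := hpq
  obtain ⟨hp, hq2, -⟩ := hpq
  have hq0 : (0:ℝ) < q := by
    have : 0 < q := by omega
    exact_mod_cast this
  have hp1 : (1:ℝ) ≤ p := by
    rcases hp with rfl | rfl <;> norm_num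
  have hp2 : (p:ℝ) ≤ 2 := by
    rcases hp with rfl | rfl <;> norm_num
  obtain ⟨ω, hω⟩ : ∃ ω, ω = (p:ℝ) / q := ⟨_, rfl⟩
  rw [← hω] at hv1 hv2 hv3 ⊢
  have hω0 : 0 < ω := by
    rw [hω]
    positivity
  have hqω : (q:ℝ) * ω = p := by
    rw [hω]
    field_simp
  have hη : 0 < η := lt_of_lt_of_le (by
    have : 0 < Real.exp (-(ρ * min ((q:ℝ) ^ 2) (N:ℝ))) := Real.exp_pos _
    unfold etam
    positivity) hη0
  have hRc' : Continuous R' := hR'.continuous hρ
  have hRp' : Function.Periodic R' 1 := hR'.periodic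
  have hvc : Continuous v := by
    have := Complex.continuous_re.comp hv1.continuous
    simpa [Function.comp_def] using this
  have hvp : Function.Periodic v 1 := fun x => Complex.ofReal_injective (hv1.periodic x)
  have hvc' : Continuous v' := by
    have := Complex.continuous_re.comp hv2.continuous
    simpa [Function.comp_def] using this
  have hvp' : Function.Periodic v' 1 := fun x => Complex.ofReal_injective (hv2.periodic x)
  have hCle : Cb ≤ A * Ca + Cb + 17 * A * c0 := by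
    have h1 : 0 < A * Ca := by positivity
    have h2 : 0 < 17 * A * c0 := by positivity
    linarith
  have hω2 : 0 < ω ^ 2 := by positivity
  have hbv : NB ρ N η (Cb * ω ^ 2) (fun x => ((R (x + y + v x) - R (x + y) : ℝ) : ℂ)) := by
    have := hb ρ N p q η R v y hρ hpq' hη0 hη1 hR (by rwa [← hω])
    rwa [← hω] at this
  have hbv' : NB ρ N η (Cb * ω ^ 2) (fun x => ((R' (x + y + v' x) - R' (x + y) : ℝ) : ℂ)) := by
    have := hb ρ N p q η R' v' y hρ hpq' hη0 hη1 hR' (by rwa [← hω])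
    rwa [← hω] at this
  refine ⟨hbv.mono (by gcongr), hbv'.mono (by gcongr), ?_⟩
  -- the first part of the difference
  have hT1 : NB ρ N η (ε * (A * Ca * ω ^ 2)) (fun x =>
      (((R (x + y + v x) - R' (x + y + v x)) - (R (x + y) - R' (x + y)) : ℝ) : ℂ)) := by
    have hεA : 0 < ε * A := by positivity
    have h1 := Pool.Agent.MP_ae5b4e_an_RIG.Dec.const_mul hS (1 / (ε * A))
    have h2 : |1 / (ε * A)| * (ε * A) = 1 := by
      rw [abs_of_pos (by positivity)]
      field_simp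
    rw [h2] at h1
    have h3 := ha ρ N p q η _ v y hρ hpq' hη0 hη1 h1 (by rwa [← hω])
    rw [← hω] at h3
    have h4 := h3.const_mul hη ((ε * A : ℝ) : ℂ)
    rw [Complex.norm_real, Real.norm_eq_abs, abs_of_pos hεA] at h4
    have e1 : (fun x => ((ε * A : ℝ) : ℂ) * ((1 / (ε * A) * (R (x + y + v x) - R' (x + y + v x)) -
        1 / (ε * A) * (R (x + y) - R' (x + y)) : ℝ) : ℂ)) = fun x =>
        (((R (x + y + v x) - R' (x + y + v x)) - (R (x + y) - R' (x + y)) : ℝ) : ℂ) := by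
      funext x
      rw [← Complex.ofReal_mul]
      congr 1
      field_simp
    rw [e1] at h4
    exact h4.mono (le_of_eq (by ring))
  -- the second part of the difference
  have hT2 : NB ρ N η (ε * ((Cb + 17 * A * c0) * ω ^ 2)) (fun x =>
      ((R' (x + y + v x) - R' (x + y + v' x) : ℝ) : ℂ)) := by
    rcases le_total 2 ε with h2 | h2
    · have h3 : NB ρ N η (Cb * ω ^ 2) (fun x => ((R' (x + y + v x) - R' (x + y) : ℝ) : ℂ)) := by
        have := hb ρ N p q η R' v y hρ hpq' hη0 hη1 hR' (by rwa [← hω])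
        rwa [← hω] at this
      have h4 := h3.sub hη hbv'
      have e1 : (fun x => ((R' (x + y + v x) - R' (x + y) : ℝ) : ℂ) -
          ((R' (x + y + v' x) - R' (x + y) : ℝ) : ℂ)) =
          fun x => ((R' (x + y + v x) - R' (x + y + v' x) : ℝ) : ℂ) := by
        funext x
        push_cast
        ring
      rw [e1] at h4
      refine h4.mono ?_
      have h5 : 0 < Cb * ω ^ 2 := by positivity
      have h6 : 0 < 17 * A * c0 * ω ^ 2 := by positivity
      calc Cb * ω ^ 2 + Cb * ω ^ 2 = 2 * (Cb * ω ^ 2) := by ring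
        _ ≤ ε * (Cb * ω ^ 2) := mul_le_mul_of_nonneg_right h2 h5.le
        _ ≤ ε * ((Cb + 17 * A * c0) * ω ^ 2) := by
          refine mul_le_mul_of_nonneg_left ?_ hε.le
          linarith
    · obtain ⟨a, hak, has⟩ := hR'
      have hk4 : ∀ k : ℤ, |(k:ℝ)| ≤ (q:ℝ) ^ 2 → |(k:ℝ)| * ω ^ 2 ≤ 4 := by
        intro k hk
        calc |(k:ℝ)| * ω ^ 2 ≤ (q:ℝ) ^ 2 * ω ^ 2 := by gcongr
          _ = ((q:ℝ) * ω) ^ 2 := by ring
          _ = (p:ℝ) ^ 2 := by rw [hqω]
          _ ≤ 4 := by nlinarith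
      have hser := CCmp_series hρ hpq' hη0 hA (c := ε * ω ^ 2 * c0) (by positivity) hak
        (f := fun k x => e k (v x) - e k (v' x))
        (F := fun x => ((R' (x + y + v x) - R' (x + y + v' x) : ℝ) : ℂ)) (y := y)
        (by
          refine Complex.continuous_ofReal.comp ?_
          exact (hRc'.comp ((continuous_id.add continuous_const).add hvc)).sub
            (hRc'.comp ((continuous_id.add continuous_const).add hvc')))
        (by
          intro x
          have h1 : R' (x + 1 + y + v (x + 1)) = R' (x + y + v x) := by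
            rw [hvp x, show x + 1 + y + v x = (x + y + v x) + 1 by ring, hRp']
          have h2 : R' (x + 1 + y + v' (x + 1)) = R' (x + y + v' x) := by
            rw [hvp' x, show x + 1 + y + v' x = (x + y + v' x) + 1 by ring, hRp']
          simp only [h1, h2])
        (by
          intro x
          have h1 := (has (x + y + v x)).sub (has (x + y + v' x))
          rw [Complex.ofReal_sub]
          refine CCmp_hs_congr h1 fun k => ?_
          rw [e_shift k (x + y) (v x), e_shift k (x + y) (v' x)]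
          ring)
        (by
          intro k hk
          have hk' := hk4 k hk
          have h1 := CCmp_fk (K := 16 * π * A1) hρ hη hη1 hv3 (k := k) (by
            calc 2 * π * |(k:ℝ)| * (ε * (A1 * ω ^ 2)) =
                2 * π * A1 * (ε * (|(k:ℝ)| * ω ^ 2)) := by ring
              _ ≤ 2 * π * A1 * (2 * 4) := by gcongr
              _ = 16 * π * A1 := by ring)
          have h2 := CCmp_fk (K := 8 * π * A1) hρ hη hη1 hv2 (k := k) (by
            calc 2 * π * |(k:ℝ)| * (A1 * ω ^ 2) = 2 * π * A1 * (|(k:ℝ)| * ω ^ 2) := by ring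
              _ ≤ 2 * π * A1 * 4 := by gcongr
              _ = 8 * π * A1 := by ring)
          have h3 := (NB.const ρ N hη 1).add h2
          rw [norm_one, mul_one] at h3
          have e3 : (fun x => (1:ℂ) + (e k (v' x) - 1)) = fun x => e k (v' x) := by
            funext x
            ring
          rw [e3] at h3
          have h4 : 12 + 2 * π * |(k:ℝ)| * (A1 * ω ^ 2) * Real.exp (8 * π * A1) ≤ E1 := by
            rw [hE1]
            have : 2 * π * |(k:ℝ)| * (A1 * ω ^ 2) * Real.exp (8 * π * A1) ≤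
                8 * π * A1 * Real.exp (8 * π * A1) := by
              refine mul_le_mul_of_nonneg_right ?_ (Real.exp_pos _).le
              calc 2 * π * |(k:ℝ)| * (A1 * ω ^ 2) = 2 * π * A1 * (|(k:ℝ)| * ω ^ 2) := by ring
                _ ≤ 2 * π * A1 * 4 := by gcongr
                _ = 8 * π * A1 := by ring
            linarith
          have h5 := h1.mul hρ hη hη1 (h3.mono h4)
          have e5 : (fun x => (e k (v x - v' x) - 1) * e k (v' x)) =
              fun x => e k (v x) - e k (v' x) := by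
            funext x
            have : e k (v x) = e k (v x - v' x) * e k (v' x) := by
              rw [← e_shift, sub_add_cancel]
            rw [this]
            ring
          rw [e5] at h5
          refine h5.mono ?_
          calc 2 * π * |(k:ℝ)| * (ε * (A1 * ω ^ 2)) * Real.exp (16 * π * A1) * E1 =
              ε * ω ^ 2 * c0 * |(k:ℝ)| := by
                rw [hc0]
                ring
            _ ≤ ε * ω ^ 2 * c0 * (1 + |(k:ℝ)|) := by
                refine mul_le_mul_of_nonneg_left ?_ (by positivity)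
                linarith)
        (by
          intro k _ x
          have h1 := hv3.sup hρ hη hη1 x
          rw [Complex.norm_real, Real.norm_eq_abs] at h1
          have e5 : e k (v x) - e k (v' x) = (e k (v x - v' x) - 1) * e k (v' x) := by
            have : e k (v x) = e k (v x - v' x) * e k (v' x) := by
              rw [← e_shift, sub_add_cancel]
            rw [this]
            ring
          rw [e5, norm_mul, norm_e, mul_one]
          have h2 : ‖e k (v x - v' x) - 1‖ ≤ 2 * π * |(k:ℝ)| * |v x - v' x| := by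
            have h3 := Real.norm_exp_I_mul_ofReal_sub_one_le (x := 2 * π * k * (v x - v' x))
            have e3 : e k (v x - v' x) =
                Complex.exp (Complex.I * ((2 * π * k * (v x - v' x) : ℝ) : ℂ)) := by
              unfold e
              congr 1
              push_cast
              ring
            rw [e3]
            refine h3.trans (le_of_eq ?_)
            rw [Real.norm_eq_abs, abs_mul, abs_mul, abs_mul, abs_two, abs_of_pos hpi]
          calc ‖e k (v x - v' x) - 1‖ ≤ 2 * π * |(k:ℝ)| * |v x - v' x| := h2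
            _ ≤ 2 * π * |(k:ℝ)| * (ε * (A1 * ω ^ 2)) := by gcongr
            _ = ε * ω ^ 2 * (2 * π * A1) * |(k:ℝ)| := by ring
            _ ≤ ε * ω ^ 2 * c0 * (1 + |(k:ℝ)|) := by
                refine mul_le_mul ?_ (by linarith) (abs_nonneg _) (by positivity)
                exact mul_le_mul_of_nonneg_left hc1 (by positivity))
      refine hser.mono ?_
      calc 17 * A * (ε * ω ^ 2 * c0) = ε * (17 * A * c0 * ω ^ 2) := by ring
        _ ≤ ε * ((Cb + 17 * A * c0) * ω ^ 2) := by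
          refine mul_le_mul_of_nonneg_left ?_ hε.le
          have h5 : 0 < Cb * ω ^ 2 := by positivity
          linarith
  have h := hT1.add hT2
  have e1 : (fun x => (((R (x + y + v x) - R' (x + y + v x)) - (R (x + y) - R' (x + y)) : ℝ) : ℂ) +
      ((R' (x + y + v x) - R' (x + y + v' x) : ℝ) : ℂ)) =
      fun x => ((R (x + y + v x) - R (x + y) - (R' (x + y + v' x) - R' (x + y)) : ℝ) : ℂ) := by
    funext x
    push_cast
    ring
  rw [e1] at h
  exact h.mono (le_of_eq (by ring))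

end Pool.Agent.MP_ae5b4e_an_RIG
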