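import Mathlib
import Pool.Agent.Lib.MP_ae5b4e_an_RIG.CDB

/-!
# MP_ae5b4e_an, project RIG: the Volterra equation for pairs

Text: `/team-store/POR_RIG.md`, section 3.
-/

noncomputable section

namespace Pool.Agent.MP_ae5b4e_an_RIG

open Real Set Filter Topology MeasureTheory intervalIntegral
open Pool.Agent.MP_ae5b4e_an_RG

/-- the double integral -/
private def DI (F : ℝ → ℝ → ℝ) (σ : ℝ) : ℝ := ∫ s in (0:ℝ)..σ, ∫ s' in (0:ℝ)..s, F s s'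

private theorem single_cont {X : Type} [TopologicalSpace X] {F : X → ℝ → ℝ}
    (hF : Continuous fun z : X × ℝ => F z.1 z.2) {s : X → ℝ} (hs : Continuous s) :
    Continuous fun x => ∫ t in (0:ℝ)..s x, F x t :=
  intervalIntegral.continuous_parametric_intervalIntegral_of_continuous (f := F) hF hs

private theorem inner_cont {F : ℝ → ℝ → ℝ → ℝ}
    (hF : Continuous fun z : ℝ × ℝ × ℝ => F z.1 z.2.1 z.2.2) :
    Continuous fun q : ℝ × ℝ => ∫ s' in (0:ℝ)..q.1, F q.1 s' q.2 :=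
  single_cont (F := fun (q : ℝ × ℝ) s' => F q.1 s' q.2)
    (hF.comp (by fun_prop : Continuous fun z : (ℝ × ℝ) × ℝ => (z.1.1, z.2, z.1.2))) continuous_fst

private theorem DI_cont {F : ℝ → ℝ → ℝ → ℝ}
    (hF : Continuous fun z : ℝ × ℝ × ℝ => F z.1 z.2.1 z.2.2) :
    Continuous fun z : ℝ × ℝ => DI (fun s s' => F s s' z.2) z.1 := by
  have h := inner_cont hF
  exact single_cont (F := fun (q : ℝ × ℝ) s => ∫ s' in (0:ℝ)..s, F s s' q.2)
    (h.comp (by fun_prop : Continuous fun z : (ℝ × ℝ) × ℝ => (z.2, z.1.2))) continuous_fst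

private theorem one_bd {F : ℝ → ℝ} {c σ : ℝ} (hc : 0 ≤ c) (hσ : σ ∈ Icc (0:ℝ) 1)
    (h : ∀ s ∈ Icc (0:ℝ) 1, |F s| ≤ c) : |∫ s in (0:ℝ)..σ, F s| ≤ c := by
  have h1 := intervalIntegral.norm_integral_le_of_norm_le_const (a := 0) (b := σ) (C := c) (f := F)
    fun s hs => by
      rw [uIoc_of_le hσ.1] at hs
      exact h s ⟨hs.1.le, hs.2.trans hσ.2⟩
  rw [sub_zero, abs_of_nonneg hσ.1] at h1
  exact h1.trans (mul_le_of_le_one_right hc hσ.2)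

private theorem DI_bd {F : ℝ → ℝ → ℝ} {c σ : ℝ} (hc : 0 ≤ c) (hσ : σ ∈ Icc (0:ℝ) 1)
    (h : ∀ s ∈ Icc (0:ℝ) 1, ∀ s' ∈ Icc (0:ℝ) 1, |F s s'| ≤ c) : |DI F σ| ≤ c :=
  one_bd hc hσ fun s hs => one_bd hc hs fun s' hs' => h s hs s' hs'

private theorem DI_sub {F F' : ℝ → ℝ → ℝ} (hF : Continuous fun z : ℝ × ℝ => F z.1 z.2)
    (hF' : Continuous fun z : ℝ × ℝ => F' z.1 z.2) (σ : ℝ) :
    DI F σ - DI F' σ = DI (fun s s' => F s s' - F' s s') σ := by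
  have c1 : Continuous fun s : ℝ => ∫ s' in (0:ℝ)..s, F s s' := single_cont hF continuous_id
  have c2 : Continuous fun s : ℝ => ∫ s' in (0:ℝ)..s, F' s s' := single_cont hF' continuous_id
  unfold DI
  rw [← intervalIntegral.integral_sub (c1.intervalIntegrable _ _) (c2.intervalIntegrable _ _)]
  refine intervalIntegral.integral_congr fun s hs => ?_
  have d1 : Continuous fun s' : ℝ => F s s' := hF.comp (Continuous.prodMk_right s)
  have d2 : Continuous fun s' : ℝ => F' s s' := hF'.comp (Continuous.prodMk_right s)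
  exact (intervalIntegral.integral_sub (d1.intervalIntegrable _ _) (d2.intervalIntegrable _ _)).symm

private theorem DI_congr {F F' : ℝ → ℝ → ℝ} {σ : ℝ} (hσ : σ ∈ Icc (0:ℝ) 1)
    (h : ∀ s ∈ Icc (0:ℝ) 1, ∀ s' ∈ Icc (0:ℝ) 1, F s s' = F' s s') : DI F σ = DI F' σ := by
  refine intervalIntegral.integral_congr fun s hs => ?_
  rw [uIcc_of_le hσ.1] at hs
  have hs1 : s ∈ Icc (0:ℝ) 1 := ⟨hs.1, hs.2.trans hσ.2⟩
  refine intervalIntegral.integral_congr fun s' hs' => ?_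
  rw [uIcc_of_le hs1.1] at hs'
  exact h s hs1 s' ⟨hs'.1, hs'.2.trans hs1.2⟩

/-- the Picard iterates -/
private def Pic (dl : ℝ → ℝ) (r1 r2 : ℝ → ℝ → ℝ) : ℕ → ℝ → ℝ → ℝ
  | 0 => fun _ _ => 0
  | n + 1 => fun σ x => -(dl x * DI (fun s s' => (r1 s x + r2 s' x) *
      (2 * s' + Pic dl r1 r2 n s' x)) σ)

section

variable {ρ η B D : ℝ} {N : ℕ} {dl : ℝ → ℝ} {r1 r2 : ℝ → ℝ → ℝ}

private theorem ker_cont (hr1 : Continuous (fun z : ℝ × ℝ => r1 z.1 z.2))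
    (hr2 : Continuous (fun z : ℝ × ℝ => r2 z.1 z.2)) {H : ℝ → ℝ → ℝ}
    (hH : Continuous fun z : ℝ × ℝ => H z.1 z.2) :
    Continuous fun z : ℝ × ℝ × ℝ => (r1 z.1 z.2.2 + r2 z.2.1 z.2.2) * H z.2.1 z.2.2 := by
  have a1 : Continuous fun z : ℝ × ℝ × ℝ => r1 z.1 z.2.2 :=
    hr1.comp (by fun_prop : Continuous fun z : ℝ × ℝ × ℝ => (z.1, z.2.2))
  have a2 : Continuous fun z : ℝ × ℝ × ℝ => r2 z.2.1 z.2.2 := hr2.comp continuous_snd
  have a3 : Continuous fun z : ℝ × ℝ × ℝ => H z.2.1 z.2.2 := hH.comp continuous_snd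
  exact (a1.add a2).mul a3

private theorem Pic_cont (hd : Continuous dl) (hr1 : Continuous (fun z : ℝ × ℝ => r1 z.1 z.2))
    (hr2 : Continuous (fun z : ℝ × ℝ => r2 z.1 z.2)) (n : ℕ) :
    Continuous fun z : ℝ × ℝ => Pic dl r1 r2 n z.1 z.2 := by
  induction n with
  | zero => exact continuous_const
  | succ n ih =>
    have h1 : Continuous fun z : ℝ × ℝ => 2 * z.1 + Pic dl r1 r2 n z.1 z.2 := by fun_prop
    have h2 := DI_cont (F := fun s s' x => (r1 s x + r2 s' x) * (2 * s' + Pic dl r1 r2 n s' x))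
      (ker_cont hr1 hr2 (H := fun s' x => 2 * s' + Pic dl r1 r2 n s' x) h1)
    exact ((hd.comp continuous_snd).mul h2).neg

/-- the approximations of second order -/
private def Qn (dl : ℝ → ℝ) (r1 r2 : ℝ → ℝ → ℝ) (n : ℕ) (σ x : ℝ) : ℝ :=
  -(dl x * DI (fun s s' => (r1 s x + r2 s' x) * Pic dl r1 r2 n s' x) σ)

private theorem Qn_cont (hd : Continuous dl) (hr1 : Continuous (fun z : ℝ × ℝ => r1 z.1 z.2))
    (hr2 : Continuous (fun z : ℝ × ℝ => r2 z.1 z.2)) (n : ℕ) :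
    Continuous fun z : ℝ × ℝ => Qn dl r1 r2 n z.1 z.2 :=
  ((hd.comp continuous_snd).mul (DI_cont
    (F := fun s s' x => (r1 s x + r2 s' x) * Pic dl r1 r2 n s' x)
    (ker_cont hr1 hr2 (H := fun s' x => Pic dl r1 r2 n s' x) (Pic_cont hd hr1 hr2 n)))).neg

private theorem y_diff {x c : ℝ} {yx H : ℝ → ℝ} (hB : 0 < B) (hc : 0 ≤ c)
    (hr1 : Continuous (fun z : ℝ × ℝ => r1 z.1 z.2))
    (hr2 : Continuous (fun z : ℝ × ℝ => r2 z.1 z.2))
    (b1 : ∀ s ∈ Icc (0:ℝ) 1, |r1 s x| ≤ B) (b2 : ∀ s ∈ Icc (0:ℝ) 1, |r2 s x| ≤ B)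
    (hy : ContinuousOn yx (Icc 0 1)) (hH : Continuous H)
    (h : ∀ s ∈ Icc (0:ℝ) 1, |yx s - H s| ≤ c) {σ : ℝ} (hσ : σ ∈ Icc (0:ℝ) 1) :
    |DI (fun s s' => (r1 s x + r2 s' x) * yx s') σ - DI (fun s s' => (r1 s x + r2 s' x) * H s') σ|
      ≤ 2 * B * c := by
  set Y : ℝ → ℝ := IccExtend (zero_le_one : (0:ℝ) ≤ 1) ((Icc (0:ℝ) 1).domRestrict yx) with hY
  have hYc : Continuous Y := (continuousOn_iff_continuous_domRestrict.mp hy).Icc_extend'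
  have hYe : ∀ s ∈ Icc (0:ℝ) 1, Y s = yx s := fun s hs => IccExtend_of_mem _ _ hs
  have hrr : Continuous fun z : ℝ × ℝ => r1 z.1 x + r2 z.2 x :=
    (hr1.comp (by fun_prop : Continuous fun z : ℝ × ℝ => (z.1, x))).add
      (hr2.comp (by fun_prop : Continuous fun z : ℝ × ℝ => (z.2, x)))
  rw [DI_congr (F := fun s s' => (r1 s x + r2 s' x) * yx s')
    (F' := fun s s' => (r1 s x + r2 s' x) * Y s') hσ fun s hs s' hs' => by rw [hYe s' hs']]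
  rw [DI_sub (F := fun s s' => (r1 s x + r2 s' x) * Y s')
    (F' := fun s s' => (r1 s x + r2 s' x) * H s') (hrr.mul (hYc.comp continuous_snd))
    (hrr.mul (hH.comp continuous_snd))]
  refine DI_bd (by positivity) hσ fun s hs s' hs' => ?_
  rw [← mul_sub, abs_mul, hYe s' hs']
  refine mul_le_mul ?_ (h s' hs') (abs_nonneg _) (by positivity)
  refine (abs_add_le _ _).trans ?_
  linarith [b1 s hs, b2 s' hs']

private theorem y_start {x : ℝ} {yx : ℝ → ℝ} (hB : 0 < B) (hD : 0 < D) (hD0 : (8 * B + 1) * D ≤ 1)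
    (bd : |dl x| ≤ D)
    (b1 : ∀ s ∈ Icc (0:ℝ) 1, |r1 s x| ≤ B) (b2 : ∀ s ∈ Icc (0:ℝ) 1, |r2 s x| ≤ B)
    (hy : ContinuousOn yx (Icc 0 1))
    (heq : ∀ σ ∈ Icc (0:ℝ) 1, yx σ = 2 * σ - dl x * DI (fun s s' => (r1 s x + r2 s' x) * yx s') σ) :
    ∀ s ∈ Icc (0:ℝ) 1, |yx s - 2 * s| ≤ 2 := by
  obtain ⟨s₀, hs₀, hmax⟩ := isCompact_Icc.exists_isMaxOn (nonempty_Icc.mpr zero_le_one)
    (f := fun s => |yx s - 2 * s|) (by fun_prop)
  set M := |yx s₀ - 2 * s₀| with hM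
  have hM0 : 0 ≤ M := abs_nonneg _
  have hMs : ∀ s ∈ Icc (0:ℝ) 1, |yx s - 2 * s| ≤ M := fun s hs => hmax hs
  have h1 : |DI (fun s s' => (r1 s x + r2 s' x) * yx s') s₀| ≤ 2 * B * (M + 2) := by
    refine DI_bd (by positivity) hs₀ fun s hs s' hs' => ?_
    rw [abs_mul]
    refine mul_le_mul ?_ ?_ (abs_nonneg _) (by positivity)
    · refine (abs_add_le _ _).trans ?_
      linarith [b1 s hs, b2 s' hs']
    · have h2 := hMs s' hs'
      rw [abs_le] at h2 ⊢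
      constructor <;> linarith [hs'.1, hs'.2]
  have hMe : M = |dl x| * |DI (fun s s' => (r1 s x + r2 s' x) * yx s') s₀| := by
    rw [hM, heq s₀ hs₀]
    rw [show 2 * s₀ - dl x * DI (fun s s' => (r1 s x + r2 s' x) * yx s') s₀ - 2 * s₀ =
      -(dl x * DI (fun s s' => (r1 s x + r2 s' x) * yx s') s₀) by ring, abs_neg, abs_mul]
  have h2 : M ≤ D * (2 * B * (M + 2)) :=
    hMe.le.trans (mul_le_mul bd h1 (abs_nonneg _) hD.le)
  have h3 : M ≤ 2 := by nlinarith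
  exact fun s hs => (hMs s hs).trans h3

private theorem y_Pic {x : ℝ} {yx : ℝ → ℝ} (hB : 0 < B) (hD : 0 < D) (hD0 : (8 * B + 1) * D ≤ 1)
    (bd : |dl x| ≤ D) (hd : Continuous dl)
    (hr1 : Continuous (fun z : ℝ × ℝ => r1 z.1 z.2))
    (hr2 : Continuous (fun z : ℝ × ℝ => r2 z.1 z.2))
    (b1 : ∀ s ∈ Icc (0:ℝ) 1, |r1 s x| ≤ B) (b2 : ∀ s ∈ Icc (0:ℝ) 1, |r2 s x| ≤ B)
    (hy : ContinuousOn yx (Icc 0 1))
    (heq : ∀ σ ∈ Icc (0:ℝ) 1, yx σ = 2 * σ - dl x * DI (fun s s' => (r1 s x + r2 s' x) * yx s') σ)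
    (n : ℕ) : ∀ s ∈ Icc (0:ℝ) 1, |yx s - (2 * s + Pic dl r1 r2 n s x)| ≤ 2 * (1 / 2) ^ n := by
  induction n with
  | zero =>
    intro s hs
    have := y_start hB hD hD0 bd b1 b2 hy heq s hs
    simpa [Pic] using this
  | succ n ih =>
    intro σ hσ
    have hc : Continuous fun s' => 2 * s' + Pic dl r1 r2 n s' x :=
      (continuous_const.mul continuous_id).add
        ((Pic_cont hd hr1 hr2 n).comp (Continuous.prodMk_left x))
    have h1 := y_diff (H := fun s' => 2 * s' + Pic dl r1 r2 n s' x) hB (by positivity) hr1 hr2 b1 b2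
      hy hc ih hσ
    rw [heq σ hσ]
    have e : 2 * σ - dl x * DI (fun s s' => (r1 s x + r2 s' x) * yx s') σ -
        (2 * σ + Pic dl r1 r2 (n + 1) σ x) =
        -(dl x * (DI (fun s s' => (r1 s x + r2 s' x) * yx s') σ -
          DI (fun s s' => (r1 s x + r2 s' x) * (2 * s' + Pic dl r1 r2 n s' x)) σ)) := by
      simp only [Pic]
      ring
    rw [e, abs_neg, abs_mul]
    refine (mul_le_mul bd h1 (abs_nonneg _) hD.le).trans ?_
    rw [pow_succ]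
    have hp : (0:ℝ) ≤ (1 / 2) ^ n := by positivity
    have h2 : D * (2 * B) ≤ 1 / 4 := by nlinarith
    nlinarith [mul_le_mul_of_nonneg_right h2 hp]

private theorem half_small {ε : ℝ} (hε : 0 < ε) {C : ℝ} (hC : 0 ≤ C) :
    ∃ n : ℕ, C * (2 * (1 / 2 : ℝ) ^ n) ≤ ε := by
  obtain ⟨n, hn⟩ := exists_pow_lt_of_lt_one (y := (1 / 2 : ℝ))
    (show 0 < ε / (2 * C + 1) by positivity) (by norm_num)
  refine ⟨n, ?_⟩
  rw [lt_div_iff₀ (by positivity)] at hn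
  have : (0:ℝ) ≤ (1 / 2) ^ n := by positivity
  nlinarith

/-- the pointwise approximations -/
private theorem vol_approx (hB : 0 < B) (hD : 0 < D) (hD0 : (8 * B + 1) * D ≤ 1)
    (bd : ∀ x, |dl x| ≤ D) (hd : Continuous dl)
    (hr1 : Continuous (fun z : ℝ × ℝ => r1 z.1 z.2))
    (hr2 : Continuous (fun z : ℝ × ℝ => r2 z.1 z.2))
    (b1 : ∀ x, ∀ s ∈ Icc (0:ℝ) 1, |r1 s x| ≤ B) (b2 : ∀ x, ∀ s ∈ Icc (0:ℝ) 1, |r2 s x| ≤ B)
    {y : ℝ → ℝ → ℝ} (hy : ∀ x, ContinuousOn (y x) (Icc 0 1))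
    (heq : ∀ x, ∀ σ ∈ Icc (0:ℝ) 1, y x σ = 2 * σ - dl x *
      DI (fun s s' => (r1 s x + r2 s' x) * y x s') σ) (n : ℕ) (x : ℝ) :
    |y x 1 - 2 - Pic dl r1 r2 n 1 x| ≤ 2 * (1 / 2) ^ n ∧
    |(∫ s in (0:ℝ)..1, y x s) - 1 - ∫ s in (0:ℝ)..1, Pic dl r1 r2 n s x| ≤ 2 * (1 / 2) ^ n ∧
    |y x 1 - 2 + dl x * DI (fun s s' => (r1 s x + r2 s' x) * (2 * s')) 1 -
      Qn dl r1 r2 n 1 x| ≤ D * (2 * B) * (2 * (1 / 2) ^ n) ∧
    |(∫ s in (0:ℝ)..1, y x s) - 1 + dl x * (∫ σ in (0:ℝ)..1,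
      DI (fun s s' => (r1 s x + r2 s' x) * (2 * s')) σ) - ∫ s in (0:ℝ)..1, Qn dl r1 r2 n s x| ≤
      D * (2 * B) * (2 * (1 / 2) ^ n) := by
  have hPc := Pic_cont hd hr1 hr2
  have hyP : ∀ n, ∀ s ∈ Icc (0:ℝ) 1,
      |y x s - (2 * s + Pic dl r1 r2 n s x)| ≤ 2 * (1 / 2) ^ n := fun n =>
    y_Pic hB hD hD0 (bd x) hd hr1 hr2 (b1 x) (b2 x) (hy x) (heq x) n
  have one1 : (1:ℝ) ∈ Icc (0:ℝ) 1 := ⟨zero_le_one, le_rfl⟩
  have hyi : IntervalIntegrable (y x) volume 0 1 :=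
    ContinuousOn.intervalIntegrable (by rw [uIcc_of_le zero_le_one]; exact hy x)
  have hI2 : ∫ s in (0:ℝ)..1, 2 * s = 1 := by
    rw [intervalIntegral.integral_const_mul, integral_id]
    norm_num
  have hid : ∀ a b : ℝ, IntervalIntegrable (fun s : ℝ => 2 * s) volume a b := fun a b =>
    (by fun_prop : Continuous fun s : ℝ => 2 * s).intervalIntegrable _ _
  have hyQ : ∀ σ ∈ Icc (0:ℝ) 1,
      |y x σ - 2 * σ + dl x * DI (fun s s' => (r1 s x + r2 s' x) * (2 * s')) σ -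
        Qn dl r1 r2 n σ x| ≤ D * (2 * B) * (2 * (1 / 2) ^ n) := by
    intro σ hσ
    have hc : Continuous fun s' => 2 * s' + Pic dl r1 r2 n s' x :=
      (continuous_const.mul continuous_id).add ((hPc n).comp (Continuous.prodMk_left x))
    have e1 := y_diff (H := fun s' => 2 * s' + Pic dl r1 r2 n s' x) hB (by positivity) hr1 hr2
      (b1 x) (b2 x) (hy x) hc (hyP n) hσ
    have hrr : Continuous fun z : ℝ × ℝ => r1 z.1 x + r2 z.2 x :=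
      (hr1.comp (by fun_prop : Continuous fun z : ℝ × ℝ => (z.1, x))).add
        (hr2.comp (by fun_prop : Continuous fun z : ℝ × ℝ => (z.2, x)))
    have hPx : Continuous fun z : ℝ × ℝ => Pic dl r1 r2 n z.2 x :=
      (hPc n).comp (by fun_prop : Continuous fun z : ℝ × ℝ => (z.2, x))
    have e2 := DI_sub (F := fun s s' => (r1 s x + r2 s' x) * (2 * s' + Pic dl r1 r2 n s' x))
      (F' := fun s s' => (r1 s x + r2 s' x) * (2 * s'))
      (hrr.mul (by fun_prop)) (hrr.mul (by fun_prop)) σ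
    have e3 : (fun s s' => (r1 s x + r2 s' x) * (2 * s' + Pic dl r1 r2 n s' x) -
        (r1 s x + r2 s' x) * (2 * s')) = fun s s' => (r1 s x + r2 s' x) * Pic dl r1 r2 n s' x := by
      funext s s'
      ring
    rw [e3] at e2
    have e4 : y x σ - 2 * σ + dl x * DI (fun s s' => (r1 s x + r2 s' x) * (2 * s')) σ -
        Qn dl r1 r2 n σ x = -(dl x * (DI (fun s s' => (r1 s x + r2 s' x) * y x s') σ -
          DI (fun s s' => (r1 s x + r2 s' x) * (2 * s' + Pic dl r1 r2 n s' x)) σ)) := by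
      rw [heq x σ hσ]
      simp only [Qn]
      rw [← e2]
      ring
    rw [e4, abs_neg, abs_mul, mul_assoc D]
    exact mul_le_mul (bd x) e1 (abs_nonneg _) hD.le
  refine ⟨?_, ?_, ?_, ?_⟩
  · have := hyP n 1 one1
    rw [mul_one] at this
    rw [show y x 1 - 2 - Pic dl r1 r2 n 1 x = y x 1 - (2 + Pic dl r1 r2 n 1 x) by ring]
    exact this
  · have hPi : IntervalIntegrable (fun s => Pic dl r1 r2 n s x) volume 0 1 :=
      ((hPc n).comp (Continuous.prodMk_left x)).intervalIntegrable _ _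
    have e1 : (∫ s in (0:ℝ)..1, y x s) - 1 - ∫ s in (0:ℝ)..1, Pic dl r1 r2 n s x =
        ∫ s in (0:ℝ)..1, (y x s - (2 * s + Pic dl r1 r2 n s x)) := by
      rw [intervalIntegral.integral_sub hyi ((hid 0 1).add hPi),
        intervalIntegral.integral_add (hid 0 1) hPi, hI2]
      ring
    rw [e1]
    exact one_bd (by positivity) one1 (hyP n)
  · have := hyQ 1 one1
    rw [mul_one] at this
    exact this
  · have hQi : IntervalIntegrable (fun s => Qn dl r1 r2 n s x) volume 0 1 :=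
      ((Qn_cont hd hr1 hr2 n).comp (Continuous.prodMk_left x)).intervalIntegrable _ _
    have hDc : Continuous fun σ => DI (fun s s' => (r1 s x + r2 s' x) * (2 * s')) σ := by
      have := DI_cont (F := fun s s' x => (r1 s x + r2 s' x) * (2 * s'))
        (ker_cont hr1 hr2 (H := fun s' x => 2 * s') (by fun_prop))
      exact this.comp (Continuous.prodMk_left x)
    have hDi : IntervalIntegrable (fun σ => dl x * DI (fun s s' => (r1 s x + r2 s' x) * (2 * s')) σ)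
        volume 0 1 := (continuous_const.mul hDc).intervalIntegrable _ _
    have e1 : (∫ s in (0:ℝ)..1, y x s) - 1 + dl x * (∫ σ in (0:ℝ)..1,
        DI (fun s s' => (r1 s x + r2 s' x) * (2 * s')) σ) - ∫ s in (0:ℝ)..1, Qn dl r1 r2 n s x =
        ∫ σ in (0:ℝ)..1, (y x σ - 2 * σ + dl x * DI (fun s s' => (r1 s x + r2 s' x) * (2 * s')) σ -
          Qn dl r1 r2 n σ x) := by
      rw [intervalIntegral.integral_sub ((hyi.sub (hid 0 1)).add hDi) hQi,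
        intervalIntegral.integral_add (hyi.sub (hid 0 1)) hDi,
        intervalIntegral.integral_sub hyi (hid 0 1), hI2, intervalIntegral.integral_const_mul]
    rw [e1]
    exact one_bd (by positivity) one1 hyQ

end

section

variable {ρ η ε B D : ℝ} {N : ℕ} {dl dl' : ℝ → ℝ} {r1 r2 r1' r2' : ℝ → ℝ → ℝ}

private theorem DI_db (hη : 0 < η) (hε : 0 ≤ ε) {P : ℝ} {F F' : ℝ → ℝ → ℝ → ℝ}
    (hF : Continuous fun z : ℝ × ℝ × ℝ => F z.1 z.2.1 z.2.2)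
    (hF' : Continuous fun z : ℝ × ℝ × ℝ => F' z.1 z.2.1 z.2.2)
    (h : ∀ s ∈ Icc (0:ℝ) 1, ∀ s' ∈ Icc (0:ℝ) 1, DB ρ N η ε P (F s s') (F' s s')) {σ : ℝ}
    (hσ : σ ∈ Icc (0:ℝ) 1) :
    DB ρ N η ε P (fun x => DI (fun s s' => F s s' x) σ)
      (fun x => DI (fun s s' => F' s s' x) σ) := by
  refine DB.integral hη (F := fun s x => ∫ s' in (0:ℝ)..s, F s s' x)
    (F' := fun s x => ∫ s' in (0:ℝ)..s, F' s s' x) hσ hε (inner_cont hF) (inner_cont hF') ?_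
  intro s hs
  exact DB.integral hη (F := fun s' x => F s s' x) (F' := fun s' x => F' s s' x) hs hε
    (hF.comp (by fun_prop : Continuous fun z : ℝ × ℝ => (s, z.1, z.2)))
    (hF'.comp (by fun_prop : Continuous fun z : ℝ × ℝ => (s, z.1, z.2))) (h s hs)

private theorem rr_db (h1 : ∀ s ∈ Icc (0:ℝ) 1, DB ρ N η ε B (r1 s) (r1' s))
    (h2 : ∀ s ∈ Icc (0:ℝ) 1, DB ρ N η ε B (r2 s) (r2' s)) {s s' : ℝ}
    (hs : s ∈ Icc (0:ℝ) 1) (hs' : s' ∈ Icc (0:ℝ) 1) :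
    DB ρ N η ε (2 * B) (fun x => r1 s x + r2 s' x) (fun x => r1' s x + r2' s' x) := by
  have h := (h1 s hs).add (h2 s' hs')
  rwa [← two_mul] at h

private theorem rr2_db (hη : 0 < η) (hε : 0 ≤ ε)
    (h1 : ∀ s ∈ Icc (0:ℝ) 1, DB ρ N η ε B (r1 s) (r1' s))
    (h2 : ∀ s ∈ Icc (0:ℝ) 1, DB ρ N η ε B (r2 s) (r2' s)) {s s' : ℝ}
    (hs : s ∈ Icc (0:ℝ) 1) (hs' : s' ∈ Icc (0:ℝ) 1) :
    DB ρ N η ε (4 * B) (fun x => (r1 s x + r2 s' x) * (2 * s'))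
      (fun x => (r1' s x + r2' s' x) * (2 * s')) := by
  have h := rr_db h1 h2 hs hs'
  have h3 := h.cmul hη (2 * s')
  have hB := h.nonneg hη
  have e : |2 * s'| * (2 * B) ≤ 4 * B := by
    rw [abs_of_nonneg (by linarith [hs'.1])]
    nlinarith [hs'.2]
  exact (h3.mono hε e).congr (fun x => by ring) (fun x => by ring)

private theorem rrG_db (hρ : 0 ≤ ρ) (hη : 0 < η) (hη1 : η ≤ 1)
    (h1 : ∀ s ∈ Icc (0:ℝ) 1, DB ρ N η ε B (r1 s) (r1' s))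
    (h2 : ∀ s ∈ Icc (0:ℝ) 1, DB ρ N η ε B (r2 s) (r2' s)) {P : ℝ} {H H' : ℝ → ℝ → ℝ}
    (hH : ∀ s ∈ Icc (0:ℝ) 1, DB ρ N η ε P (H s) (H' s)) {s s' : ℝ}
    (hs : s ∈ Icc (0:ℝ) 1) (hs' : s' ∈ Icc (0:ℝ) 1) :
    DB ρ N η ε (2 * (2 * B * P)) (fun x => (r1 s x + r2 s' x) * H s' x)
      (fun x => (r1' s x + r2' s' x) * H' s' x) :=
  (rr_db h1 h2 hs hs').mul hρ hη hη1 (hH s' hs')

private theorem Pic_db (hρ : 0 ≤ ρ) (hη : 0 < η) (hη1 : η ≤ 1) (hε : 0 ≤ ε) (hB : 0 < B)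
    (hD : 0 < D) (hD0 : (16 * B + 1) * D ≤ 1) (hdl : DB ρ N η ε D dl dl')
    (hr1 : Continuous (fun z : ℝ × ℝ => r1 z.1 z.2))
    (hr2 : Continuous (fun z : ℝ × ℝ => r2 z.1 z.2))
    (hr1' : Continuous (fun z : ℝ × ℝ => r1' z.1 z.2))
    (hr2' : Continuous (fun z : ℝ × ℝ => r2' z.1 z.2))
    (h1 : ∀ s ∈ Icc (0:ℝ) 1, DB ρ N η ε B (r1 s) (r1' s))
    (h2 : ∀ s ∈ Icc (0:ℝ) 1, DB ρ N η ε B (r2 s) (r2' s)) (n : ℕ) :
    ∀ σ ∈ Icc (0:ℝ) 1, DB ρ N η ε ((16 * B + 1) * D) (Pic dl r1 r2 n σ) (Pic dl' r1' r2' n σ) := by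
  induction n with
  | zero =>
    intro σ _
    have h := DB.const ρ N (ε := ε) hη hε (le_refl (0:ℝ))
    rw [mul_zero] at h
    exact h.mono hε (by positivity)
  | succ n ih =>
    intro σ hσ
    have hc := Pic_cont hdl.cont_left hr1 hr2 n
    have hc' := Pic_cont hdl.cont_right hr1' hr2' n
    have hk : ∀ s ∈ Icc (0:ℝ) 1, ∀ s' ∈ Icc (0:ℝ) 1,
        DB ρ N η ε (8 * B) (fun x => (r1 s x + r2 s' x) * (2 * s' + Pic dl r1 r2 n s' x))
          (fun x => (r1' s x + r2' s' x) * (2 * s' + Pic dl' r1' r2' n s' x)) := by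
      intro s hs s' hs'
      have a1 := (rr2_db hη hε h1 h2 hs hs').add (rrG_db hρ hη hη1 h1 h2 ih hs hs')
      have e1 : 2 * B * ((16 * B + 1) * D) ≤ 2 * B * 1 :=
        mul_le_mul_of_nonneg_left hD0 (by positivity)
      exact (a1.mono hε (by linarith)).congr (fun x => by ring) (fun x => by ring)
    have h3 : Continuous fun z : ℝ × ℝ => 2 * z.1 + Pic dl r1 r2 n z.1 z.2 := by fun_prop
    have h3' : Continuous fun z : ℝ × ℝ => 2 * z.1 + Pic dl' r1' r2' n z.1 z.2 := by fun_prop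
    have h4 := DI_db hη hε
      (F := fun s s' x => (r1 s x + r2 s' x) * (2 * s' + Pic dl r1 r2 n s' x))
      (F' := fun s s' x => (r1' s x + r2' s' x) * (2 * s' + Pic dl' r1' r2' n s' x))
      (ker_cont hr1 hr2 (H := fun s' x => 2 * s' + Pic dl r1 r2 n s' x) h3)
      (ker_cont hr1' hr2' (H := fun s' x => 2 * s' + Pic dl' r1' r2' n s' x) h3') hk hσ
    have h5 := (hdl.mul hρ hη hη1 h4).neg hη
    exact h5.mono hε (by nlinarith)

private theorem Qn_db (hρ : 0 ≤ ρ) (hη : 0 < η) (hη1 : η ≤ 1) (hε : 0 ≤ ε) (hB : 0 < B)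
    (hD : 0 < D) (hD0 : (16 * B + 1) * D ≤ 1) (hdl : DB ρ N η ε D dl dl')
    (hr1 : Continuous (fun z : ℝ × ℝ => r1 z.1 z.2))
    (hr2 : Continuous (fun z : ℝ × ℝ => r2 z.1 z.2))
    (hr1' : Continuous (fun z : ℝ × ℝ => r1' z.1 z.2))
    (hr2' : Continuous (fun z : ℝ × ℝ => r2' z.1 z.2))
    (h1 : ∀ s ∈ Icc (0:ℝ) 1, DB ρ N η ε B (r1 s) (r1' s))
    (h2 : ∀ s ∈ Icc (0:ℝ) 1, DB ρ N η ε B (r2 s) (r2' s)) (n : ℕ) :
    ∀ σ ∈ Icc (0:ℝ) 1, DB ρ N η ε (8 * B * (16 * B + 1) * D ^ 2) (Qn dl r1 r2 n σ)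
      (Qn dl' r1' r2' n σ) := by
  intro σ hσ
  have h4 := DI_db hη hε (F := fun s s' x => (r1 s x + r2 s' x) * Pic dl r1 r2 n s' x)
    (F' := fun s s' x => (r1' s x + r2' s' x) * Pic dl' r1' r2' n s' x)
    (ker_cont hr1 hr2 (H := fun s' x => Pic dl r1 r2 n s' x) (Pic_cont hdl.cont_left hr1 hr2 n))
    (ker_cont hr1' hr2' (H := fun s' x => Pic dl' r1' r2' n s' x)
      (Pic_cont hdl.cont_right hr1' hr2' n))
    (fun s hs s' hs' => rrG_db hρ hη hη1 h1 h2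
      (Pic_db hρ hη hη1 hε hB hD hD0 hdl hr1 hr2 hr1' hr2' h1 h2 n) hs hs') hσ
  have h5 := (hdl.mul hρ hη hη1 h4).neg hη
  exact h5.mono hε (le_of_eq (by ring))

end

/-- The Volterra equation for pairs, first and second order. -/
theorem volt_db (B : ℝ) (hB : 0 < B) :
    ∃ K D0 : ℝ, 0 < K ∧ 0 < D0 ∧ ∀ (ρ : ℝ) (N : ℕ) (η ε D : ℝ) (dl dl' : ℝ → ℝ)
      (r1 r2 y r1' r2' y' : ℝ → ℝ → ℝ), 0 ≤ ρ → 0 < η → η ≤ 1 → 0 ≤ ε → 0 < D → D ≤ D0 →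
      DB ρ N η ε D dl dl' →
      Continuous (fun z : ℝ × ℝ => r1 z.1 z.2) → Continuous (fun z : ℝ × ℝ => r2 z.1 z.2) →
      Continuous (fun z : ℝ × ℝ => r1' z.1 z.2) → Continuous (fun z : ℝ × ℝ => r2' z.1 z.2) →
      (∀ s ∈ Icc (0:ℝ) 1, DB ρ N η ε B (r1 s) (r1' s)) →
      (∀ s ∈ Icc (0:ℝ) 1, DB ρ N η ε B (r2 s) (r2' s)) →
      (∀ x, ContinuousOn (y x) (Icc 0 1)) → (∀ x, ContinuousOn (y' x) (Icc 0 1)) →
      (∀ x, ∀ σ ∈ Icc (0:ℝ) 1, y x σ = 2 * σ - dl x * ∫ s in (0:ℝ)..σ, ∫ s' in (0:ℝ)..s,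
        (r1 s x + r2 s' x) * y x s') →
      (∀ x, ∀ σ ∈ Icc (0:ℝ) 1, y' x σ = 2 * σ - dl' x * ∫ s in (0:ℝ)..σ, ∫ s' in (0:ℝ)..s,
        (r1' s x + r2' s' x) * y' x s') →
      DB ρ N η ε (K * D) (fun x => y x 1 - 2) (fun x => y' x 1 - 2) ∧
      DB ρ N η ε (K * D) (fun x => (∫ s in (0:ℝ)..1, y x s) - 1)
        (fun x => (∫ s in (0:ℝ)..1, y' x s) - 1) ∧
      DB ρ N η ε (K * D ^ 2)
        (fun x => y x 1 - 2 + dl x * ∫ s in (0:ℝ)..1, ∫ s' in (0:ℝ)..s,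
          (r1 s x + r2 s' x) * (2 * s'))
        (fun x => y' x 1 - 2 + dl' x * ∫ s in (0:ℝ)..1, ∫ s' in (0:ℝ)..s,
          (r1' s x + r2' s' x) * (2 * s')) ∧
      DB ρ N η ε (K * D ^ 2)
        (fun x => (∫ s in (0:ℝ)..1, y x s) - 1 +
          dl x * ∫ σ in (0:ℝ)..1, ∫ s in (0:ℝ)..σ, ∫ s' in (0:ℝ)..s,
          (r1 s x + r2 s' x) * (2 * s'))
        (fun x => (∫ s in (0:ℝ)..1, y' x s) - 1 +
          dl' x * ∫ σ in (0:ℝ)..1, ∫ s in (0:ℝ)..σ, ∫ s' in (0:ℝ)..s,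
          (r1' s x + r2' s' x) * (2 * s')) := by
  refine ⟨(16 * B + 1) * (8 * B + 1), 1 / (16 * B + 1), by positivity, by positivity, ?_⟩
  intro ρ N η ε D dl dl' r1 r2 y r1' r2' y' hρ hη hη1 hε hD hD0 hdl hr1 hr2 hr1' hr2' h1 h2
    hy hy' heq heq'
  have hD0' : (16 * B + 1) * D ≤ 1 := by
    rw [le_div_iff₀ (by positivity)] at hD0
    linarith
  have hD8 : (8 * B + 1) * D ≤ 1 := by
    have := mul_pos hB hD
    linarith
  have bd := fun x => hdl.sup hρ hη hη1 x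
  have b1 := fun (x s : ℝ) (hs : s ∈ Icc (0:ℝ) 1) => (h1 s hs).sup hρ hη hη1 x
  have b2 := fun (x s : ℝ) (hs : s ∈ Icc (0:ℝ) 1) => (h2 s hs).sup hρ hη hη1 x
  have A := vol_approx hB hD hD8 (fun x => (bd x).1) hdl.cont_left hr1 hr2
    (fun x s hs => (b1 x s hs).1) (fun x s hs => (b2 x s hs).1) hy heq
  have A' := vol_approx hB hD hD8 (fun x => (bd x).2) hdl.cont_right hr1' hr2'
    (fun x s hs => (b1 x s hs).2) (fun x s hs => (b2 x s hs).2) hy' heq'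
  have hPn := Pic_db hρ hη hη1 hε hB hD hD0' hdl hr1 hr2 hr1' hr2' h1 h2
  have hQn := Qn_db hρ hη hη1 hε hB hD hD0' hdl hr1 hr2 hr1' hr2' h1 h2
  have one1 : (1:ℝ) ∈ Icc (0:ℝ) 1 := ⟨zero_le_one, le_rfl⟩
  have hKD : (16 * B + 1) * D ≤ (16 * B + 1) * (8 * B + 1) * D := by
    have : 0 ≤ (16 * B + 1) * D := by positivity
    nlinarith
  have hKD2 : 8 * B * (16 * B + 1) * D ^ 2 ≤ (16 * B + 1) * (8 * B + 1) * D ^ 2 := by
    have : 0 ≤ (16 * B + 1) * D ^ 2 := by positivity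
    nlinarith
  refine ⟨?_, ?_, ?_, ?_⟩
  · refine DB.limit hη (F := fun n => Pic dl r1 r2 n 1) (F' := fun n => Pic dl' r1' r2' n 1)
      (fun n => (hPn n 1 one1).mono hε hKD) fun δ hδ => ?_
    obtain ⟨n, hn⟩ := half_small hδ zero_le_one
    rw [one_mul] at hn
    exact ⟨n, fun x => ⟨(A n x).1.trans hn, (A' n x).1.trans hn⟩⟩
  · refine DB.limit hη (F := fun n x => ∫ s in (0:ℝ)..1, Pic dl r1 r2 n s x)
      (F' := fun n x => ∫ s in (0:ℝ)..1, Pic dl' r1' r2' n s x)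
      (fun n => (DB.integral hη one1 hε (Pic_cont hdl.cont_left hr1 hr2 n)
        (Pic_cont hdl.cont_right hr1' hr2' n) (hPn n)).mono hε hKD) fun δ hδ => ?_
    obtain ⟨n, hn⟩ := half_small hδ zero_le_one
    rw [one_mul] at hn
    exact ⟨n, fun x => ⟨(A n x).2.1.trans hn, (A' n x).2.1.trans hn⟩⟩
  · refine DB.limit hη (F := fun n => Qn dl r1 r2 n 1) (F' := fun n => Qn dl' r1' r2' n 1)
      (fun n => (hQn n 1 one1).mono hε hKD2) fun δ hδ => ?_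
    obtain ⟨n, hn⟩ := half_small hδ (by positivity : 0 ≤ D * (2 * B))
    exact ⟨n, fun x => ⟨(A n x).2.2.1.trans hn, (A' n x).2.2.1.trans hn⟩⟩
  · refine DB.limit hη (F := fun n x => ∫ s in (0:ℝ)..1, Qn dl r1 r2 n s x)
      (F' := fun n x => ∫ s in (0:ℝ)..1, Qn dl' r1' r2' n s x)
      (fun n => (DB.integral hη one1 hε (Qn_cont hdl.cont_left hr1 hr2 n)
        (Qn_cont hdl.cont_right hr1' hr2' n) (hQn n)).mono hε hKD2) fun δ hδ => ?_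
    obtain ⟨n, hn⟩ := half_small hδ (by positivity : 0 ≤ D * (2 * B))
    exact ⟨n, fun x => ⟨(A n x).2.2.2.trans hn, (A' n x).2.2.2.trans hn⟩⟩

end Pool.Agent.MP_ae5b4e_an_RIG
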