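import Mathlib
import Pool.Agent.Lib.MP_ae5b4e_an_RIG.CCmp
import Pool.Agent.Lib.MP_ae5b4e_an_RIG.CVol

/-!
# MP_ae5b4e_an, project RIG: the estimate (6.1) for pairs

Text: `/team-store/POR_RIG.md`, section 4.
-/

noncomputable section

namespace Pool.Agent.MP_ae5b4e_an_RIG

open Real Set Filter Topology MeasureTheory intervalIntegral
open Pool.Agent.MP_ae5b4e_an_RG

/-- the linear part of one side -/
private def lam (R1 R2 : ℝ → ℝ) (τ x : ℝ) : ℝ :=
  τ ^ 2 * ∫ t in (0:ℝ)..1, (K1 t * R1 (x + t * τ) + K2 t * R2 (x + t * τ))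

private lemma cK1 : Continuous K1 := by unfold K1; fun_prop

private lemma cK2 : Continuous K2 := by unfold K2; fun_prop

private lemma lam_eq {R1 R2 : ℝ → ℝ} (h1 : Continuous R1) (h2 : Continuous R2) (τ x : ℝ) :
    lam R1 R2 τ x = -(τ ^ 2 * ((∫ s in (0:ℝ)..1, (2 * s - 1) * s ^ 2 * R1 (x + (1 - s) * τ)) +
      ∫ s in (0:ℝ)..1, 2 * s ^ 2 * (1 - s) * R2 (x + (1 - s) * τ))) := by
  have e1 := intervalIntegral.integral_comp_sub_left (a := (0:ℝ)) (b := 1)
    (fun t => K1 t * R1 (x + t * τ) + K2 t * R2 (x + t * τ)) 1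
  rw [sub_self, sub_zero] at e1
  unfold lam
  rw [← e1, ← intervalIntegral.integral_add
    ((by fun_prop : Continuous fun s : ℝ =>
      (2 * s - 1) * s ^ 2 * R1 (x + (1 - s) * τ)).intervalIntegrable _ _)
    ((by fun_prop : Continuous fun s : ℝ =>
      2 * s ^ 2 * (1 - s) * R2 (x + (1 - s) * τ)).intervalIntegrable _ _), ← mul_neg,
    ← intervalIntegral.integral_neg]
  congr 1
  refine intervalIntegral.integral_congr fun s _ => ?_
  simp only [K1, K2]
  ring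

private lemma RL_eq {R1 R2 : ℝ → ℝ} (h1 : Continuous R1) (h2 : Continuous R2) (ω x : ℝ) :
    RL R1 R2 ω x = ω / 2 * (lam R1 R2 ω x - lam R1 R2 (-ω) x) := by
  have c1 := cK1
  have c2 := cK2
  unfold lam RL
  have e1 : (-ω) ^ 2 = ω ^ 2 := by ring
  rw [e1, ← mul_sub, ← intervalIntegral.integral_sub
    ((by fun_prop : Continuous fun t : ℝ =>
      K1 t * R1 (x + t * ω) + K2 t * R2 (x + t * ω)).intervalIntegrable _ _)
    ((by fun_prop : Continuous fun t : ℝ =>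
      K1 t * R1 (x + t * (-ω)) + K2 t * R2 (x + t * (-ω))).intervalIntegrable _ _), ← mul_assoc]
  have e2 : ω ^ 3 / 2 = ω / 2 * ω ^ 2 := by ring
  rw [e2]
  congr 1
  refine intervalIntegral.integral_congr fun t _ => ?_
  have e3 : x + t * (-ω) = x - t * ω := by ring
  simp only [e3]
  ring

/-- one side of the law, for pairs -/
private theorem side_db (A A1 : ℝ) (hA : 0 < A) (hA1 : 0 < A1) :
    ∃ C ω1 : ℝ, 0 < C ∧ 0 < ω1 ∧ ∀ (ρ : ℝ) (N p q : ℕ) (η ε τ : ℝ)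
      (R1 R2 u r R1' R2' u' r' : ℝ → ℝ),
      0 ≤ ρ → PQ p q → (p:ℝ) / q ≤ ω1 → etam ρ N p q ≤ η → η ≤ 1 → 0 < ε →
      Dec ρ N A R1 → Dec ρ N A R2 → Dec ρ N A R1' → Dec ρ N A R2' →
      Dec ρ N (ε * A) (fun x => R1 x - R1' x) → Dec ρ N (ε * A) (fun x => R2 x - R2' x) →
      |τ| = (p:ℝ) / q → Continuous u → Continuous u' →
      DB ρ N η ε (A1 * ((p:ℝ) / q) ^ 2) u u' →
      DB ρ N η ε (A1 * ((p:ℝ) / q) ^ 2) (fun x => (u (x + τ) - u x) / τ)
        (fun x => (u' (x + τ) - u' x) / τ) →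
      (∀ x, Rel R1 R2 (x + τ + u (x + τ)) (u x - u (x + τ) - τ) (r x)) →
      (∀ x, Rel R1' R2' (x + τ + u' (x + τ)) (u' x - u' (x + τ) - τ) (r' x)) →
      DB ρ N η ε (C * ((p:ℝ) / q) ^ 2) r r' ∧
      DB ρ N η ε (C * ((p:ℝ) / q) ^ 4) (fun x => r x - lam R1 R2 τ x)
        (fun x => r' x - lam R1' R2' τ x) := by
  obtain ⟨C2, hC2, hcomp⟩ := comp_db A A1 hA hA1
  obtain ⟨K, D0, hK, hD0, hvolt⟩ := volt_db (12 * A + C2) (by positivity)
  set E1 : ℝ := 2 * A1 + 2 * A1 ^ 2 with hE1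
  have hE10 : 0 < E1 := by positivity
  set D1 : ℝ := 12 + E1 with hD1
  have hD10 : 0 < D1 := by positivity
  set C : ℝ := 15 * K * D1 + (3 * K * D1 ^ 2 + 4 * D1 * C2 + 48 * A * E1 + 24 * K ^ 2 * D1 ^ 2)
    with hCdef
  refine ⟨C, min 1 (min (D0 / D1) (1 / (2 * K * D1))), by positivity, by positivity, ?_⟩
  intro ρ N p q η ε τ R1 R2 u r R1' R2' u' r' hρ hpq hω1 hηm hη1 hε hR1 hR2 hR1' hR2' hS1 hS2 hτ
    hu hu' hNu hNP hrel hrel'
  have hε0 : 0 ≤ ε := hε.le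
  have hq0 : (0:ℝ) < q := by
    have := hpq.2.1
    exact_mod_cast (by omega : 0 < q)
  have hp1 : (1:ℝ) ≤ p := by
    rcases hpq.1 with h | h <;> rw [h] <;> norm_num
  have hem : 0 < etam ρ N p q := by
    unfold etam
    positivity
  have hη : 0 < η := hem.trans_le hηm
  have hω : 0 < (p:ℝ) / q := by positivity
  set ω : ℝ := (p:ℝ) / q with hωdef
  have hωle : ω ≤ 1 := hω1.trans (min_le_left _ _)
  have hωD : ω ≤ D0 / D1 := hω1.trans ((min_le_right _ _).trans (min_le_left _ _))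
  have hωK : ω ≤ 1 / (2 * K * D1) := hω1.trans ((min_le_right _ _).trans (min_le_right _ _))
  have hω2 : ω ^ 2 ≤ ω := by nlinarith
  have hω21 : ω ^ 2 ≤ 1 := hω2.trans hωle
  have hω4 : ω ^ 4 ≤ ω ^ 2 := by nlinarith [sq_nonneg ω]
  have hτ2 : τ ^ 2 = ω ^ 2 := by rw [← hτ, sq_abs]
  have hτ0 : τ ≠ 0 := by
    intro h
    rw [h, abs_zero] at hτ
    exact hω.ne hτ
  have cR1 : Continuous R1 := hR1.continuous hρ
  have cR2 : Continuous R2 := hR2.continuous hρ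
  have cR1' : Continuous R1' := hR1'.continuous hρ
  have cR2' : Continuous R2' := hR2'.continuous hρ
  -- the square of the step
  set P : ℝ → ℝ := fun x => (u (x + τ) - u x) / τ with hP
  set P' : ℝ → ℝ := fun x => (u' (x + τ) - u' x) / τ with hP'
  set d : ℝ → ℝ := fun x => u x - u (x + τ) - τ with hd
  set d' : ℝ → ℝ := fun x => u' x - u' (x + τ) - τ with hd'
  have hdP : ∀ x, d x = -τ * (1 + P x) := by
    intro x
    simp only [hd, hP]
    field_simp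
    ring
  have hdP' : ∀ x, d' x = -τ * (1 + P' x) := by
    intro x
    simp only [hd', hP']
    field_simp
    ring
  have cd : Continuous d := by
    simp only [hd]
    fun_prop
  have cd' : Continuous d' := by
    simp only [hd']
    fun_prop
  have hdl1 : DB ρ N η ε (E1 * ω ^ 4) (fun x => d x ^ 2 - ω ^ 2) (fun x => d' x ^ 2 - ω ^ 2) := by
    have h1 := hNP.mul hρ hη hη1 hNP
    have h2 := (hNP.cmul hη 2).add h1
    have h3 := h2.cmul hη (ω ^ 2)
    refine (h3.congr (fun x => ?_) (fun x => ?_)).mono hε0 ?_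
    · rw [hdP x, mul_pow, neg_sq, hτ2]
      ring
    · rw [hdP' x, mul_pow, neg_sq, hτ2]
      ring
    · rw [abs_of_pos (by positivity : (0:ℝ) < ω ^ 2), abs_of_pos (by norm_num : (0:ℝ) < 2)]
      have e1 : ω ^ 2 * (2 * (A1 * ω ^ 2) + 2 * (A1 * ω ^ 2 * (A1 * ω ^ 2))) =
          2 * A1 * ω ^ 4 + 2 * A1 ^ 2 * ω ^ 4 * ω ^ 2 := by ring
      have e2 : 2 * A1 ^ 2 * ω ^ 4 * ω ^ 2 ≤ 2 * A1 ^ 2 * ω ^ 4 * 1 := by
        refine mul_le_mul_of_nonneg_left hω21 (by positivity)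
      rw [e1, hE1]
      linarith
  have hdl : DB ρ N η ε (D1 * ω ^ 2) (fun x => d x ^ 2) (fun x => d' x ^ 2) := by
    have h1 := (DB.const ρ N hη hε0 (by positivity : 0 ≤ ω ^ 2)).add hdl1
    refine (h1.congr (fun x => ?_) (fun x => ?_)).mono hε0 ?_
    · ring
    · ring
    · rw [hD1]
      have : E1 * ω ^ 4 ≤ E1 * ω ^ 2 := mul_le_mul_of_nonneg_left hω4 hE10.le
      linarith
  -- the coefficients
  set a : ℝ → ℝ := fun x => x + τ + u (x + τ) with ha
  set a' : ℝ → ℝ := fun x => x + τ + u' (x + τ) with ha'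
  have ca : Continuous a := by
    simp only [ha]
    fun_prop
  have ca' : Continuous a' := by
    simp only [ha']
    fun_prop
  have hv : ∀ s ∈ Icc (0:ℝ) 1, DB ρ N η ε (A1 * ω ^ 2)
      (fun x => (1 - s) * u (x + τ) + s * u x) (fun x => (1 - s) * u' (x + τ) + s * u' x) := by
    intro s hs
    have h1 := hNu.shift τ
    have h2 := (h1.cmul hη (1 - s)).add (hNu.cmul hη s)
    refine h2.mono hε0 (le_of_eq ?_)
    rw [abs_of_nonneg (by linarith [hs.2]), abs_of_nonneg hs.1]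
    ring
  have harg : ∀ s x, a x + s * d x = x + (1 - s) * τ + ((1 - s) * u (x + τ) + s * u x) := by
    intro s x
    simp only [ha, hd]
    ring
  have harg' : ∀ s x, a' x + s * d' x =
      x + (1 - s) * τ + ((1 - s) * u' (x + τ) + s * u' x) := by
    intro s x
    simp only [ha', hd']
    ring
  have hdiff : ∀ {R R' : ℝ → ℝ}, Dec ρ N A R → Dec ρ N A R' →
      Dec ρ N (ε * A) (fun x => R x - R' x) → ∀ s ∈ Icc (0:ℝ) 1, DB ρ N η ε (C2 * ω ^ 2)
      (fun x => R (a x + s * d x) - R (x + (1 - s) * τ))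
      (fun x => R' (a' x + s * d' x) - R' (x + (1 - s) * τ)) := by
    intro R R' hR hR' hS s hs
    have h1 := hcomp ρ N p q η ε R R' (fun x => (1 - s) * u (x + τ) + s * u x)
      (fun x => (1 - s) * u' (x + τ) + s * u' x) ((1 - s) * τ) hρ hpq hηm
      hη1 hε hR hR' hS (hv s hs)
    refine h1.congr (fun x => ?_) (fun x => ?_)
    · rw [harg s x]
    · rw [harg' s x]
  have hlin : ∀ {R R' : ℝ → ℝ}, Dec ρ N A R → Dec ρ N A R' →
      Dec ρ N (ε * A) (fun x => R x - R' x) → ∀ s : ℝ, DB ρ N η ε (12 * A)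
      (fun x => R (x + (1 - s) * τ)) (fun x => R' (x + (1 - s) * τ)) := by
    intro R R' hR hR' hS s
    refine ⟨(NB.of_Bd hρ hR.bd).shift ((1 - s) * τ), (NB.of_Bd hρ hR'.bd).shift ((1 - s) * τ), ?_⟩
    have h1 := (NB.of_Bd (η := η) hρ hS.bd).shift ((1 - s) * τ)
    exact h1.mono (le_of_eq (by ring))
  have hr : ∀ {R R' : ℝ → ℝ}, Dec ρ N A R → Dec ρ N A R' →
      Dec ρ N (ε * A) (fun x => R x - R' x) → ∀ s ∈ Icc (0:ℝ) 1, DB ρ N η ε (12 * A + C2)
      (fun x => R (a x + s * d x)) (fun x => R' (a' x + s * d' x)) := by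
    intro R R' hR hR' hS s hs
    refine (((hlin hR hR' hS s).add (hdiff hR hR' hS s hs)).congr (fun x => ?_)
      (fun x => ?_)).mono hε0 ?_
    · ring
    · ring
    · have : C2 * ω ^ 2 ≤ C2 * 1 := mul_le_mul_of_nonneg_left hω21 hC2.le
      linarith
  -- the Volterra solutions
  choose y hy hy0 hyr using hrel
  choose y' hy' hy0' hyr' using hrel'
  have hDpos : 0 < D1 * ω ^ 2 := by positivity
  have hDle : D1 * ω ^ 2 ≤ D0 := by
    have h1 : D1 * ω ^ 2 ≤ D1 * ω := mul_le_mul_of_nonneg_left hω2 hD10.le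
    have h2 : D1 * ω ≤ D0 := by
      rw [le_div_iff₀ hD10] at hωD
      linarith
    exact h1.trans h2
  have hKD : K * (D1 * ω ^ 2) ≤ 1 / 2 := by
    have h1 : K * (D1 * ω ^ 2) ≤ K * (D1 * ω) :=
      mul_le_mul_of_nonneg_left (mul_le_mul_of_nonneg_left hω2 hD10.le) hK.le
    have h2 : ω * (2 * K * D1) ≤ 1 := by
      rwa [le_div_iff₀ (by positivity)] at hωK
    linarith
  obtain ⟨v1, v2, v3, v4⟩ := hvolt ρ N η ε (D1 * ω ^ 2) (fun x => d x ^ 2) (fun x => d' x ^ 2)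
    (fun s x => R1 (a x + s * d x)) (fun s x => R2 (a x + s * d x)) y
    (fun s x => R1' (a' x + s * d' x)) (fun s x => R2' (a' x + s * d' x)) y'
    hρ hη hη1 hε0 hDpos hDle hdl (by fun_prop) (by fun_prop) (by fun_prop) (by fun_prop)
    (hr hR1 hR1' hS1) (hr hR2 hR2' hS2) (fun x => (hy x).1) (fun x => (hy' x).1)
    (fun x σ hσ => (hy x).2 σ hσ) (fun x σ hσ => (hy' x).2 σ hσ)
  set X : ℝ → ℝ := fun x => (∫ s in (0:ℝ)..1, y x s) - 1 with hX
  set X' : ℝ → ℝ := fun x => (∫ s in (0:ℝ)..1, y' x s) - 1 with hX'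
  set num : ℝ → ℝ := fun x => y x 1 - 2 * ∫ s in (0:ℝ)..1, y x s with hnumdef
  set num' : ℝ → ℝ := fun x => y' x 1 - 2 * ∫ s in (0:ℝ)..1, y' x s with hnumdef'
  set J : ℝ → ℝ := fun x => (∫ s in (0:ℝ)..1, (2 * s - 1) * s ^ 2 * R1 (a x + s * d x)) +
    ∫ s in (0:ℝ)..1, 2 * s ^ 2 * (1 - s) * R2 (a x + s * d x) with hJ
  set J' : ℝ → ℝ := fun x => (∫ s in (0:ℝ)..1, (2 * s - 1) * s ^ 2 * R1' (a' x + s * d' x)) +
    ∫ s in (0:ℝ)..1, 2 * s ^ 2 * (1 - s) * R2' (a' x + s * d' x) with hJ'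
  set JL : ℝ → ℝ := fun x => (∫ s in (0:ℝ)..1, (2 * s - 1) * s ^ 2 * R1 (x + (1 - s) * τ)) +
    ∫ s in (0:ℝ)..1, 2 * s ^ 2 * (1 - s) * R2 (x + (1 - s) * τ) with hJL
  set JL' : ℝ → ℝ := fun x => (∫ s in (0:ℝ)..1, (2 * s - 1) * s ^ 2 * R1' (x + (1 - s) * τ)) +
    ∫ s in (0:ℝ)..1, 2 * s ^ 2 * (1 - s) * R2' (x + (1 - s) * τ) with hJL'
  have hw1 : ∀ s ∈ Icc (0:ℝ) 1, |(2 * s - 1) * s ^ 2| ≤ 1 := by
    intro s hs
    rw [abs_mul]
    have h1 : |2 * s - 1| ≤ 1 := by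
      rw [abs_le]
      constructor <;> linarith [hs.1, hs.2]
    have h2 : |s ^ 2| ≤ 1 := by
      rw [abs_of_nonneg (sq_nonneg s)]
      nlinarith [hs.1, hs.2]
    exact mul_le_one₀ h1 (abs_nonneg _) h2
  have hw2 : ∀ s ∈ Icc (0:ℝ) 1, |2 * s ^ 2 * (1 - s)| ≤ 1 := by
    intro s hs
    rw [abs_of_nonneg (mul_nonneg (by positivity) (by linarith [hs.2]))]
    have h3 := sq_nonneg (s - 1)
    nlinarith [hs.1, hs.2, mul_nonneg hs.1 (sub_nonneg.2 hs.2), sq_nonneg (s - 1 / 2)]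
  have hwt : ∀ {c M : ℝ} {f f' : ℝ → ℝ}, |c| ≤ 1 → DB ρ N η ε M f f' →
      DB ρ N η ε M (fun x => c * f x) (fun x => c * f' x) := by
    intro c M f f' hc h
    refine (h.cmul hη c).mono hε0 ?_
    exact mul_le_of_le_one_left (h.nonneg hη) hc
  have h01 : (1:ℝ) ∈ Icc (0:ℝ) 1 := ⟨zero_le_one, le_rfl⟩
  have hNJL : DB ρ N η ε (24 * A) JL JL' := by
    have h1 := DB.integral (ρ := ρ) (N := N) (M := 12 * A) hη
      (F := fun s x => (2 * s - 1) * s ^ 2 * R1 (x + (1 - s) * τ))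
      (F' := fun s x => (2 * s - 1) * s ^ 2 * R1' (x + (1 - s) * τ)) h01 hε0
      (by fun_prop) (by fun_prop)
      (fun s hs => hwt (hw1 s hs) (hlin hR1 hR1' hS1 s))
    have h2 := DB.integral (ρ := ρ) (N := N) (M := 12 * A) hη
      (F := fun s x => 2 * s ^ 2 * (1 - s) * R2 (x + (1 - s) * τ))
      (F' := fun s x => 2 * s ^ 2 * (1 - s) * R2' (x + (1 - s) * τ)) h01 hε0
      (by fun_prop) (by fun_prop)
      (fun s hs => hwt (hw2 s hs) (hlin hR2 hR2' hS2 s))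
    exact (h1.add h2).mono hε0 (by linarith)
  have hNJd : DB ρ N η ε (2 * C2 * ω ^ 2) (fun x => J x - JL x) (fun x => J' x - JL' x) := by
    have h1 := DB.integral (ρ := ρ) (N := N) (M := C2 * ω ^ 2) hη
      (F := fun s x => (2 * s - 1) * s ^ 2 * (R1 (a x + s * d x) - R1 (x + (1 - s) * τ)))
      (F' := fun s x => (2 * s - 1) * s ^ 2 * (R1' (a' x + s * d' x) - R1' (x + (1 - s) * τ)))
      h01 hε0 (by fun_prop) (by fun_prop)
      (fun s hs => hwt (hw1 s hs) (hdiff hR1 hR1' hS1 s hs))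
    have h2 := DB.integral (ρ := ρ) (N := N) (M := C2 * ω ^ 2) hη
      (F := fun s x => 2 * s ^ 2 * (1 - s) * (R2 (a x + s * d x) - R2 (x + (1 - s) * τ)))
      (F' := fun s x => 2 * s ^ 2 * (1 - s) * (R2' (a' x + s * d' x) - R2' (x + (1 - s) * τ)))
      h01 hε0 (by fun_prop) (by fun_prop)
      (fun s hs => hwt (hw2 s hs) (hdiff hR2 hR2' hS2 s hs))
    refine ((h1.add h2).congr (fun x => ?_) (fun x => ?_)).mono hε0 (by linarith)
    · simp only [hJ, hJL, mul_sub]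
      rw [intervalIntegral.integral_sub, intervalIntegral.integral_sub]
      · ring
      · exact Continuous.intervalIntegrable (by fun_prop) _ _
      · exact Continuous.intervalIntegrable (by fun_prop) _ _
      · exact Continuous.intervalIntegrable (by fun_prop) _ _
      · exact Continuous.intervalIntegrable (by fun_prop) _ _
    · simp only [hJ', hJL', mul_sub]
      rw [intervalIntegral.integral_sub, intervalIntegral.integral_sub]
      · ring
      · exact Continuous.intervalIntegrable (by fun_prop) _ _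
      · exact Continuous.intervalIntegrable (by fun_prop) _ _
      · exact Continuous.intervalIntegrable (by fun_prop) _ _
      · exact Continuous.intervalIntegrable (by fun_prop) _ _
  have hnum : DB ρ N η ε (3 * K * (D1 * ω ^ 2)) num num' := by
    have h1 := v1.sub hη (v2.cmul hη 2)
    refine (h1.congr (fun x => ?_) (fun x => ?_)).mono hε0 (le_of_eq ?_)
    · simp only [hnumdef, hX]
      ring
    · simp only [hnumdef', hX']
      ring
    · rw [abs_of_pos (by norm_num : (0:ℝ) < 2)]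
      ring
  have hnum2 : DB ρ N η ε (3 * K * (D1 * ω ^ 2) ^ 2) (fun x => num x + d x ^ 2 * J x)
      (fun x => num' x + d' x ^ 2 * J' x) := by
    have h1 := v3.sub hη (v4.cmul hη 2)
    refine (h1.congr (fun x => ?_) (fun x => ?_)).mono hε0 (le_of_eq ?_)
    · have h2 := lin_id (a := fun s => R1 (a x + s * d x)) (b := fun s => R2 (a x + s * d x))
        (by fun_prop) (by fun_prop)
      simp only [hnumdef, hJ]
      rw [← h2]
      ring
    · have h2 := lin_id (a := fun s => R1' (a' x + s * d' x))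
        (b := fun s => R2' (a' x + s * d' x)) (by fun_prop) (by fun_prop)
      simp only [hnumdef', hJ']
      rw [← h2]
      ring
    · rw [abs_of_pos (by norm_num : (0:ℝ) < 2)]
      ring
  have hnum3 : DB ρ N η ε ((3 * K * D1 ^ 2 + 4 * D1 * C2 + 48 * A * E1) * ω ^ 4)
      (fun x => num x + ω ^ 2 * JL x) (fun x => num' x + ω ^ 2 * JL' x) := by
    have h1 := hdl.mul hρ hη hη1 hNJd
    have h2 := hdl1.mul hρ hη hη1 hNJL
    have h3 := hnum2.sub hη (h1.add h2)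
    refine (h3.congr (fun x => ?_) (fun x => ?_)).mono hε0 (le_of_eq ?_)
    · ring
    · ring
    · ring
  have hNI : DB ρ N η ε (4 * (K * (D1 * ω ^ 2))) (fun x => 1 / (1 + X x) - 1)
      (fun x => 1 / (1 + X' x) - 1) := (v2.inv hρ hη hη1 hε0 hKD).2.2
  have hnI := hnum.mul hρ hη hη1 hNI
  have hrx : ∀ x, r x = num x + num x * (1 / (1 + X x) - 1) := by
    intro x
    have h1 : 1 + X x = ∫ s in (0:ℝ)..1, y x s := by
      simp only [hX]
      ring
    rw [hyr x, h1]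
    simp only [hnumdef]
    have := hy0 x
    field_simp
    ring
  have hrx' : ∀ x, r' x = num' x + num' x * (1 / (1 + X' x) - 1) := by
    intro x
    have h1 : 1 + X' x = ∫ s in (0:ℝ)..1, y' x s := by
      simp only [hX']
      ring
    rw [hyr' x, h1]
    simp only [hnumdef']
    have := hy0' x
    field_simp
    ring
  constructor
  · refine ((hnum.add hnI).congr (fun x => (hrx x).symm) (fun x => (hrx' x).symm)).mono hε0 ?_
    have h1 : 2 * (3 * K * (D1 * ω ^ 2) * (4 * (K * (D1 * ω ^ 2)))) ≤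
        24 * K * (D1 * ω ^ 2) * (1 / 2) := by
      have h0 : 24 * K * (D1 * ω ^ 2) * (K * (D1 * ω ^ 2)) ≤ 24 * K * (D1 * ω ^ 2) * (1 / 2) :=
        mul_le_mul_of_nonneg_left hKD (by positivity)
      linarith
    have h2 : 0 ≤ (3 * K * D1 ^ 2 + 4 * D1 * C2 + 48 * A * E1 + 24 * K ^ 2 * D1 ^ 2) * ω ^ 2 := by
      positivity
    have h3 : C * ω ^ 2 = 15 * K * D1 * ω ^ 2 +
        (3 * K * D1 ^ 2 + 4 * D1 * C2 + 48 * A * E1 + 24 * K ^ 2 * D1 ^ 2) * ω ^ 2 := by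
      rw [hCdef]
      ring
    rw [h3]
    linarith
  · refine ((hnum3.add hnI).congr (fun x => ?_) (fun x => ?_)).mono hε0 ?_
    · rw [hrx x, lam_eq cR1 cR2, hτ2]
      ring
    · rw [hrx' x, lam_eq cR1' cR2', hτ2]
      ring
    · have h2 : 0 ≤ 15 * K * D1 * ω ^ 4 := by positivity
      have h3 : C * ω ^ 4 = 15 * K * D1 * ω ^ 4 +
          ((3 * K * D1 ^ 2 + 4 * D1 * C2 + 48 * A * E1) * ω ^ 4 +
            2 * (3 * K * (D1 * ω ^ 2) * (4 * (K * (D1 * ω ^ 2))))) := by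
        rw [hCdef]
        ring
      rw [h3]
      linarith

/-- (6.1) for pairs -/
theorem six_db (A A1 : ℝ) (hA : 0 < A) (hA1 : 0 < A1) :
    ∃ C3 ω1 : ℝ, 0 < C3 ∧ 0 < ω1 ∧ ∀ (ρ : ℝ) (N p q : ℕ) (η ε Cs Cs' : ℝ)
      (R1 R2 u R1' R2' u' : ℝ → ℝ), 0 ≤ ρ → PQ p q → (p:ℝ) / q ≤ ω1 → etam ρ N p q ≤ η → η ≤ 1 →
      0 < ε → Dec ρ N A R1 → Dec ρ N A R2 → Dec ρ N A R1' → Dec ρ N A R2' →
      Dec ρ N (ε * A) (fun x => R1 x - R1' x) → Dec ρ N (ε * A) (fun x => R2 x - R2' x) →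
      Leaf R1 R2 p q Cs u → Leaf R1' R2' p q Cs' u' →
      DB ρ N η ε (A1 * ((p:ℝ) / q) ^ 2) u u' →
      DB ρ N η ε (A1 * ((p:ℝ) / q) ^ 2) (fun x => (u (x + (p:ℝ) / q) - u x) / ((p:ℝ) / q))
        (fun x => (u' (x + (p:ℝ) / q) - u' x) / ((p:ℝ) / q)) →
      DB ρ N η ε (C3 * ((p:ℝ) / q) ^ 5)
        (fun x => u (x + (p:ℝ) / q) - 2 * u x + u (x - (p:ℝ) / q) - RL R1 R2 ((p:ℝ) / q) x)
        (fun x => u' (x + (p:ℝ) / q) - 2 * u' x + u' (x - (p:ℝ) / q) -
          RL R1' R2' ((p:ℝ) / q) x) := by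
  obtain ⟨C, ω1, hC, hω1, hside⟩ := side_db A A1 hA hA1
  refine ⟨C + 2 * (A1 * C), ω1, by positivity, hω1, ?_⟩
  intro ρ N p q η ε Cs Cs' R1 R2 u R1' R2' u' hρ hpq hωle hηm hη1 hε hR1 hR2 hR1' hR2' hS1 hS2
    hL hL' hNu hNP
  have hε0 : 0 ≤ ε := hε.le
  have hq0 : (0:ℝ) < q := by
    have := hpq.2.1
    exact_mod_cast (by omega : 0 < q)
  have hp1 : (1:ℝ) ≤ p := by
    rcases hpq.1 with h | h <;> rw [h] <;> norm_num
  have hem : 0 < etam ρ N p q := by
    unfold etam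
    positivity
  have hη : 0 < η := hem.trans_le hηm
  have hω : 0 < (p:ℝ) / q := by positivity
  choose rm rp hm hp hlaw using hL.law
  choose rm' rp' hm' hp' hlaw' using hL'.law
  have cR1 : Continuous R1 := hR1.continuous hρ
  have cR2 : Continuous R2 := hR2.continuous hρ
  have cR1' : Continuous R1' := hR1'.continuous hρ
  have cR2' : Continuous R2' := hR2'.continuous hρ
  have hNPm : DB ρ N η ε (A1 * ((p:ℝ) / q) ^ 2)
      (fun x => (u x - u (x - (p:ℝ) / q)) / ((p:ℝ) / q))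
      (fun x => (u' x - u' (x - (p:ℝ) / q)) / ((p:ℝ) / q)) := by
    have h1 := hNP.shift (-((p:ℝ) / q))
    refine h1.congr (fun x => ?_) (fun x => ?_)
    · rw [neg_add_cancel_right, ← sub_eq_add_neg]
    · rw [neg_add_cancel_right, ← sub_eq_add_neg]
  obtain ⟨p1, p2⟩ := hside ρ N p q η ε ((p:ℝ) / q) R1 R2 u rp R1' R2' u' rp' hρ hpq hωle hηm hη1
    hε hR1 hR2 hR1' hR2' hS1 hS2 (abs_of_pos hω) hL.cont hL'.cont hNu hNP (fun x => by
      have h1 := hp x
      have h2 : u x - u (x + (p:ℝ) / q) - (p:ℝ) / q =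
        -((p:ℝ) / q + u (x + (p:ℝ) / q) - u x) := by ring
      rw [h2]
      exact h1) (fun x => by
      have h1 := hp' x
      have h2 : u' x - u' (x + (p:ℝ) / q) - (p:ℝ) / q =
        -((p:ℝ) / q + u' (x + (p:ℝ) / q) - u' x) := by ring
      rw [h2]
      exact h1)
  obtain ⟨m1, m2⟩ := hside ρ N p q η ε (-((p:ℝ) / q)) R1 R2 u rm R1' R2' u' rm' hρ hpq hωle hηm
    hη1 hε hR1 hR2 hR1' hR2' hS1 hS2 (by rw [abs_neg, abs_of_pos hω]) hL.cont hL'.cont hNu
    (hNPm.congr (fun x => by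
      rw [← sub_eq_add_neg]
      field_simp
      ring) (fun x => by
      rw [← sub_eq_add_neg]
      field_simp
      ring)) (fun x => by
      have h1 := hm x
      have h2 : u x - u (x + -((p:ℝ) / q)) - -((p:ℝ) / q) =
        (p:ℝ) / q + u x - u (x - (p:ℝ) / q) := by
        rw [← sub_eq_add_neg]
        ring
      rw [h2, ← sub_eq_add_neg]
      exact h1) (fun x => by
      have h1 := hm' x
      have h2 : u' x - u' (x + -((p:ℝ) / q)) - -((p:ℝ) / q) =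
        (p:ℝ) / q + u' x - u' (x - (p:ℝ) / q) := by
        rw [← sub_eq_add_neg]
        ring
      rw [h2, ← sub_eq_add_neg]
      exact h1)
  set ω : ℝ := (p:ℝ) / q with hωdef
  have h1 := p2.sub hη m2
  have h2 := (hNPm.mul hρ hη hη1 p1).sub hη (hNP.mul hρ hη hη1 m1)
  have h3 := (h1.add h2).cmul hη (ω / 2)
  refine (h3.congr (fun x => ?_) (fun x => ?_)).mono hε0 (le_of_eq ?_)
  · rw [RL_eq cR1 cR2, hlaw x]
    field_simp
    ring
  · rw [RL_eq cR1' cR2', hlaw' x]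
    field_simp
    ring
  · rw [abs_of_pos (by positivity)]
    ring

end Pool.Agent.MP_ae5b4e_an_RIG
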