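import Mathlib
import Pool.Agent.Lib.MP_ae5b4e_an_RIG.CDB
import Pool.Agent.Lib.MP_ae5b4e_an_RG.KLem
import Pool.Agent.Lib.MP_ae5b4e_an_RG.Lin

/-!
# MP_ae5b4e_an, project RIG: the linear step for differences

Text: `/team-store/POR_RIG.md`, section 5.
-/

noncomputable section

namespace Pool.Agent.MP_ae5b4e_an_RIG

open Real Set Filter Topology MeasureTheory intervalIntegral
open Pool.Agent.MP_ae5b4e_an_RG

private theorem CStp_w_pos {p q : ℕ} (h : PQ p q) : 0 < (p:ℝ) / q := by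
  obtain ⟨hp, hq, -⟩ := h
  have h1 : (0:ℝ) < p := by
    rcases hp with rfl | rfl <;> norm_num
  have h2 : (0:ℝ) < q := by
    have : 0 < q := by omega
    exact_mod_cast this
  positivity

/-- the linear part of the law is additive -/
private theorem CStp_RL {R1 R2 R1' R2' : ℝ → ℝ} (h1 : Continuous R1) (h2 : Continuous R2)
    (h1' : Continuous R1') (h2' : Continuous R2') (ω x : ℝ) :
    RL (fun x => R1 x - R1' x) (fun x => R2 x - R2' x) ω x =
      RL R1 R2 ω x - RL R1' R2' ω x := by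
  have hc : ∀ {S1 S2 : ℝ → ℝ}, Continuous S1 → Continuous S2 →
      IntervalIntegrable (fun t => K1 t * (S1 (x + t * ω) - S1 (x - t * ω)) +
        K2 t * (S2 (x + t * ω) - S2 (x - t * ω))) volume 0 1 := by
    intro S1 S2 hS1 hS2
    refine Continuous.intervalIntegrable ?_ 0 1
    have k1 : Continuous K1 := by unfold K1; fun_prop
    have k2 : Continuous K2 := by unfold K2; fun_prop
    fun_prop
  unfold RL
  rw [← mul_sub, ← intervalIntegral.integral_sub (hc h1 h2) (hc h1' h2')]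
  congr 1
  refine intervalIntegral.integral_congr fun t _ => ?_
  simp only
  ring

/-- the linear step for one function -/
private theorem CStp_step {ρ : ℝ} {N p q : ℕ} {η E c : ℝ} {w Rw : ℝ → ℝ}
    {g : ℝ → ℂ} (hρ : 0 ≤ ρ) (hpq : PQ p q) (hη : 0 < η) (hη1 : η ≤ 1)
    (hc : Continuous w) (hper : Function.Periodic w 1)
    (horb : ∀ x, ∑ j ∈ Finset.range q, w (x + j * ((p:ℝ) / q)) = 0)
    (hD : NB ρ N η (E * ((p:ℝ) / q) ^ 5)
        (fun x => ((w (x + (p:ℝ) / q) - 2 * w x + w (x - (p:ℝ) / q) - Rw x : ℝ) : ℂ)))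
    (hg1 : Bd ρ N c g)
    (hg2 : Bd ρ N c (fun x => (g (x + (p:ℝ) / q) - g x) / (((p:ℝ) / q : ℝ) : ℂ)))
    (hg3 : ∀ x, ∑ j ∈ Finset.range q, g (x + j * ((p:ℝ) / q)) = 0)
    (hg4 : ∀ x, g (x + (p:ℝ) / q) - 2 * g x + g (x - (p:ℝ) / q) =
        (Rw x : ℂ) - (1 / (q:ℂ)) * ∑ j ∈ Finset.range q, (Rw (x + j * ((p:ℝ) / q)) : ℂ)) :
    NB ρ N η (32 * (E * ((p:ℝ) / q) ^ 3) + 12 * c) (fun x => (w x : ℂ)) ∧
      NB ρ N η (32 * (E * ((p:ℝ) / q) ^ 3) + 12 * c)
        (fun x => (((w (x + (p:ℝ) / q) - w x) / ((p:ℝ) / q) : ℝ) : ℂ)) := by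
  have hw := CStp_w_pos hpq
  have hq : 0 < q := by
    have := hpq.2.1
    omega
  set ω : ℝ := (p:ℝ) / q with hωdef
  have hωc : ((ω : ℝ) : ℂ) ≠ 0 := by
    rw [Ne, Complex.ofReal_eq_zero]
    exact hw.ne'
  set v : ℝ → ℂ := fun x => (w x : ℂ) - g x with hv
  have hvc : Continuous v := (Complex.continuous_ofReal.comp hc).sub (hg1.continuous hρ)
  have hvp : Function.Periodic v 1 := fun x => by
    simp only [hv, hper x, hg1.periodic x]
  have horbC : ∀ x, ∑ j ∈ Finset.range q, ((w (x + j * ω) : ℝ) : ℂ) = 0 := by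
    intro x
    rw [← Complex.ofReal_sum, horb x, Complex.ofReal_zero]
  have hvo : ∀ x, ∑ j ∈ Finset.range q, v (x + j * ω) = 0 := by
    intro x
    simp only [hv, Finset.sum_sub_distrib, horbC x, hg3 x, sub_zero]
  have havg := hD.avg hη hq ω
  have hf := hD.sub hη havg
  have hK := lemmaK (N := N) (f := fun x => v (x + ω) - 2 * v x + v (x - ω)) (M := 2 * (E * ω ^ 5))
    hρ hpq hη hη1 hvc hvp hvo (fun x => rfl) ?_
  · obtain ⟨k1, k2⟩ := hK
    have e1 : 16 / ω ^ 2 * (2 * (E * ω ^ 5)) = 32 * (E * ω ^ 3) := by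
      field_simp
      ring
    rw [← hωdef, e1] at k1 k2
    have b1 : NB ρ N η (12 * c) g := NB.of_Bd hρ hg1
    have b2 : NB ρ N η (12 * c) (fun x => (g (x + ω) - g x) / ((ω : ℝ) : ℂ)) := NB.of_Bd hρ hg2
    have s1 := k1.add b1
    have s2 := k2.add b2
    constructor
    · have e : (fun x => v x + g x) = fun x => (w x : ℂ) := by
        funext x
        simp only [hv]
        ring
      rw [e] at s1
      exact s1
    · have e : (fun x => (v (x + ω) - v x) / ((ω : ℝ) : ℂ) + (g (x + ω) - g x) / ((ω : ℝ) : ℂ)) =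
          fun x => (((w (x + ω) - w x) / ω : ℝ) : ℂ) := by
        funext x
        simp only [hv]
        push_cast
        field_simp
        ring
      rw [e] at s2
      exact s2
  · have e2 : E * ω ^ 5 + E * ω ^ 5 = 2 * (E * ω ^ 5) := by ring
    rw [e2] at hf
    convert hf using 1
    funext x
    have t1 : ∑ j ∈ Finset.range q, ((w (x + j * ω + ω) - 2 * w (x + j * ω) + w (x + j * ω - ω) -
        Rw (x + j * ω) : ℝ) : ℂ) =
        -∑ j ∈ Finset.range q, (Rw (x + j * ω) : ℂ) := by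
      have a1 : ∑ j ∈ Finset.range q, ((w (x + j * ω + ω) : ℝ) : ℂ) = 0 := by
        refine Eq.trans (Finset.sum_congr rfl fun j _ => ?_) (horbC (x + ω))
        rw [add_right_comm]
      have a2 := horbC x
      have a3 : ∑ j ∈ Finset.range q, ((w (x + j * ω - ω) : ℝ) : ℂ) = 0 := by
        refine Eq.trans (Finset.sum_congr rfl fun j _ => ?_) (horbC (x - ω))
        rw [add_sub_right_comm]
      simp only [Complex.ofReal_sub, Complex.ofReal_add, Complex.ofReal_mul,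
        Finset.sum_sub_distrib, Finset.sum_add_distrib, ← Finset.mul_sum, a1, a2, a3]
      simp
    rw [t1]
    have t2 := hg4 x
    simp only [hv]
    push_cast
    linear_combination -t2

/-- the linear step for differences -/
theorem lin_step : ∃ C4 : ℝ, 0 < C4 ∧ ∀ (ρ : ℝ) (N p q : ℕ) (η E d A Cs Cs' : ℝ)
      (R1 R2 u R1' R2' u' : ℝ → ℝ), 0 ≤ ρ → PQ p q → 0 < η → η ≤ 1 → 0 < d →
      Dec ρ N A R1 → Dec ρ N A R2 → Dec ρ N A R1' → Dec ρ N A R2' →
      Dec ρ N d (fun x => R1 x - R1' x) → Dec ρ N d (fun x => R2 x - R2' x) →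
      Leaf R1 R2 p q Cs u → Leaf R1' R2' p q Cs' u' →
      NB ρ N η (E * ((p:ℝ) / q) ^ 5)
        (fun x => ((u (x + (p:ℝ) / q) - 2 * u x + u (x - (p:ℝ) / q) - RL R1 R2 ((p:ℝ) / q) x -
          (u' (x + (p:ℝ) / q) - 2 * u' x + u' (x - (p:ℝ) / q) -
            RL R1' R2' ((p:ℝ) / q) x) : ℝ) : ℂ)) →
      NB ρ N η ((32 * E * ((p:ℝ) / q) + C4 * d) * ((p:ℝ) / q) ^ 2)
        (fun x => ((u x - u' x : ℝ) : ℂ)) ∧
      NB ρ N η ((32 * E * ((p:ℝ) / q) + C4 * d) * ((p:ℝ) / q) ^ 2)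
        (fun x => (((u (x + (p:ℝ) / q) - u x) / ((p:ℝ) / q) -
          (u' (x + (p:ℝ) / q) - u' x) / ((p:ℝ) / q) : ℝ) : ℂ)) := by
  obtain ⟨C4, hC4, hlin⟩ := lemmaLin
  refine ⟨12 * C4, by positivity, ?_⟩
  intro ρ N p q η E d A Cs Cs' R1 R2 u R1' R2' u' hρ hpq hη hη1 hd hR1 hR2 hR1' hR2' hS1 hS2
    hL hL' hD
  obtain ⟨g, hg1, hg2, hg3, hg4⟩ := hlin ρ N p q d _ _ hρ hpq hd hS1 hS2
  have hw := CStp_w_pos hpq
  have hRL : ∀ x, RL (fun x => R1 x - R1' x) (fun x => R2 x - R2' x) ((p:ℝ) / q) x =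
      RL R1 R2 ((p:ℝ) / q) x - RL R1' R2' ((p:ℝ) / q) x := fun x =>
    CStp_RL (hR1.continuous hρ) (hR2.continuous hρ) (hR1'.continuous hρ) (hR2'.continuous hρ) _ x
  have hD' : NB ρ N η (E * ((p:ℝ) / q) ^ 5)
      (fun x => (((u (x + (p:ℝ) / q) - u' (x + (p:ℝ) / q)) - 2 * (u x - u' x) +
        (u (x - (p:ℝ) / q) - u' (x - (p:ℝ) / q)) -
          RL (fun x => R1 x - R1' x) (fun x => R2 x - R2' x) ((p:ℝ) / q) x : ℝ) : ℂ)) := by
    refine Eq.mp ?_ hD
    congr 1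
    funext x
    congr 1
    rw [hRL]
    ring
  have hs := CStp_step (w := fun x => u x - u' x) hρ hpq hη hη1 (hL.cont.sub hL'.cont)
    (fun x => by simp only [hL.per x, hL'.per x])
    (fun x => by simp only [Finset.sum_sub_distrib, hL.orb x, hL'.orb x, sub_zero])
    hD' hg1 hg2 hg3 hg4
  have e1 : 32 * (E * ((p:ℝ) / q) ^ 3) + 12 * (C4 * d * ((p:ℝ) / q) ^ 2) =
      (32 * E * ((p:ℝ) / q) + 12 * C4 * d) * ((p:ℝ) / q) ^ 2 := by ring
  rw [e1] at hs
  refine ⟨hs.1, ?_⟩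
  refine Eq.mp ?_ hs.2
  congr 1
  funext x
  congr 1
  ring

end Pool.Agent.MP_ae5b4e_an_RIG
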