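import Mathlib
import Pool.Agent.Lib.MP_ae5b4e_an_RIG.CSix
import Pool.Agent.Lib.MP_ae5b4e_an_RIG.CStp
import Pool.Agent.Lib.MP_ae5b4e_an_RG.Desc

/-!
# MP_ae5b4e_an, project RIG: absorption

Text: `/team-store/POR_RIG.md`, section 6.
-/

noncomputable section

namespace Pool.Agent.MP_ae5b4e_an_RIG

open Real Set Filter Topology MeasureTheory intervalIntegral
open Pool.Agent.MP_ae5b4e_an_RG

private theorem CAbs_w_pos {p q : ℕ} (h : PQ p q) : 0 < (p:ℝ) / q := by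
  obtain ⟨hp, hq, -⟩ := h
  have h1 : (0:ℝ) < p := by
    rcases hp with rfl | rfl <;> norm_num
  have h2 : (0:ℝ) < q := by
    have : 0 < q := by omega
    exact_mod_cast this
  positivity

private theorem CAbs_etam_pos {ρ : ℝ} {N p q : ℕ} (h : PQ p q) : 0 < etam ρ N p q := by
  have := CAbs_w_pos h
  unfold etam
  positivity

/-- The leaves depend in a Lipschitz way on the coefficients. -/
theorem absorb (A Cs : ℝ) (hA : 1 ≤ A) (hCs : 0 ≤ Cs) :
    ∃ C6 ω3 : ℝ, 0 < C6 ∧ 0 < ω3 ∧ ∀ (ρ : ℝ) (N p q : ℕ) (d : ℝ)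
      (R1 R2 u R1' R2' u' : ℝ → ℝ), 0 ≤ ρ → PQ p q → (p:ℝ) / q ≤ ω3 → 0 < d →
      Dec ρ N A R1 → Dec ρ N A R2 → Dec ρ N A R1' → Dec ρ N A R2' →
      Dec ρ N d (fun x => R1 x - R1' x) → Dec ρ N d (fun x => R2 x - R2' x) →
      Leaf R1 R2 p q Cs u → Leaf R1' R2' p q Cs u' →
      ∃ η, etam ρ N p q ≤ η ∧ η ≤ 2 * etam ρ N p q ∧ η ≤ 1 ∧
      NB ρ N η (C6 * d * ((p:ℝ) / q) ^ 5)
        (fun x => ((u (x + (p:ℝ) / q) - 2 * u x + u (x - (p:ℝ) / q) - RL R1 R2 ((p:ℝ) / q) x -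
          (u' (x + (p:ℝ) / q) - 2 * u' x + u' (x - (p:ℝ) / q) -
            RL R1' R2' ((p:ℝ) / q) x) : ℝ) : ℂ)) := by
  obtain ⟨A1, ω2, hA1, hω2, hdes⟩ := descent A Cs hA hCs
  have hA0 : 0 < A := by linarith
  obtain ⟨C3, ω1, hC3, hω1, hsix⟩ := six_db A A1 hA0 hA1
  obtain ⟨C4, hC4, hlin⟩ := lin_step
  obtain ⟨C7, hC7d⟩ : ∃ C7 : ℝ, C7 = 32 * C3 / A + C4 := ⟨_, rfl⟩
  have hC7 : 0 < C7 := by
    rw [hC7d]
    positivity
  refine ⟨C3 * (1 / A + 2 * C7 / A1), min (min ω1 ω2) (min 1 (A1 / (64 * C3))), by positivity,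
    lt_min (lt_min hω1 hω2) (lt_min one_pos (by positivity)), ?_⟩
  intro ρ N p q d R1 R2 u R1' R2' u' hρ hpq hω hd hR1 hR2 hR1' hR2' hS1 hS2 hL hL'
  have hw := CAbs_w_pos hpq
  have hem := CAbs_etam_pos (ρ := ρ) (N := N) hpq
  have hωa : (p:ℝ) / q ≤ ω1 := hω.trans ((min_le_left _ _).trans (min_le_left _ _))
  have hωb : (p:ℝ) / q ≤ ω2 := hω.trans ((min_le_left _ _).trans (min_le_right _ _))
  have hωc : (p:ℝ) / q ≤ 1 := hω.trans ((min_le_right _ _).trans (min_le_left _ _))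
  have hωd : (p:ℝ) / q ≤ A1 / (64 * C3) := hω.trans ((min_le_right _ _).trans (min_le_right _ _))
  obtain ⟨η₁, a1, a2, a3, a4, a5⟩ := hdes ρ N p q R1 R2 u hρ hpq hωb hR1 hR2 hL
  obtain ⟨η₂, b1, b2, b3, b4, b5⟩ := hdes ρ N p q R1' R2' u' hρ hpq hωb hR1' hR2' hL'
  obtain ⟨η, hηd⟩ : ∃ η : ℝ, η = max η₁ η₂ := ⟨_, rfl⟩
  have hη1 : η₁ ≤ η := by
    rw [hηd]
    exact le_max_left _ _
  have hη2 : η₂ ≤ η := by
    rw [hηd]
    exact le_max_right _ _
  have hηm : etam ρ N p q ≤ η := a1.trans hη1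
  have hη : 0 < η := hem.trans_le hηm
  have hηle : η ≤ 1 := by
    rw [hηd]
    exact max_le a3 b3
  have c4 := NB.mono_eta (hem.trans_le a1) hη1 a4
  have c5 := NB.mono_eta (hem.trans_le a1) hη1 a5
  have d4 := NB.mono_eta (hem.trans_le b1) hη2 b4
  have d5 := NB.mono_eta (hem.trans_le b1) hη2 b5
  obtain ⟨ω, hωe⟩ : ∃ ω : ℝ, ω = (p:ℝ) / q := ⟨_, rfl⟩
  rw [← hωe] at c4 c5 d4 d5 hw hωc hωd
  -- the two differences
  obtain ⟨X, hX⟩ : ∃ X : ℝ → Prop, X = fun D =>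
      NB ρ N η (D * ω ^ 2) (fun x => ((u x - u' x : ℝ) : ℂ)) ∧
      NB ρ N η (D * ω ^ 2) (fun x => (((u (x + ω) - u x) / ω - (u' (x + ω) - u' x) / ω : ℝ) : ℂ)) :=
    ⟨_, rfl⟩
  have hXm : ∀ D D' : ℝ, D ≤ D' → X D → X D' := by
    intro D D' hDD hXD
    rw [hX] at hXD ⊢
    have h1 : D * ω ^ 2 ≤ D' * ω ^ 2 := mul_le_mul_of_nonneg_right hDD (by positivity)
    exact ⟨hXD.1.mono h1, hXD.2.mono h1⟩
  have hX0 : X (2 * A1) := by
    rw [hX]
    have h1 := c4.sub hη d4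
    have h2 := c5.sub hη d5
    have e0 : A1 * ω ^ 2 + A1 * ω ^ 2 = 2 * A1 * ω ^ 2 := by ring
    rw [e0] at h1 h2
    constructor
    · simpa only [Complex.ofReal_sub] using h1
    · simpa only [Complex.ofReal_sub] using h2
  have hsixX : ∀ D : ℝ, 0 < D → X D → NB ρ N η ((d / A + D / A1) * C3 * ω ^ 5)
      (fun x => ((u (x + ω) - 2 * u x + u (x - ω) - RL R1 R2 ω x -
          (u' (x + ω) - 2 * u' x + u' (x - ω) - RL R1' R2' ω x) : ℝ) : ℂ)) := by
    intro D hD hXD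
    rw [hX] at hXD
    have hε : 0 < d / A + D / A1 := by positivity
    have hε1 : d ≤ (d / A + D / A1) * A := by
      rw [add_mul, div_mul_cancel₀ _ hA0.ne']
      have : 0 ≤ D / A1 * A := by positivity
      linarith
    have hε2 : D ≤ (d / A + D / A1) * A1 := by
      rw [add_mul, div_mul_cancel₀ _ hA1.ne']
      have : 0 ≤ d / A * A1 := by positivity
      linarith
    have hε3 : D * ω ^ 2 ≤ (d / A + D / A1) * (A1 * ω ^ 2) := by
      rw [← mul_assoc]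
      exact mul_le_mul_of_nonneg_right hε2 (by positivity)
    have h1 := hsix ρ N p q η (d / A + D / A1) Cs Cs R1 R2 u R1' R2' u' hρ hpq hωa hηm hηle hε
      hR1 hR2 hR1' hR2' (Dec.mono hS1 hε1) (Dec.mono hS2 hε1) hL hL'
    rw [← hωe] at h1
    have h2 := h1 ⟨c4, d4, hXD.1.mono hε3⟩ ⟨c5, d5, hXD.2.mono hε3⟩
    refine h2.2.2.mono (le_of_eq ?_)
    ring
  have hstep : ∀ D : ℝ, 0 < D → X D → X (C7 * d + D / 2) := by
    intro D hD hXD
    have h1 := hsixX D hD hXD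
    have h2 := hlin ρ N p q η ((d / A + D / A1) * C3) d A Cs Cs R1 R2 u R1' R2' u' hρ hpq hη hηle
      hd hR1 hR2 hR1' hR2' hS1 hS2 hL hL'
    rw [← hωe] at h2
    have h3 := h2 h1
    refine hXm (32 * ((d / A + D / A1) * C3) * ω + C4 * d) _ ?_ ?_
    · have k1 : 32 * C3 * (d / A) * ω ≤ 32 * C3 * (d / A) * 1 :=
        mul_le_mul_of_nonneg_left hωc (by positivity)
      have k2 : 32 * C3 * (D / A1) * ω ≤ 32 * C3 * (D / A1) * (A1 / (64 * C3)) :=
        mul_le_mul_of_nonneg_left hωd (by positivity)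
      have k3 : 32 * C3 * (D / A1) * (A1 / (64 * C3)) = D / 2 := by
        field_simp
        ring
      rw [k3] at k2
      have k4 : C7 * d = 32 * C3 * (d / A) + C4 * d := by
        rw [hC7d]
        ring
      have k5 : 32 * ((d / A + D / A1) * C3) * ω + C4 * d =
          32 * C3 * (d / A) * ω + 32 * C3 * (D / A1) * ω + C4 * d := by ring
      rw [k4, k5]
      linarith
    · rw [hX]
      exact h3
  have hind : ∀ n : ℕ, X (2 * C7 * d + 2 * A1 / 2 ^ n) := by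
    intro n
    induction n with
    | zero =>
      refine hXm (2 * A1) _ ?_ hX0
      rw [pow_zero, div_one]
      have : 0 ≤ 2 * C7 * d := by positivity
      linarith
    | succ n ih =>
      have h1 := hstep _ (by positivity) ih
      refine hXm _ _ (le_of_eq ?_) h1
      rw [pow_succ]
      field_simp
      ring
  have hXlim : X (2 * C7 * d) := by
    have hn : ∀ δ : ℝ, 0 < δ → ∃ n : ℕ, 2 * A1 / 2 ^ n * ω ^ 2 ≤ δ := by
      intro δ hδ
      obtain ⟨n, hn⟩ := exists_pow_lt_of_lt_one (show 0 < δ / (2 * A1 * ω ^ 2) by positivity)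
        (show (1 / 2 : ℝ) < 1 by norm_num)
      refine ⟨n, ?_⟩
      rw [lt_div_iff₀ (by positivity)] at hn
      have e1 : 2 * A1 / 2 ^ n * ω ^ 2 = (1 / 2) ^ n * (2 * A1 * ω ^ 2) := by
        rw [one_div, inv_pow]
        ring
      rw [e1]
      exact hn.le
    rw [hX]
    constructor
    · refine NB.closed fun δ hδ => ?_
      obtain ⟨n, hn⟩ := hn δ hδ
      have h1 := hind n
      rw [hX] at h1
      refine h1.1.mono ?_
      rw [add_mul]
      linarith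
    · refine NB.closed fun δ hδ => ?_
      obtain ⟨n, hn⟩ := hn δ hδ
      have h1 := hind n
      rw [hX] at h1
      refine h1.2.mono ?_
      rw [add_mul]
      linarith
  refine ⟨η, hηm, ?_, hηle, ?_⟩
  · rw [hηd]
    exact max_le a2 b2
  · have h1 := hsixX (2 * C7 * d) (by positivity) hXlim
    rw [← hωe]
    refine h1.mono (le_of_eq ?_)
    ring

end Pool.Agent.MP_ae5b4e_an_RIG
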