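import Mathlib
import Pool.Agent.Lib.MP_ae5b4e_an_RIG.CAbs
import Pool.Agent.Lib.MP_ae5b4e_an_RG.LinK

/-!
# MP_ae5b4e_an, project RIG: the key estimate for differences

Text: `/team-store/POR_RIG.md`, section 7.
-/

noncomputable section

namespace Pool.Agent.MP_ae5b4e_an_RIG

open Real Set Filter Topology MeasureTheory intervalIntegral
open Pool.Agent.MP_ae5b4e_an_RG

/-- shift of Fourier coefficients -/
private lemma cke_fc_shift {f : ℝ → ℂ} (hp : Function.Periodic f 1) (y : ℝ) (k : ℤ) :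
    fc (fun x => f (x + y)) k = e k y * fc f k := by
  unfold fc
  have h1 : ∀ x, f (x + y) * e (-k) x = e k y * (f (x + y) * e (-k) (x + y)) := by
    intro x
    have h2 : e (-k) (x + y) = e (-k) x * e (-k) y := e_shift _ _ _
    have h3 : e k y * e (-k) y = 1 := by
      rw [← e_add, add_neg_cancel, e_zero]
    rw [h2]
    linear_combination (-(f (x + y) * e (-k) x)) * h3
  simp only [h1]
  rw [intervalIntegral.integral_const_mul]
  congr 1
  have h4 : ∫ x in (0:ℝ)..1, f (x + y) * e (-k) (x + y) =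
      ∫ x in (0 + y)..(1 + y), f x * e (-k) x :=
    intervalIntegral.integral_comp_add_right (fun x => f x * e (-k) x) y
  rw [h4, zero_add, add_comm (1:ℝ) y]
  have h5 : Function.Periodic (fun x => f x * e (-k) x) 1 := hp.mul (periodic_e (-k))
  have h6 := h5.intervalIntegral_add_eq y 0
  rw [zero_add] at h6
  exact h6

private lemma cke_fc_conj (R : ℝ → ℝ) (k : ℤ) : ‖rc R (-k)‖ = ‖rc R k‖ := by
  have h1 : rc R (-k) = (starRingEnd ℂ) (rc R k) := by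
    unfold rc fc
    rw [← intervalIntegral.intervalIntegral_conj]
    congr 1
    funext x
    rw [map_mul, Complex.conj_ofReal]
    congr 1
    unfold e
    rw [← Complex.exp_conj]
    congr 1
    simp only [map_mul, Complex.conj_ofReal, Complex.conj_I, map_ofNat, map_intCast]
    push_cast
    ring
  rw [h1, Complex.norm_conj]

/-- the integrals of the kernels -/
private def cke_a (P : ℕ) : ℝ := -(1 / (2 * π * P)) + 12 / (2 * π * P) ^ 3
private def cke_b (P : ℕ) : ℝ := -(12 / (2 * π * P) ^ 3)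
private def cke_D : ℝ := cke_a 1 * cke_b 2 - cke_a 2 * cke_b 1

private lemma cke_D_ne : cke_D ≠ 0 := by
  have hpi := Real.pi_pos
  have h : cke_D = -(9 / (32 * π ^ 4)) * 1 := by
    unfold cke_D cke_a cke_b
    push_cast
    field_simp
    ring
  rw [h]
  have : 0 < 9 / (32 * π ^ 4) := by positivity
  intro h0
  linarith

private lemma cke_rc_sub {R R' : ℝ → ℝ} (hR : Continuous R) (hR' : Continuous R') (k : ℤ) :
    rc (fun x => R x - R' x) k = rc R k - rc R' k := by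
  have hce : Continuous (e (-k)) := continuous_e _
  have i1 : IntervalIntegrable (fun x => (R x : ℂ) * e (-k) x) volume 0 1 :=
    ((Complex.continuous_ofReal.comp hR).mul hce).intervalIntegrable _ _
  have i2 : IntervalIntegrable (fun x => (R' x : ℂ) * e (-k) x) volume 0 1 :=
    ((Complex.continuous_ofReal.comp hR').mul hce).intervalIntegrable _ _
  unfold rc fc
  rw [← intervalIntegral.integral_sub i1 i2]
  refine intervalIntegral.integral_congr fun x _ => ?_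
  push_cast
  ring

private lemma cke_split {u G : ℝ → ℝ} (hu : Continuous u) (hp : Function.Periodic u 1)
    (hG : Continuous G) {ω : ℝ} {n : ℤ} (hen : e n ω = 1) (hen' : e n (-ω) = 1) :
    rc (fun x => u (x + ω) - 2 * u x + u (x - ω) - G x) n = - rc G n := by
  have hucont : Continuous fun x => (u x : ℂ) := Complex.continuous_ofReal.comp hu
  have hucper : Function.Periodic (fun x => (u x : ℂ)) 1 := fun x => by
    simp only [hp x]
  have hce : Continuous (e (-n)) := continuous_e _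
  have i1 : IntervalIntegrable (fun x => (u (x + ω) : ℂ) * e (-n) x) volume 0 1 :=
    ((hucont.comp (continuous_id.add continuous_const)).mul hce).intervalIntegrable _ _
  have i2 : IntervalIntegrable (fun x => (u x : ℂ) * e (-n) x) volume 0 1 :=
    (hucont.mul hce).intervalIntegrable _ _
  have i3 : IntervalIntegrable (fun x => (u (x + -ω) : ℂ) * e (-n) x) volume 0 1 :=
    ((hucont.comp (continuous_id.add continuous_const)).mul hce).intervalIntegrable _ _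
  have i4 : IntervalIntegrable (fun x => (G x : ℂ) * e (-n) x) volume 0 1 :=
    ((Complex.continuous_ofReal.comp hG).mul hce).intervalIntegrable _ _
  have s1 := cke_fc_shift hucper ω n
  have s2 := cke_fc_shift hucper (-ω) n
  rw [hen, one_mul] at s1
  rw [hen', one_mul] at s2
  unfold fc at s1 s2
  unfold rc fc
  have h1 : ∀ x, ((u (x + ω) - 2 * u x + u (x - ω) - G x : ℝ) : ℂ) * e (-n) x =
      ((u (x + ω) : ℂ) * e (-n) x - 2 * ((u x : ℂ) * e (-n) x)) +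
        (u (x + -ω) : ℂ) * e (-n) x - (G x : ℂ) * e (-n) x := by
    intro x
    rw [← sub_eq_add_neg]
    push_cast
    ring
  simp only [h1]
  rw [intervalIntegral.integral_sub ((i1.sub (i2.const_mul 2)).add i3) i4,
    intervalIntegral.integral_add (i1.sub (i2.const_mul 2)) i3,
    intervalIntegral.integral_sub i1 (i2.const_mul 2), intervalIntegral.integral_const_mul,
    s1, s2]
  ring

private lemma cke_cont {u G : ℝ → ℝ} (hu : Continuous u) (hG : Continuous G) (ω : ℝ) :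
    Continuous fun x => u (x + ω) - 2 * u x + u (x - ω) - G x := by
  have h1 : Continuous fun x => u (x + ω) := hu.comp (continuous_id.add continuous_const)
  have h2 : Continuous fun x => u (x - ω) := hu.comp (continuous_id.sub continuous_const)
  exact (((h1.sub (continuous_const.mul hu)).add h2).sub hG)

/-- the estimate for one of the two rotation numbers -/
private lemma cke_one (A Cs : ℝ) (q0 : ℕ) (hA : 1 ≤ A) (hCs : 0 ≤ Cs) :
    ∃ (Q0 : ℕ) (C : ℝ), 0 < C ∧ 1 ≤ Q0 ∧ ∀ (ρ : ℝ) (N : ℕ) (d : ℝ) (R1 R2 R1' R2' : ℝ → ℝ),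
      0 ≤ ρ → 0 < d → Dec ρ N A R1 → Dec ρ N A R2 → Dec ρ N A R1' → Dec ρ N A R2' →
      Dec ρ N d (fun x => R1 x - R1' x) → Dec ρ N d (fun x => R2 x - R2' x) →
      (∀ p q : ℕ, PQ p q → q0 ≤ q → ∃ u, Leaf R1 R2 p q Cs u) →
      (∀ p q : ℕ, PQ p q → q0 ≤ q → ∃ u, Leaf R1' R2' p q Cs u) →
      ∀ n : ℕ, Q0 ≤ n → ∀ P : ℕ, (P = 1 ∨ P = 2) →
        ‖rc (fun x => R1 x - R1' x) n * ((cke_a P : ℝ) : ℂ) +
          rc (fun x => R2 x - R2' x) n * ((cke_b P : ℝ) : ℂ)‖ ≤ C * d / (n * V ρ N 3 n) := by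
  obtain ⟨C6, ω1, hC6, hω1, habs⟩ := absorb A Cs hA hCs
  obtain ⟨n1, hn1⟩ := exists_nat_gt (2 / ω1)
  refine ⟨n1 + 2 * q0 + 4, 264 * C6, by positivity, by omega, ?_⟩
  intro ρ N d R1 R2 R1' R2' hρ hd hR1 hR2 hR1' hR2' hS1 hS2 hleaf hleaf' n hn P hP
  have hn0 : 0 < n := by omega
  have hnR : (0:ℝ) < n := Nat.cast_pos.2 hn0
  have hn4 : (4:ℝ) ≤ n := by exact_mod_cast (by omega : 4 ≤ n)
  have hPR : (0:ℝ) < P ∧ (P:ℝ) ≤ 2 := by rcases hP with h | h <;> subst h <;> norm_num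
  -- the reduced fraction
  obtain ⟨p, q, hpq, hq, hfrac⟩ : ∃ p q : ℕ, PQ p q ∧ n ≤ 2 * q ∧ (p:ℝ) / q = (P:ℝ) / n := by
    rcases hP with h | h
    · subst h
      exact ⟨1, n, ⟨Or.inl rfl, by omega, Nat.coprime_one_left n⟩, by omega, rfl⟩
    · subst h
      rcases Nat.even_or_odd' n with ⟨m, hm | hm⟩
      · refine ⟨1, m, ⟨Or.inl rfl, by omega, Nat.coprime_one_left m⟩, by omega, ?_⟩
        rw [hm]
        push_cast
        have : (m:ℝ) ≠ 0 := by
          have : m ≠ 0 := by omega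
          exact_mod_cast this
        field_simp
      · refine ⟨2, n, ⟨Or.inr rfl, by omega, ?_⟩, by omega, rfl⟩
        rw [Nat.coprime_comm, Nat.coprime_two_right]
        exact ⟨m, hm⟩
  have hq0 : q0 ≤ q := by omega
  have hqR : (0:ℝ) < q := Nat.cast_pos.2 (by omega)
  obtain ⟨ω, hω⟩ : ∃ ω : ℝ, ω = (p:ℝ) / q := ⟨_, rfl⟩
  have hωP : ω = (P:ℝ) / n := hω.trans hfrac
  have hω0 : 0 < ω := by rw [hωP]; exact div_pos hPR.1 hnR
  have hω2n : ω ≤ 2 / n := by rw [hωP]; gcongr; exact hPR.2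
  have hωω1 : ω ≤ ω1 := by
    refine hω2n.trans ?_
    rw [div_le_iff₀ hnR]
    have h1 : 2 / ω1 < n := hn1.trans_le (by exact_mod_cast (by omega : n1 ≤ n))
    rw [div_lt_iff₀ hω1] at h1
    linarith
  obtain ⟨u, hu⟩ := hleaf p q hpq hq0
  obtain ⟨u', hu'⟩ := hleaf' p q hpq hq0
  obtain ⟨η, hη1, hη2, hη3, h6⟩ := habs ρ N p q d R1 R2 u R1' R2' u' hρ hpq
    (hω ▸ hωω1) hd hR1 hR2 hR1' hR2' hS1 hS2 hu hu'
  have hetam : 0 < etam ρ N p q := by
    unfold etam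
    rw [← hω]
    positivity
  have hη0 : 0 < η := hetam.trans_le hη1
  rw [← hω] at h6
  have hV2 : 0 < V ρ N 2 n := V_pos _ _ _ _
  have hV3 : 0 < V ρ N 3 n := V_pos _ _ _ _
  have hV32 : V ρ N 3 n = (1 + (n:ℝ)) * V ρ N 2 n := by
    have := V_succ (ρ := ρ) (N := N) (b := 2) (n : ℤ)
    rw [this]
    congr 2
    rw [Int.cast_natCast, abs_of_pos hnR]
  -- the bound for eta
  have hetab : etam ρ N p q ≤ 16 / V ρ N 2 n := by
    have h1 : (n:ℝ) ≤ (q:ℝ) ^ 2 := by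
      have h2 : (n:ℝ) ≤ 2 * q := by exact_mod_cast hq
      nlinarith
    have h3 : Real.exp (-(ρ * min ((q:ℝ) ^ 2) (N:ℝ))) ≤ (w ρ N n)⁻¹ := by
      unfold w
      rw [← Real.exp_neg]
      apply Real.exp_le_exp.2
      apply neg_le_neg
      apply mul_le_mul_of_nonneg_left _ hρ
      rw [Int.cast_natCast, abs_of_pos hnR]
      exact min_le_min_right _ h1
    have h4 : ω ^ 2 ≤ 16 / (1 + (n:ℝ)) ^ 2 := by
      have h5 : ω ^ 2 ≤ (2 / n) ^ 2 := pow_le_pow_left₀ hω0.le hω2n 2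
      refine h5.trans ?_
      rw [div_pow, div_le_div_iff₀ (by positivity) (by positivity)]
      nlinarith
    have h5 : V ρ N 2 n = (1 + (n:ℝ)) ^ 2 * w ρ N n := by
      unfold V
      rw [Int.cast_natCast, abs_of_pos hnR]
    rw [h5]
    have hw : 0 < w ρ N n := w_pos _ _ _
    unfold etam
    rw [← hω]
    calc ω ^ 2 * Real.exp (-(ρ * min ((q:ℝ) ^ 2) (N:ℝ)))
        ≤ (16 / (1 + (n:ℝ)) ^ 2) * (w ρ N n)⁻¹ := by gcongr
      _ = 16 / ((1 + (n:ℝ)) ^ 2 * w ρ N n) := by field_simp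
  have hηb : η ≤ 32 / V ρ N 2 n := by
    calc η ≤ 2 * etam ρ N p q := hη2
      _ ≤ 2 * (16 / V ρ N 2 n) := by gcongr
      _ = 32 / V ρ N 2 n := by ring
  -- Fourier coefficient of the difference
  have hcR1 := hR1.continuous hρ
  have hcR2 := hR2.continuous hρ
  have hcRL := continuous_RL hcR1 hcR2 ω
  have hcR1' := hR1'.continuous hρ
  have hcR2' := hR2'.continuous hρ
  have hcRL' := continuous_RL hcR1' hcR2' ω
  have hcoef := NB.coeff hρ hη0 h6 (n : ℤ)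
  have hen : e (n : ℤ) ω = 1 := by
    unfold e
    have h1 : 2 * (π:ℂ) * Complex.I * ((n : ℤ) : ℂ) * (ω : ℂ) = (P : ℂ) * (2 * π * Complex.I) := by
      rw [hωP]
      push_cast
      have : (n : ℂ) ≠ 0 := by exact_mod_cast hn0.ne'
      field_simp
    rw [h1]
    have := Complex.exp_nat_mul_two_pi_mul_I P
    exact this
  have hen' : e (n : ℤ) (-ω) = 1 := by
    have h1 : e (n : ℤ) (ω + -ω) = e (n : ℤ) ω * e (n : ℤ) (-ω) := e_shift _ _ _
    rw [add_neg_cancel, hen, one_mul] at h1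
    rw [← h1]
    unfold e
    simp
  have hsplit : fc (fun x => ((u (x + ω) - 2 * u x + u (x - ω) - RL R1 R2 ω x -
      (u' (x + ω) - 2 * u' x + u' (x - ω) - RL R1' R2' ω x) : ℝ) : ℂ)) n =
      - (rc (RL R1 R2 ω) n - rc (RL R1' R2' ω) n) := by
    have h1 := cke_rc_sub (cke_cont hu.cont hcRL ω) (cke_cont hu'.cont hcRL' ω) (n : ℤ)
    rw [cke_split hu.cont hu.per hcRL hen hen', cke_split hu'.cont hu'.per hcRL' hen hen'] at h1
    refine h1.trans ?_
    ring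
  rw [hsplit, norm_neg] at hcoef
  have hb1 : ‖rc (RL R1 R2 ω) n - rc (RL R1' R2' ω) n‖ ≤
      C6 * d * ω ^ 5 * (33 / V ρ N 2 n) := by
    refine hcoef.trans ?_
    apply mul_le_mul_of_nonneg_left _ (by positivity)
    calc 1 / V ρ N 2 n + η ≤ 1 / V ρ N 2 n + 32 / V ρ N 2 n := by gcongr
      _ = 33 / V ρ N 2 n := by ring
  -- the linear part
  have hrc := rc_RL hcR1 hcR2 hR1.periodic hR2.periodic ω (n : ℤ)
  have hrc' := rc_RL hcR1' hcR2' hR1'.periodic hR2'.periodic ω (n : ℤ)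
  have hP1 : 1 ≤ P := by rcases hP with h | h <;> omega
  have harg : ∀ t : ℝ, 2 * π * ((n : ℤ) : ℝ) * ω * t = 2 * π * P * t := by
    intro t
    rw [hωP]
    push_cast
    field_simp
  simp only [harg] at hrc hrc'
  rw [K1_sin P hP1, K2_sin P hP1] at hrc hrc'
  have hdiff : rc (RL R1 R2 ω) n - rc (RL R1' R2' ω) n = Complex.I * (ω:ℂ) ^ 3 *
      (rc (fun x => R1 x - R1' x) n * ((cke_a P : ℝ) : ℂ) +
        rc (fun x => R2 x - R2' x) n * ((cke_b P : ℝ) : ℂ)) := by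
    rw [hrc, hrc', cke_rc_sub hcR1 hcR1' (n : ℤ), cke_rc_sub hcR2 hcR2' (n : ℤ)]
    unfold cke_a cke_b
    ring
  have hnorm : ‖rc (RL R1 R2 ω) n - rc (RL R1' R2' ω) n‖ = ω ^ 3 *
      ‖rc (fun x => R1 x - R1' x) n * ((cke_a P : ℝ) : ℂ) +
        rc (fun x => R2 x - R2' x) n * ((cke_b P : ℝ) : ℂ)‖ := by
    rw [hdiff, norm_mul, norm_mul, Complex.norm_I, one_mul, norm_pow, Complex.norm_real,
      Real.norm_eq_abs, abs_of_pos hω0]
  rw [hnorm] at hb1
  have hω3 : 0 < ω ^ 3 := by positivity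
  have hb2 : ‖rc (fun x => R1 x - R1' x) n * ((cke_a P : ℝ) : ℂ) +
      rc (fun x => R2 x - R2' x) n * ((cke_b P : ℝ) : ℂ)‖ ≤
      C6 * d * ω ^ 2 * (33 / V ρ N 2 n) := by
    have h1 : C6 * d * ω ^ 5 * (33 / V ρ N 2 n) =
        ω ^ 3 * (C6 * d * ω ^ 2 * (33 / V ρ N 2 n)) := by ring
    rw [h1] at hb1
    exact le_of_mul_le_mul_left hb1 hω3
  refine hb2.trans ?_
  have h5 : ω ^ 2 ≤ (2 / n) ^ 2 := pow_le_pow_left₀ hω0.le hω2n 2
  rw [hV32]
  calc C6 * d * ω ^ 2 * (33 / V ρ N 2 n) ≤ C6 * d * (2 / n) ^ 2 * (33 / V ρ N 2 n) := by gcongr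
    _ = (132 * C6 * d) / (n ^ 2 * V ρ N 2 n) := by field_simp; ring
    _ ≤ 264 * C6 * d / (n * ((1 + n) * V ρ N 2 n)) := by
      rw [div_le_div_iff₀ (by positivity) (by positivity)]
      have h6 : (1 + (n:ℝ)) ≤ 2 * n := by linarith only [hn4]
      have h7 : 0 ≤ 132 * C6 * d * (n * V ρ N 2 n) := by positivity
      have h8 := mul_le_mul_of_nonneg_left h6 h7
      have h9 : 132 * C6 * d * (n * V ρ N 2 n) * (1 + n) =
          132 * C6 * d * (n * ((1 + n) * V ρ N 2 n)) := by ring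
      have h10 : 132 * C6 * d * (n * V ρ N 2 n) * (2 * n) =
          264 * C6 * d * (n ^ 2 * V ρ N 2 n) := by ring
      rw [h9, h10] at h8
      exact h8

/-- the key estimate for differences -/
theorem ke_diff (A Cs : ℝ) (q0 : ℕ) (hA : 1 ≤ A) (hCs : 0 ≤ Cs) :
    ∃ (Q0 : ℕ) (C5 : ℝ), 0 < C5 ∧ 1 ≤ Q0 ∧ ∀ (ρ : ℝ) (N : ℕ) (d : ℝ) (R1 R2 R1' R2' : ℝ → ℝ),
      0 ≤ ρ → 0 < d → Dec ρ N A R1 → Dec ρ N A R2 → Dec ρ N A R1' → Dec ρ N A R2' →
      Dec ρ N d (fun x => R1 x - R1' x) → Dec ρ N d (fun x => R2 x - R2' x) →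
      (∀ p q : ℕ, PQ p q → q0 ≤ q → ∃ u, Leaf R1 R2 p q Cs u) →
      (∀ p q : ℕ, PQ p q → q0 ≤ q → ∃ u, Leaf R1' R2' p q Cs u) →
      ∀ n : ℤ, (Q0:ℝ) ≤ |(n:ℝ)| →
        ‖rc (fun x => R1 x - R1' x) n‖ ≤ C5 * d / (|(n:ℝ)| * V ρ N 3 n) ∧
        ‖rc (fun x => R2 x - R2' x) n‖ ≤ C5 * d / (|(n:ℝ)| * V ρ N 3 n) := by
  obtain ⟨Q0, C, hC, hQ0, hone⟩ := cke_one A Cs q0 hA hCs
  have hD := cke_D_ne
  have hDp : 0 < |cke_D| := abs_pos.2 hD
  obtain ⟨S, hS⟩ : ∃ S : ℝ, S = |cke_a 1| + |cke_a 2| + |cke_b 1| + |cke_b 2| := ⟨_, rfl⟩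
  have hS0 : 0 ≤ S := by
    rw [hS]
    positivity
  refine ⟨Q0, (S + 1) * C / |cke_D|, by positivity, hQ0, ?_⟩
  intro ρ N d R1 R2 R1' R2' hρ hd hR1 hR2 hR1' hR2' hS1 hS2 hleaf hleaf' n hn
  -- the case of natural numbers
  have key : ∀ m : ℕ, Q0 ≤ m →
      ‖rc (fun x => R1 x - R1' x) m‖ ≤ (S + 1) * C / |cke_D| * d / (m * V ρ N 3 m) ∧
      ‖rc (fun x => R2 x - R2' x) m‖ ≤ (S + 1) * C / |cke_D| * d / (m * V ρ N 3 m) := by
    intro m hm
    have hm0 : (0:ℝ) < m := Nat.cast_pos.2 (by omega)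
    have hV3 : 0 < V ρ N 3 m := V_pos _ _ _ _
    have h1 := hone ρ N d R1 R2 R1' R2' hρ hd hR1 hR2 hR1' hR2' hS1 hS2 hleaf hleaf' m hm 1
      (Or.inl rfl)
    have h2 := hone ρ N d R1 R2 R1' R2' hρ hd hR1 hR2 hR1' hR2' hS1 hS2 hleaf hleaf' m hm 2
      (Or.inr rfl)
    obtain ⟨Z1, hZ1⟩ : ∃ Z1 : ℂ, Z1 = rc (fun x => R1 x - R1' x) m := ⟨_, rfl⟩
    obtain ⟨Z2, hZ2⟩ : ∃ Z2 : ℂ, Z2 = rc (fun x => R2 x - R2' x) m := ⟨_, rfl⟩
    rw [← hZ1, ← hZ2] at h1 h2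
    rw [← hZ1, ← hZ2]
    obtain ⟨E1, hE1⟩ : ∃ E1 : ℂ, E1 = Z1 * ((cke_a 1 : ℝ) : ℂ) + Z2 * ((cke_b 1 : ℝ) : ℂ) :=
      ⟨_, rfl⟩
    obtain ⟨E2, hE2⟩ : ∃ E2 : ℂ, E2 = Z1 * ((cke_a 2 : ℝ) : ℂ) + Z2 * ((cke_b 2 : ℝ) : ℂ) :=
      ⟨_, rfl⟩
    rw [← hE1] at h1
    rw [← hE2] at h2
    obtain ⟨B, hB⟩ : ∃ B : ℝ, B = C * d / (m * V ρ N 3 m) := ⟨_, rfl⟩
    rw [← hB] at h1 h2
    have hB0 : 0 ≤ B := by
      rw [hB]
      positivity
    have e1 : Z1 * ((cke_D : ℝ) : ℂ) =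
        ((cke_b 2 : ℝ) : ℂ) * E1 - ((cke_b 1 : ℝ) : ℂ) * E2 := by
      rw [hE1, hE2]
      unfold cke_D
      push_cast
      ring
    have e2 : Z2 * ((cke_D : ℝ) : ℂ) =
        ((cke_a 1 : ℝ) : ℂ) * E2 - ((cke_a 2 : ℝ) : ℂ) * E1 := by
      rw [hE1, hE2]
      unfold cke_D
      push_cast
      ring
    have hgen : ∀ (r : ℂ) (a b : ℝ) (X Y : ℂ), ‖X‖ ≤ B → ‖Y‖ ≤ B → |a| + |b| ≤ S →
        r * ((cke_D : ℝ) : ℂ) = (a : ℂ) * X - (b : ℂ) * Y →
        ‖r‖ ≤ (S + 1) * C / |cke_D| * d / (m * V ρ N 3 m) := by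
      intro r a b X Y hX hY hab h
      have h3 : ‖r‖ * |cke_D| ≤ (|a| + |b|) * B := by
        have h4 := congrArg norm h
        rw [norm_mul, Complex.norm_real, Real.norm_eq_abs] at h4
        rw [h4]
        refine (norm_sub_le _ _).trans ?_
        rw [norm_mul, norm_mul, Complex.norm_real, Complex.norm_real, Real.norm_eq_abs,
          Real.norm_eq_abs, add_mul]
        gcongr
      have h5 : (S + 1) * C / |cke_D| * d / (m * V ρ N 3 m) = (S + 1) * B / |cke_D| := by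
        rw [hB]
        field_simp
      rw [h5, le_div_iff₀ hDp]
      refine h3.trans ?_
      apply mul_le_mul_of_nonneg_right _ hB0
      linarith
    refine ⟨hgen _ _ _ _ _ h1 h2 ?_ e1, hgen _ _ _ _ _ h2 h1 ?_ e2⟩
    · rw [hS]
      have := abs_nonneg (cke_a 1)
      have := abs_nonneg (cke_a 2)
      linarith
    · rw [hS]
      have := abs_nonneg (cke_b 1)
      have := abs_nonneg (cke_b 2)
      linarith
  rcases Int.le_total 0 n with h0 | h0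
  · obtain ⟨m, rfl⟩ := Int.eq_ofNat_of_zero_le h0
    have habs : |(((m:ℕ):ℤ):ℝ)| = (m:ℝ) := by
      rw [Int.cast_natCast]
      exact abs_of_nonneg (Nat.cast_nonneg m)
    rw [habs] at hn ⊢
    exact key m (by exact_mod_cast hn)
  · obtain ⟨m, hm⟩ := Int.eq_ofNat_of_zero_le (Int.neg_nonneg_of_nonpos h0)
    have hnm : n = -(m:ℤ) := by omega
    subst hnm
    have habs : |((-(m:ℤ) : ℤ):ℝ)| = (m:ℝ) := by
      rw [Int.cast_neg, abs_neg, Int.cast_natCast]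
      exact abs_of_nonneg (Nat.cast_nonneg m)
    rw [habs] at hn ⊢
    rw [cke_fc_conj, cke_fc_conj, V_neg]
    exact key m (by exact_mod_cast hn)

end Pool.Agent.MP_ae5b4e_an_RIG
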