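import Mathlib
import Pool.Agent.Lib.MP_ae5b4e_an_RIG.CKe
import Pool.Agent.Lib.MP_ae5b4e_an_RIG.CCor

/-!
# MP_ae5b4e_an, project RIG: finite determinacy

Text: `/team-store/POR_RIG.md`, section 9.
-/

noncomputable section

namespace Pool.Agent.MP_ae5b4e_an_RIG

open Real Set Filter Topology MeasureTheory intervalIntegral
open Pool.Agent.MP_ae5b4e_an_RG

private lemma cfin_rc_sub {R R' : ℝ → ℝ} (hR : Continuous R) (hR' : Continuous R') (k : ℤ) :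
    rc (fun x => R x - R' x) k = rc R k - rc R' k := by
  have hce : Continuous (e (-k)) := continuous_e _
  have i1 : IntervalIntegrable (fun x => (R x : ℂ) * e (-k) x) volume 0 1 :=
    ((Complex.continuous_ofReal.comp hR).mul hce).intervalIntegrable _ _
  have i2 : IntervalIntegrable (fun x => (R' x : ℂ) * e (-k) x) volume 0 1 :=
    ((Complex.continuous_ofReal.comp hR').mul hce).intervalIntegrable _ _
  unfold rc fc
  rw [← intervalIntegral.integral_sub i1 i2]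
  refine intervalIntegral.integral_congr fun x _ => ?_
  push_cast
  ring

private lemma cfin_sub {ρ : ℝ} {N : ℕ} {A : ℝ} {R R' : ℝ → ℝ} (h : Dec ρ N A R)
    (h' : Dec ρ N A R') : Dec ρ N (2 * A) (fun x => R x - R' x) := by
  obtain ⟨a, h1, h2⟩ := h
  obtain ⟨b, h3, h4⟩ := h'
  refine ⟨fun k => a k - b k, fun k => ?_, fun x => ?_⟩
  · calc ‖a k - b k‖ ≤ ‖a k‖ + ‖b k‖ := norm_sub_le _ _
      _ ≤ A / V ρ N 3 k + A / V ρ N 3 k := add_le_add (h1 k) (h3 k)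
      _ = 2 * A / V ρ N 3 k := by ring
  · have h5 := (h2 x).sub (h4 x)
    have e1 : (fun k : ℤ => a k * e k x - b k * e k x) = fun k => (a k - b k) * e k x := by
      funext k
      ring
    rw [e1] at h5
    rwa [← Complex.ofReal_sub] at h5

private lemma cfin_V {ρ : ℝ} (hρ : 0 ≤ ρ) {N : ℕ} {Q : ℝ} {k : ℤ} (hk : |(k:ℝ)| ≤ Q) :
    V ρ N 3 k ≤ (1 + Q) ^ 3 * Real.exp (ρ * Q) := by
  unfold V w
  have h0 := abs_nonneg (k:ℝ)
  have h1 : (1 + |(k:ℝ)|) ^ 3 ≤ (1 + Q) ^ 3 := pow_le_pow_left₀ (by linarith) (by linarith) 3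
  have h2 : Real.exp (ρ * min |(k:ℝ)| (N:ℝ)) ≤ Real.exp (ρ * Q) := by
    apply Real.exp_le_exp.2
    exact mul_le_mul_of_nonneg_left ((min_le_left _ _).trans hk) hρ
  exact mul_le_mul h1 h2 (Real.exp_pos _).le (pow_nonneg (by linarith) 3)

/-- one step of the iteration, for one function -/
private lemma cfin_step {D : ℝ → ℝ} {ρ C5 d B Q : ℝ} {N : ℕ} (hρ : 0 ≤ ρ) (hd : 0 < d)
    (hB : 0 ≤ B) (hQ0 : 0 < Q) (hQ : 2 * C5 ≤ Q)
    (hs : ∀ x, HasSum (fun k => rc D k * e k x) ((D x : ℝ) : ℂ))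
    (h1 : ∀ m : ℤ, Q ≤ |(m:ℝ)| → ‖rc D m‖ ≤ C5 * d / (|(m:ℝ)| * V ρ N 3 m))
    (h2 : ∀ m : ℤ, |(m:ℝ)| ≤ Q → ‖rc D m‖ ≤ B) :
    Dec ρ N (max ((1 + Q) ^ 3 * Real.exp (ρ * Q) * B) (d / 2)) D := by
  refine ⟨rc D, fun k => ?_, hs⟩
  have hV := V_pos ρ N 3 k
  rw [le_div_iff₀ hV]
  rcases le_total Q |(k:ℝ)| with hk | hk
  · refine le_trans ?_ (le_max_right _ _)
    have h3 := h1 k hk
    have hk0 : 0 < |(k:ℝ)| := by linarith
    rw [le_div_iff₀ (mul_pos hk0 hV)] at h3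
    have h4 : ‖rc D k‖ * V ρ N 3 k * |(k:ℝ)| ≤ d / 2 * |(k:ℝ)| := by
      calc ‖rc D k‖ * V ρ N 3 k * |(k:ℝ)| = ‖rc D k‖ * (|(k:ℝ)| * V ρ N 3 k) := by ring
        _ ≤ C5 * d := h3
        _ ≤ d / 2 * |(k:ℝ)| := by nlinarith
    exact le_of_mul_le_mul_right h4 hk0
  · refine le_trans ?_ (le_max_left _ _)
    have h3 := h2 k hk
    have h4 := cfin_V (N := N) hρ hk
    calc ‖rc D k‖ * V ρ N 3 k ≤ B * ((1 + Q) ^ 3 * Real.exp (ρ * Q)) :=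
          mul_le_mul h3 h4 hV.le hB
      _ = _ := by ring

/-- the end of the iteration, for one function -/
private lemma cfin_end {D : ℝ → ℝ} {ρ A M : ℝ} (k : ℤ) (hρ : 0 ≤ ρ) (hM : 0 ≤ M)
    (h : ∀ n : ℕ, Dec ρ k.natAbs (max M (2 * A / 2 ^ n)) D) :
    ‖rc D k‖ ≤ M * Real.exp (-(ρ * |(k:ℝ)|)) := by
  have hV := V_pos ρ k.natAbs 3 k
  have h1 : ∀ n : ℕ, ‖rc D k‖ * V ρ k.natAbs 3 k ≤ max M (2 * A / 2 ^ n) := by
    intro n
    have h2 := Dec.rc_le hρ (h n) k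
    rwa [le_div_iff₀ hV] at h2
  have h2 : Tendsto (fun n : ℕ => max M (2 * A / 2 ^ n)) atTop (𝓝 (max M 0)) := by
    apply Tendsto.max tendsto_const_nhds
    have h3 : Tendsto (fun n : ℕ => (1 / 2 : ℝ) ^ n) atTop (𝓝 0) :=
      tendsto_pow_atTop_nhds_zero_of_lt_one (by norm_num) (by norm_num)
    have h4 := h3.const_mul (2 * A)
    rw [mul_zero] at h4
    refine h4.congr fun n => ?_
    rw [one_div, inv_pow]
    rfl
  rw [max_eq_left hM] at h2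
  have h3 : ‖rc D k‖ * V ρ k.natAbs 3 k ≤ M := ge_of_tendsto' h2 h1
  have e1 : V ρ k.natAbs 3 k = (1 + |(k:ℝ)|) ^ 3 * Real.exp (ρ * |(k:ℝ)|) := by
    unfold V w
    have : ((k.natAbs : ℕ) : ℝ) = |(k:ℝ)| := by
      rw [Nat.cast_natAbs]
      simp
    rw [this, min_self]
  have h4 : ‖rc D k‖ * Real.exp (ρ * |(k:ℝ)|) ≤ M := by
    refine le_trans ?_ h3
    rw [e1]
    have h5 : (1:ℝ) ≤ (1 + |(k:ℝ)|) ^ 3 := one_le_pow₀ (by linarith [abs_nonneg (k:ℝ)])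
    have h6 := Real.exp_pos (ρ * |(k:ℝ)|)
    have h7 := norm_nonneg (rc D k)
    have h8 : Real.exp (ρ * |(k:ℝ)|) ≤ (1 + |(k:ℝ)|) ^ 3 * Real.exp (ρ * |(k:ℝ)|) := by
      nlinarith
    exact mul_le_mul_of_nonneg_left h8 h7
  rw [Real.exp_neg, ← div_eq_mul_inv, le_div_iff₀ (Real.exp_pos _)]
  exact h4

/-- Finite determinacy: the coefficients of an integrable structure are determined, in a Lipschitz
way, by finitely many of their Fourier coefficients. -/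
theorem determinacy (A0 Cs : ℝ) (q0 : ℕ) (hA0 : 0 ≤ A0) (hCs : 0 ≤ Cs) :
    ∃ (Q : ℕ) (C ρ0 : ℝ), 0 < C ∧ 0 < ρ0 ∧ ∀ R1 R2 R1' R2' : ℝ → ℝ,
      Dec 0 0 A0 R1 → Dec 0 0 A0 R2 → Dec 0 0 A0 R1' → Dec 0 0 A0 R2' →
      (∀ p q : ℕ, PQ p q → q0 ≤ q → ∃ u, Leaf R1 R2 p q Cs u) →
      (∀ p q : ℕ, PQ p q → q0 ≤ q → ∃ u, Leaf R1' R2' p q Cs u) →
      ∀ B : ℝ, (∀ k : ℤ, |(k:ℝ)| ≤ Q → ‖rc R1 k - rc R1' k‖ ≤ B ∧ ‖rc R2 k - rc R2' k‖ ≤ B) →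
      ∀ k : ℤ, ‖rc R1 k - rc R1' k‖ ≤ C * B * Real.exp (-(ρ0 * |(k:ℝ)|)) ∧
        ‖rc R2 k - rc R2' k‖ ≤ C * B * Real.exp (-(ρ0 * |(k:ℝ)|)) := by
  obtain ⟨ρ, A, hρ, hA, hcore⟩ := core_unif A0 Cs q0 hA0 hCs
  obtain ⟨Q0, C5, hC5, hQ0, hke⟩ := ke_diff A Cs q0 hA hCs
  obtain ⟨Q, hQ⟩ : ∃ Q : ℕ, Q = max Q0 ⌈2 * C5⌉₊ := ⟨_, rfl⟩
  have hQ1 : (Q0:ℝ) ≤ Q := by
    rw [hQ]
    exact_mod_cast le_max_left _ _
  have hQ2 : 2 * C5 ≤ Q := by
    rw [hQ]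
    exact (Nat.le_ceil _).trans (by exact_mod_cast le_max_right _ _)
  have hQ3 : (0:ℝ) < Q := by
    have : (1:ℝ) ≤ Q0 := by exact_mod_cast hQ0
    linarith
  refine ⟨Q, (1 + (Q:ℝ)) ^ 3 * Real.exp (ρ * Q), ρ, by positivity, hρ, ?_⟩
  intro R1 R2 R1' R2' h1 h2 h1' h2' hleaf hleaf' B hB k
  have hB0 : 0 ≤ B := (norm_nonneg _).trans (hB 0 (by simp)).1
  have c1 := h1.continuous (le_refl 0)
  have c2 := h2.continuous (le_refl 0)
  have c1' := h1'.continuous (le_refl 0)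
  have c2' := h2'.continuous (le_refl 0)
  have hs1 : ∀ x, HasSum (fun k => rc (fun x => R1 x - R1' x) k * e k x)
      (((R1 x - R1' x : ℝ)) : ℂ) := fun x => (cfin_sub h1 h1').hasSum_rc (le_refl 0) x
  have hs2 : ∀ x, HasSum (fun k => rc (fun x => R2 x - R2' x) k * e k x)
      (((R2 x - R2' x : ℝ)) : ℂ) := fun x => (cfin_sub h2 h2').hasSum_rc (le_refl 0) x
  have hA0' : 0 < A := by linarith
  have key : ∀ (N n : ℕ),
      Dec ρ N (max ((1 + (Q:ℝ)) ^ 3 * Real.exp (ρ * Q) * B) (2 * A / 2 ^ n))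
        (fun x => R1 x - R1' x) ∧
      Dec ρ N (max ((1 + (Q:ℝ)) ^ 3 * Real.exp (ρ * Q) * B) (2 * A / 2 ^ n))
        (fun x => R2 x - R2' x) := by
    intro N n
    obtain ⟨d1, d2⟩ := hcore R1 R2 h1 h2 hleaf N
    obtain ⟨d1', d2'⟩ := hcore R1' R2' h1' h2' hleaf' N
    induction n with
    | zero =>
      rw [pow_zero, div_one]
      exact ⟨Dec.mono (cfin_sub d1 d1') (le_max_right _ _),
        Dec.mono (cfin_sub d2 d2') (le_max_right _ _)⟩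
    | succ n ih =>
      obtain ⟨i1, i2⟩ := ih
      obtain ⟨d, hd⟩ : ∃ d : ℝ, d = max ((1 + (Q:ℝ)) ^ 3 * Real.exp (ρ * Q) * B)
        (2 * A / 2 ^ n) := ⟨_, rfl⟩
      rw [← hd] at i1 i2
      have hd0 : 0 < d := by
        rw [hd]
        exact lt_of_lt_of_le (by positivity) (le_max_right _ _)
      have hM0 : 0 ≤ (1 + (Q:ℝ)) ^ 3 * Real.exp (ρ * Q) * B := by positivity
      have hk := hke ρ N d R1 R2 R1' R2' hρ.le hd0 d1 d2 d1' d2' i1 i2 hleaf hleaf'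
      have hle : max ((1 + (Q:ℝ)) ^ 3 * Real.exp (ρ * Q) * B) (d / 2) ≤
          max ((1 + (Q:ℝ)) ^ 3 * Real.exp (ρ * Q) * B) (2 * A / 2 ^ (n + 1)) := by
        apply max_le (le_max_left _ _)
        rw [hd, ← max_div_div_right (by norm_num : (0:ℝ) ≤ 2)]
        apply max_le_max
        · linarith
        · rw [pow_succ, div_div]
      constructor
      · refine Dec.mono (cfin_step hρ.le hd0 hB0 hQ3 hQ2 hs1 (fun m hm => (hk m (hQ1.trans hm)).1)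
          fun m hm => ?_) hle
        rw [cfin_rc_sub c1 c1']
        exact (hB m hm).1
      · refine Dec.mono (cfin_step hρ.le hd0 hB0 hQ3 hQ2 hs2 (fun m hm => (hk m (hQ1.trans hm)).2)
          fun m hm => ?_) hle
        rw [cfin_rc_sub c2 c2']
        exact (hB m hm).2
  have hM0 : 0 ≤ (1 + (Q:ℝ)) ^ 3 * Real.exp (ρ * Q) * B := by positivity
  have f1 := cfin_end k hρ.le hM0 fun n => (key k.natAbs n).1
  have f2 := cfin_end k hρ.le hM0 fun n => (key k.natAbs n).2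
  rw [cfin_rc_sub c1 c1'] at f1
  rw [cfin_rc_sub c2 c2'] at f2
  exact ⟨f1, f2⟩

end Pool.Agent.MP_ae5b4e_an_RIG
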