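import Mathlib
import Pool.Agent.Lib.MP_ae5b4e_an_RIG.GGau
import Pool.Agent.Lib.MP_ae5b4e_an_hopf.Final

/-!
# MP_ae5b4e_an, project RIG, module GCir: constant coefficients

A solution whose normal form has `r = r₀` constant and `m = 0` is the circle with concentric circles,
in suitable projective coordinates.

PROOF.  Put `P = lift γ σ lam`, `V = rU κ σ U` (`hN.lsys h : LSys 1 P V 0`), so `P''' = -r₀ P'`.
(1) `Curve.const_neg` (`hopf/Circle.lean`, `c = -r₀`) gives `r₀ > 0`.  As in `Curve.circle` (copy its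
    second half, from `set w`): `P t = e₀ + cos (w t) • e₁ + sin (w t) • e₂`, `w = √r₀ > 0`,
    `det3 e₀ e₁ e₂ ≠ 0`.
(2) `dd P x y = D (1 - cos (w (x - y)))` with `D = w * det3 e₀ e₁ e₂ * (sign)`, `D > 0` since `dd > 0` for
    `0 < |x - y| < 1`; `P` has period one, so `w = 2 π k`, and `dd P x y ≠ 0` for `0 < |x - y| < 1`
    forces `w = 2 π`.  (Only `dd P (x + r) (y + r) = dd P x y` and `dd P x y = dd P y x` are needed
    below; then `L1 P (x + r) (y + r) = L1 P x y`, `Curve.L1_shift` in `hopf/Rigid.lean`, and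
    `L1 P x y = -L1 P y x`.)
(3) The leaves.  Fix `c`, `f t := V c t` (continuous, `1`-periodic), `n t := nxt P 1 V c t`.  By
    `nx_unique` and the invariance, `n t = t + θ (f t)`, where `θ v := nx P 1 0 v`, strictly
    decreasing and continuous (`Curve.nx_strictAnti`, `contDiff_nx`), `0 < θ < 1`.  The law
    (`LSys.feq'`, `κ = 0`) is `f (n t) = L1 P (n t) t = -L1 P t (n t) = f t`.  So
    `f (t + θ (f t)) = f t`, and `f (t + j θ (f t)) = f t` for all `j`.  If `f` were not constant, it would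
    take all the values of an interval, `θ ∘ f` would take an irrational value `θ (f t₀)`, the points
    `t₀ + j θ (f t₀)` are dense modulo one (`AddCircle` or
    `dense_addSubgroupClosure_pair_iff`/`Irrational` lemmas), and `f = f t₀` on a dense set: a
    contradiction.  So `V c t = v c` for all `t`.
(4) `v c > 0` for all `c`: `v` is strictly decreasing, continuous, `→ ∞` at `0`.  If `v c ≤ 0` for some
    `c`, there is `c'` with `v c' = 0`; then the points `P' x` and `P' (x + 1/2) = -P' x` coincide, that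
    is (see `map_pt` or `hvec_eq`: `P' x + v P x` is proportional to
    `γ.hvec (σ x) (U c (σ x))`) `γ.pt (σ x) (U c' (σ x)) = γ.pt (σ (x + 1/2)) (U c' (σ (x + 1/2)))`
    and `h.simple` gives `σ (x + 1/2) = σ x + n T`, impossible as `σ x < σ (x + 1/2) < σ x + T`.
(5) The equations of the traces: MODEL `Sys.conics` in `hopf/Final.lean`, second half, with
    `g := crd e₀ e₁ e₂`, and `range_eq_circ` (`hopf/Plane.lean`) for `γ.trace`, `γ.leaf U c`
    (see how `TotalIntegrable.lean` concludes).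
-/

noncomputable section

namespace Pool.Agent.MP_ae5b4e_an_RIG

open Real Set Filter Topology MeasureTheory intervalIntegral
open scoped ContDiff
open Pool.Agent.MP_ae5b4e_an_hopf
open Pool.Agent.MP_ae5b4e_an_RG

private theorem GCir_circle {Γ : ℝ → Fin 3 → ℝ} {T : ℝ} (h : Curve T Γ)
    (hW : ∀ y, Wr Γ y = 1) {c : ℝ}
    (hc : ∀ x i, deriv (deriv (deriv Γ)) x i = c * deriv Γ x i) (hcn : c < 0) :
    ∃ (w : ℝ) (e₀ e₁ e₂ : Fin 3 → ℝ), 0 < w ∧ det3 e₀ e₁ e₂ ≠ 0 ∧
      ∀ t, Γ t = e₀ + cos (w * t) • e₁ + sin (w * t) • e₂ := by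
  set w : ℝ := √(-c) with hw
  have hwp : 0 < w := sqrt_pos.2 (by linarith)
  have hw2 : w ^ 2 = -c := sq_sqrt (by linarith)
  -- the centre
  set e₀ : Fin 3 → ℝ := fun i => Γ 0 i + deriv (deriv Γ) 0 i / w ^ 2 with he₀
  have hcen : ∀ t i, Γ t i + deriv (deriv Γ) t i / w ^ 2 = e₀ i := by
    intro t i
    have hd : ∀ t, HasDerivAt (fun t => Γ t i + deriv (deriv Γ) t i / w ^ 2) 0 t := by
      intro t
      refine ((h.hdc0 t i).add ((h.hdc2 t i).div_const (w ^ 2))).congr_deriv ?_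
      rw [hc, hw2]
      have : c ≠ 0 := hcn.ne
      field_simp
      ring
    exact is_const_of_deriv_eq_zero (fun r => (hd r).differentiableAt) (fun r => (hd r).deriv) t 0
  set e₁ : Fin 3 → ℝ := fun i => -(deriv (deriv Γ) 0 i / w ^ 2) with he₁
  set e₂ : Fin 3 → ℝ := fun i => deriv Γ 0 i / w with he₂
  -- the two constants of motion
  have hA : ∀ t i, cos (w * t) * (-(deriv (deriv Γ) t i / w ^ 2)) -
      sin (w * t) * (deriv Γ t i / w) = e₁ i := by
    intro t i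
    have hd : ∀ t, HasDerivAt (fun t => cos (w * t) * (-(deriv (deriv Γ) t i / w ^ 2)) -
        sin (w * t) * (deriv Γ t i / w)) 0 t := by
      intro t
      have k0 : HasDerivAt (fun t => w * t) w t := by
        simpa using (hasDerivAt_id t).const_mul w
      refine ((k0.cos.mul ((h.hdc2 t i).div_const (w ^ 2)).neg).sub
        (k0.sin.mul ((h.hdc1 t i).div_const w))).congr_deriv ?_
      rw [hc]
      have : c = -w ^ 2 := by linarith
      rw [this]
      simp only [Pi.neg_apply]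
      field_simp
      ring
    have := is_const_of_deriv_eq_zero (fun r => (hd r).differentiableAt)
      (fun r => (hd r).deriv) t 0
    simpa using this
  have hB : ∀ t i, sin (w * t) * (-(deriv (deriv Γ) t i / w ^ 2)) +
      cos (w * t) * (deriv Γ t i / w) = e₂ i := by
    intro t i
    have hd : ∀ t, HasDerivAt (fun t => sin (w * t) * (-(deriv (deriv Γ) t i / w ^ 2)) +
        cos (w * t) * (deriv Γ t i / w)) 0 t := by
      intro t
      have k0 : HasDerivAt (fun t => w * t) w t := by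
        simpa using (hasDerivAt_id t).const_mul w
      refine ((k0.sin.mul ((h.hdc2 t i).div_const (w ^ 2)).neg).add
        (k0.cos.mul ((h.hdc1 t i).div_const w))).congr_deriv ?_
      rw [hc]
      have : c = -w ^ 2 := by linarith
      rw [this]
      simp only [Pi.neg_apply]
      field_simp
      ring
    have := is_const_of_deriv_eq_zero (fun r => (hd r).differentiableAt)
      (fun r => (hd r).deriv) t 0
    simpa using this
  have hform : ∀ t i, Γ t i = e₀ i + cos (w * t) * e₁ i + sin (w * t) * e₂ i := by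
    intro t i
    have k1 := hcen t i
    have k2 := hA t i
    have k3 := hB t i
    rw [← k1, ← k2, ← k3]
    have := sin_sq_add_cos_sq (w * t)
    linear_combination (-(deriv (deriv Γ) t i / w ^ 2)) * (-this)
  refine ⟨w, e₀, e₁, e₂, hwp, ?_, fun t => ?_⟩
  · have h1 := hW 0
    have k : det3 (Γ 0) (deriv Γ 0) (deriv (deriv Γ) 0) = 1 := h1
    have e : det3 e₀ e₁ e₂ = det3 (Γ 0) (deriv Γ 0) (deriv (deriv Γ) 0) / w ^ 3 := by
      rw [he₀, he₁, he₂]
      unfold det3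
      field_simp
      ring
    rw [e, k]
    positivity
  · funext i
    rw [hform t i]
    simp

/-- (1) -/
theorem circle_of_const {P : ℝ → Fin 3 → ℝ} (h : Curve 1 P) (hW : ∀ x, Wr P x = 1) {r₀ : ℝ}
    (hode : ∀ x, deriv (deriv (deriv P)) x = -r₀ • deriv P x) :
    ∃ (w : ℝ) (e₀ e₁ e₂ : Fin 3 → ℝ), 0 < w ∧ det3 e₀ e₁ e₂ ≠ 0 ∧
      ∀ t, P t = e₀ + cos (w * t) • e₁ + sin (w * t) • e₂ := by
  have hc : ∀ x i, deriv (deriv (deriv P)) x i = -r₀ * deriv P x i := fun x i => by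
    rw [hode x]
    simp
  exact GCir_circle h hW hc (h.const_neg hW hc)

private theorem GCir_deriv {P : ℝ → Fin 3 → ℝ} {w : ℝ} {e₀ e₁ e₂ : Fin 3 → ℝ}
    (hP : ∀ t, P t = e₀ + cos (w * t) • e₁ + sin (w * t) • e₂) (y : ℝ) :
    deriv P y = (-sin (w * y) * w) • e₁ + (cos (w * y) * w) • e₂ := by
  have k3 : P = fun x => e₀ + cos (w * x) • e₁ + sin (w * x) • e₂ := funext hP
  rw [k3]
  apply HasDerivAt.deriv
  have a1 : HasDerivAt (fun x : ℝ => w * x) w y := by
    simpa using (hasDerivAt_id y).const_mul w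
  have a2 := a1.cos.smul_const e₁
  have a3 := a1.sin.smul_const e₂
  exact (a2.const_add e₀).add a3

private theorem GCir_dd {P : ℝ → Fin 3 → ℝ} {w : ℝ} {e₀ e₁ e₂ : Fin 3 → ℝ}
    (hP : ∀ t, P t = e₀ + cos (w * t) • e₁ + sin (w * t) • e₂) (x y : ℝ) :
    dd P x y = det3 e₀ e₁ e₂ * w * (1 - cos (w * (x - y))) ∧
      ddx P x y = det3 e₀ e₁ e₂ * w * (w * sin (w * (x - y))) := by
  have hs := sin_sq_add_cos_sq (w * y)
  rw [mul_sub w x y, cos_sub, sin_sub]
  unfold dd ddx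
  rw [GCir_deriv hP x, GCir_deriv hP y, hP x, hP y]
  unfold det3
  simp only [Pi.add_apply, Pi.smul_apply, smul_eq_mul]
  constructor
  · linear_combination ((e₀ 0 * (e₁ 1 * e₂ 2 - e₁ 2 * e₂ 1) - e₀ 1 * (e₁ 0 * e₂ 2 - e₁ 2 * e₂ 0) +
      e₀ 2 * (e₁ 0 * e₂ 1 - e₁ 1 * e₂ 0)) * w) * hs
  · ring

private theorem GCir_L1 {P : ℝ → Fin 3 → ℝ} {w : ℝ} {e₀ e₁ e₂ : Fin 3 → ℝ} (hw : 0 < w)
    (hD : det3 e₀ e₁ e₂ ≠ 0)
    (hP : ∀ t, P t = e₀ + cos (w * t) • e₁ + sin (w * t) • e₂) (x y : ℝ) :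
    L1 P x y = w * sin (w * (x - y)) / (1 - cos (w * (x - y))) := by
  unfold L1
  rw [(GCir_dd hP x y).1, (GCir_dd hP x y).2, mul_div_mul_left _ _ (mul_ne_zero hD hw.ne')]

private theorem GCir_dense {f : ℝ → ℝ} (hf : Continuous f) (hper : Function.Periodic f 1)
    {α t₀ : ℝ} (hα : Irrational α) (h : ∀ n : ℕ, f (t₀ + n * α) = f t₀) (t : ℝ) :
    f t = f t₀ := by
  have : Fact ((0:ℝ) < 1) := ⟨one_pos⟩
  have hd : DenseRange (fun n : ℤ => n • (α : AddCircle (1:ℝ))) :=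
    AddCircle.denseRange_zsmul_coe_iff.2 (by rwa [div_one])
  have hd' : DenseRange (fun n : ℕ => n • (α : AddCircle (1:ℝ))) := denseRange_zsmul_iff_nsmul.1 hd
  have hF : Continuous hper.lift := by
    refine (QuotientAddGroup.isQuotientMap_mk (N := AddSubgroup.zmultiples (1:ℝ))).continuous_iff.2 ?_
    exact hf
  have h1 : Continuous fun z : AddCircle (1:ℝ) => hper.lift ((t₀ : AddCircle (1:ℝ)) + z) :=
    hF.comp (continuous_const_add (t₀ : AddCircle (1:ℝ)))
  have h2 : (fun z : AddCircle (1:ℝ) => hper.lift ((t₀ : AddCircle (1:ℝ)) + z)) =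
      fun _ => f t₀ := by
    refine hd'.equalizer h1 continuous_const ?_
    funext n
    have e : (t₀ : AddCircle (1:ℝ)) + n • (α : AddCircle (1:ℝ)) =
        ((t₀ + n * α : ℝ) : AddCircle (1:ℝ)) := by
      rw [AddCircle.coe_add, ← nsmul_eq_mul, AddCircle.coe_nsmul]
    show hper.lift ((t₀ : AddCircle (1:ℝ)) + n • (α : AddCircle (1:ℝ))) = f t₀
    rw [e, hper.lift_coe]
    exact h n
  have h3 : hper.lift ((t₀ : AddCircle (1:ℝ)) + ((t - t₀ : ℝ) : AddCircle (1:ℝ))) = f t₀ :=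
    congrFun h2 ((t - t₀ : ℝ) : AddCircle (1:ℝ))
  rw [← AddCircle.coe_add, hper.lift_coe] at h3
  rw [← h3]
  congr 1
  ring

/-- the step of the leaf with the value `u` -/
private def gth (u : ℝ) : ℝ := 1 / 2 - arctan (u / (2 * π)) / π

private theorem gth_mem (u : ℝ) : 0 < gth u ∧ gth u < 1 := by
  have h1 := arctan_lt_pi_div_two (u / (2 * π))
  have h2 := neg_pi_div_two_lt_arctan (u / (2 * π))
  have hp := pi_pos
  unfold gth
  constructor
  · have : arctan (u / (2 * π)) / π < 1 / 2 := by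
      rw [div_lt_iff₀ hp]
      linarith
    linarith
  · have : -(1 / 2) < arctan (u / (2 * π)) / π := by
      rw [lt_div_iff₀ hp]
      linarith
    linarith

private theorem gth_val (u : ℝ) : 2 * π * sin (2 * π * gth u) / (1 - cos (2 * π * gth u)) = u := by
  have hp := pi_pos
  have e : 2 * π * gth u = π - 2 * arctan (u / (2 * π)) := by
    unfold gth
    field_simp
  have hc := cos_arctan_pos (u / (2 * π))
  have ht : sin (arctan (u / (2 * π))) = u / (2 * π) * cos (arctan (u / (2 * π))) := by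
    have := tan_arctan (u / (2 * π))
    rw [tan_eq_sin_div_cos, div_eq_iff hc.ne'] at this
    exact this
  rw [e, sin_pi_sub, cos_pi_sub, sin_two_mul, cos_two_mul, ht]
  have hcc := hc.ne'
  field_simp
  ring

private theorem gth_inj : Function.Injective gth := by
  intro a b hab
  rw [← gth_val a, ← gth_val b, hab]

private theorem gth_cont : Continuous gth := by
  unfold gth
  exact continuous_const.sub ((continuous_arctan.comp (continuous_id.div_const _)).div_const _)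

private theorem GCir_leaf {f : ℝ → ℝ} (hf : Continuous f) (hper : Function.Periodic f 1)
    (h : ∀ t, f (t + gth (f t)) = f t) (a b : ℝ) : f a = f b := by
  by_contra hab
  have h1 : gth (f a) ≠ gth (f b) := fun e => hab (gth_inj e)
  obtain ⟨α, hα, hα'⟩ : ∃ α, Irrational α ∧ α ∈ uIcc (gth (f a)) (gth (f b)) := by
    obtain ⟨α, hα, h2, h3⟩ := exists_irrational_btwn (min_lt_max.2 h1)
    exact ⟨α, hα, h2.le, h3.le⟩
  obtain ⟨t₀, -, ht₀⟩ := intermediate_value_uIcc (f := fun t => gth (f t))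
    ((gth_cont.comp hf).continuousOn) hα'
  simp only at ht₀
  have h4 : ∀ n : ℕ, f (t₀ + n * α) = f t₀ := by
    intro n
    induction n with
    | zero => simp
    | succ n ih =>
      have k := h (t₀ + n * α)
      rw [ih, ht₀] at k
      rw [← k]
      congr 1
      push_cast
      ring
  exact hab ((GCir_dense hf hper hα h4 a).trans (GCir_dense hf hper hα h4 b).symm)

/-- (2), (3) -/
theorem leaf_of_const {P : ℝ → Fin 3 → ℝ} {V : ℝ → ℝ → ℝ} (h : LSys 1 P V (fun _ => 0))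
    {w : ℝ} {e₀ e₁ e₂ : Fin 3 → ℝ} (hw : 0 < w) (hD : det3 e₀ e₁ e₂ ≠ 0)
    (hP : ∀ t, P t = e₀ + cos (w * t) • e₁ + sin (w * t) • e₂) {c : ℝ} (hc : c ∈ Ioo (0:ℝ) 1) :
    w = 2 * π ∧ ∃ v : ℝ, ∀ t, V c t = v := by
  have hdd := fun x y => (GCir_dd hP x y).1
  have hcw : cos w = 1 := by
    have e1 : dd P 1 0 = dd P 0 0 := by
      have := h.curve.dd_per_left 0 0
      rwa [zero_add] at this
    rw [hdd, hdd] at e1
    have e2 := mul_left_cancel₀ (mul_ne_zero hD hw.ne') e1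
    simp only [sub_zero, mul_one, mul_zero, cos_zero, sub_self] at e2
    linarith
  have hpos : ∀ r : ℝ, 0 < r → r < 1 → cos (w * r) ≠ 1 := by
    intro r h1 h2 h3
    have k := h.curve.pos 0 r h1 (by linarith)
    rw [hdd, zero_sub, mul_neg, cos_neg, h3, sub_self, mul_zero] at k
    exact lt_irrefl 0 k
  have hw2 : w = 2 * π := by
    have hle : w ≤ 2 * π := by
      by_contra hlt
      push Not at hlt
      apply hpos (2 * π / w) (by positivity) ((div_lt_one hw).2 hlt)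
      rw [mul_div_cancel₀ _ hw.ne']
      exact cos_two_pi
    rcases hle.eq_or_lt with e | e
    · exact e
    · exfalso
      exact hw.ne' ((cos_eq_one_iff_of_lt_of_lt (by linarith [pi_pos]) e).1 hcw)
  refine ⟨hw2, V c 0, fun t => ?_⟩
  have hL := GCir_L1 hw hD hP
  have hf : Continuous (V c) :=
    h.cont.comp_continuous (f := fun t : ℝ => ((c, t) : ℝ × ℝ)) (by fun_prop)
      fun t => ⟨hc, mem_univ _⟩
  refine GCir_leaf hf (h.per c hc) (fun t => ?_) t 0
  obtain ⟨g1, g2⟩ := gth_mem (V c t)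
  have hval := gth_val (V c t)
  rw [← hw2] at hval
  have k1 : L1 P t (t + gth (V c t)) = -(V c t) := by
    rw [hL, show t - (t + gth (V c t)) = -gth (V c t) by ring, mul_neg, sin_neg, cos_neg, mul_neg,
      neg_div, hval]
  have k2 := h.feq c hc t (t + gth (V c t)) (by linarith) (by linarith) k1
  rw [k2, hL, show t + gth (V c t) - t = gth (V c t) by ring, hval, zero_add]

private theorem GCir_hvec {γ : ConvexCurve} {κ σ lam r m : ℝ → ℝ} (hN : Normal γ κ σ lam r m)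
    (U : ℝ → ℝ → ℝ) (c x : ℝ) :
    rU κ σ U c x • lift γ σ lam x + deriv (lift γ σ lam) x =
      (lam x * deriv σ x) • γ.hvec (σ x) (U c (σ x)) := by
  have h1 : HasDerivAt lam (deriv lam x) x :=
    ((contDiff_infty_iff_deriv.1 hN.smooth_lam).1 x).hasDerivAt
  have h2 : HasDerivAt σ (deriv σ x) x :=
    ((contDiff_infty_iff_deriv.1 hN.smooth_σ).1 x).hasDerivAt
  have h3 := (γ.isCurve.hd0 (σ x)).scomp x h2
  have h4 : HasDerivAt (lift γ σ lam) (lam x • (deriv σ x • deriv γ.Γ (σ x)) +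
      deriv lam x • γ.Γ (σ x)) x := h1.smul h3
  rw [h4.deriv, γ.hvec_eq, hN.eq_lam x]
  unfold lift rU
  funext i
  simp only [Pi.add_apply, Pi.smul_apply, smul_eq_mul]
  ring

private theorem GCir_surj {γ : ConvexCurve} {κ σ lam r m : ℝ → ℝ} (hN : Normal γ κ σ lam r m) :
    Function.Surjective σ := by
  have hc : Continuous σ := hN.smooth_σ.continuous
  have hT := γ.T_pos
  have hn : ∀ n : ℕ, σ n = σ 0 + n * γ.T := by
    intro n
    induction n with
    | zero => simp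
    | succ n ih =>
      push_cast
      rw [hN.per_σ, ih]
      ring
  have hm : ∀ n : ℕ, σ (-n) = σ 0 - n * γ.T := by
    intro n
    induction n with
    | zero => simp
    | succ n ih =>
      have := hN.per_σ (-((n:ℝ) + 1))
      rw [show -((n:ℝ) + 1) + 1 = -n by ring, ih] at this
      push_cast
      linarith
  intro y
  obtain ⟨n, hn'⟩ := exists_nat_gt (|y - σ 0| / γ.T)
  rw [div_lt_iff₀ hT] at hn'
  have h1 := (abs_lt.1 hn').1
  have h2 := (abs_lt.1 hn').2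
  have h3 : (-(n:ℝ)) ≤ n := by
    have : (0:ℝ) ≤ n := Nat.cast_nonneg n
    linarith
  obtain ⟨x, -, hx⟩ := intermediate_value_Icc h3 hc.continuousOn
    (show y ∈ Icc (σ (-n)) (σ n) by
      rw [hn, hm]
      exact ⟨by linarith, by linarith⟩)
  exact ⟨x, hx⟩

private theorem GCir_cone {e₀ e₁ e₂ : Fin 3 → ℝ} (hD : det3 e₀ e₁ e₂ ≠ 0) {ρ b : ℝ} (hρ : 0 < ρ)
    {v : ℝ → Fin 3 → ℝ}
    (h1 : ∀ t, ∃ θ a : ℝ, a ≠ 0 ∧ v t = a • (ρ • e₀ + (ρ * cos θ - b * sin θ) • e₁ +
      (ρ * sin θ + b * cos θ) • e₂))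
    (h2 : ∀ θ : ℝ, ∃ t a : ℝ, a ≠ 0 ∧ v t = a • (ρ • e₀ + (ρ * cos θ - b * sin θ) • e₁ +
      (ρ * sin θ + b * cos θ) • e₂)) (P : Fin 3 → ℝ) (hP : P ≠ 0) :
    (∃ t a : ℝ, P = a • v t) ↔ crd e₀ e₁ e₂ hD P 0 ^ 2 + crd e₀ e₁ e₂ hD P 1 ^ 2 =
      (√(ρ ^ 2 + b ^ 2) / ρ) ^ 2 * crd e₀ e₁ e₂ hD P 2 ^ 2 := by
  set g := crd e₀ e₁ e₂ hD with hg
  have hpos : 0 < ρ ^ 2 + b ^ 2 := by positivity
  have hρn := hρ.ne'
  have hR : (√(ρ ^ 2 + b ^ 2) / ρ) ^ 2 = (ρ ^ 2 + b ^ 2) / ρ ^ 2 := by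
    rw [div_pow, sq_sqrt hpos.le]
  rw [hR]
  have hcomb : ∀ θ : ℝ, g (ρ • e₀ + (ρ * cos θ - b * sin θ) • e₁ +
      (ρ * sin θ + b * cos θ) • e₂) = ![ρ * cos θ - b * sin θ, ρ * sin θ + b * cos θ, ρ] :=
    fun θ => crd_comb hD _ _ _
  constructor
  · rintro ⟨t, a, rfl⟩
    obtain ⟨θ, a', -, hv⟩ := h1 t
    have hs := sin_sq_add_cos_sq θ
    rw [hv, map_smul, map_smul, hcomb]
    simp only [Matrix.cons_val, Pi.smul_apply, smul_eq_mul]
    have e : (ρ ^ 2 + b ^ 2) / ρ ^ 2 * (a * (a' * ρ)) ^ 2 = (a * a') ^ 2 * (ρ ^ 2 + b ^ 2) := by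
      field_simp
    rw [e]
    linear_combination (a * a') ^ 2 * (ρ ^ 2 + b ^ 2) * hs
  · intro hq
    have hne : g P 2 ≠ 0 := by
      intro h3
      rw [h3] at hq
      have h0 : g P 0 = 0 := by nlinarith [sq_nonneg (g P 0), sq_nonneg (g P 1)]
      have h1 : g P 1 = 0 := by nlinarith [sq_nonneg (g P 0), sq_nonneg (g P 1)]
      apply hP
      have : g P = 0 := by
        ext i
        fin_cases i
        · exact h0
        · exact h1
        · exact h3
      exact g.map_eq_zero_iff.1 this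
    have h3 : (ρ / g P 2 * g P 0) ^ 2 + (ρ / g P 2 * g P 1) ^ 2 = ρ ^ 2 + b ^ 2 := by
      rw [mul_pow, mul_pow, ← mul_add, hq]
      field_simp
    obtain ⟨θ, hc, hs⟩ := exists_angle_tangent hpos h3
    obtain ⟨t, a, ha, hv⟩ := h2 θ
    refine ⟨t, g P 2 / ρ * a⁻¹, ?_⟩
    apply g.injective
    rw [hv, map_smul, map_smul, hcomb, ← hc, ← hs, smul_smul, mul_assoc, inv_mul_cancel₀ ha,
      mul_one]
    ext i
    fin_cases i
    · simp only [Fin.zero_eta, Matrix.cons_val, Pi.smul_apply, smul_eq_mul]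
      field_simp
    · simp only [Fin.mk_one, Matrix.cons_val, Pi.smul_apply, smul_eq_mul]
      field_simp
    · simp only [Fin.reduceFinMk, Matrix.cons_val, Pi.smul_apply, smul_eq_mul]
      field_simp

private theorem GCir_pos {γ : ConvexCurve} {U : ℝ → ℝ → ℝ} {κ σ lam r m : ℝ → ℝ}
    (h : Sol γ U κ) (hN : Normal γ κ σ lam r m) {e₀ e₁ e₂ : Fin 3 → ℝ}
    (hD : det3 e₀ e₁ e₂ ≠ 0)
    (hP : ∀ t, lift γ σ lam t = e₀ + cos (2 * π * t) • e₁ + sin (2 * π * t) • e₂) {c : ℝ}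
    (hc : c ∈ Ioo (0:ℝ) 1) : 0 < rU κ σ U c 0 := by
  have hS := hN.lsys h
  have hw : (0:ℝ) < 2 * π := by positivity
  by_contra hneg
  push Not at hneg
  obtain ⟨c₁, h1, h2⟩ := (((hS.lim0 0).eventually_gt_atTop 0).and
    (Ioo_mem_nhdsGT hc.1)).exists
  have hcont : ContinuousOn (fun c => rU κ σ U c 0) (Icc c₁ c) := by
    have k : ContinuousOn (fun c : ℝ => ((c, (0:ℝ)) : ℝ × ℝ)) (Icc c₁ c) := by fun_prop
    exact hS.cont.comp k fun x hx => ⟨⟨h2.1.trans_le hx.1, hx.2.trans_lt hc.2⟩, mem_univ _⟩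
  obtain ⟨c', h3, h4⟩ := intermediate_value_Icc' h2.2.le hcont
    (show (0:ℝ) ∈ Icc (rU κ σ U c 0) (rU κ σ U c₁ 0) from ⟨hneg, h1.le⟩)
  have hc' : c' ∈ Ioo (0:ℝ) 1 := ⟨h2.1.trans_le h3.1, h3.2.trans_lt hc.2⟩
  obtain ⟨-, v, hv⟩ := leaf_of_const hS hw hD hP hc'
  have hz : ∀ t, rU κ σ U c' t = 0 := fun t => by
    rw [hv t, ← hv 0]
    exact h4
  have e1 : deriv (lift γ σ lam) (1 / 2) = -deriv (lift γ σ lam) 0 := by
    rw [GCir_deriv hP, GCir_deriv hP, show 2 * π * (1 / 2) = π by ring, mul_zero, sin_pi, cos_pi,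
      sin_zero, cos_zero]
    funext i
    simp
  have a0 := GCir_hvec hN U c' 0
  have a1 := GCir_hvec hN U c' (1 / 2)
  rw [hz, zero_smul, zero_add] at a0 a1
  rw [a0, a1] at e1
  have n0 : lam 0 * deriv σ 0 ≠ 0 := (mul_pos (hN.pos_lam 0) (hN.pos_σ 0)).ne'
  have n1 : lam (1 / 2) * deriv σ (1 / 2) ≠ 0 :=
    (mul_pos (hN.pos_lam (1 / 2)) (hN.pos_σ (1 / 2))).ne'
  have hpt : γ.pt (σ 0) (U c' (σ 0)) = γ.pt (σ (1 / 2)) (U c' (σ (1 / 2))) := by
    unfold ConvexCurve.pt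
    rw [Projectivization.mk_eq_mk_iff']
    refine ⟨-((lam 0 * deriv σ 0)⁻¹ * (lam (1 / 2) * deriv σ (1 / 2))), ?_⟩
    rw [neg_smul, mul_smul, e1, smul_neg, neg_neg, smul_smul, inv_mul_cancel₀ n0, one_smul]
  obtain ⟨n, hn⟩ := h.simple c' hc' _ _ hpt
  have hmono : StrictMono σ := strictMono_of_deriv_pos hN.pos_σ
  have hT := γ.T_pos
  have m1 : σ 0 < σ (1 / 2) := hmono (by norm_num)
  have m2 : σ (1 / 2) < σ 0 + γ.T := by
    rw [← hN.per_σ 0]
    exact hmono (by norm_num)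
  have h6 : 0 < (n:ℝ) * γ.T := by linarith
  have h7 : (n:ℝ) * γ.T < 1 * γ.T := by linarith
  have h8 : (0:ℝ) < n := by
    by_contra hneg
    push Not at hneg
    have := mul_nonpos_of_nonpos_of_nonneg hneg hT.le
    linarith
  have h9 : (n:ℝ) < 1 := lt_of_mul_lt_mul_right h7 hT.le
  have h10 : (0:ℤ) < n := by exact_mod_cast h8
  have h11 : n < 1 := by exact_mod_cast h9
  omega

/-- (4), (5) -/
theorem conic_of_const {γ : ConvexCurve} {U : ℝ → ℝ → ℝ} {κ σ lam r m : ℝ → ℝ}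
    (h : Sol γ U κ) (hN : Normal γ κ σ lam r m) {r₀ : ℝ} (hr : ∀ x, r x = r₀)
    (hm : ∀ x, m x = 0) :
    ∃ g : (Fin 3 → ℝ) ≃ₗ[ℝ] (Fin 3 → ℝ), γ.trace = circ g 1 ∧
      ∀ c ∈ Ioo (0:ℝ) 1, ∃ R : ℝ, 1 < R ∧ γ.leaf U c = circ g R := by
  have hS := hN.lsys h
  have hode : ∀ x, deriv (deriv (deriv (lift γ σ lam))) x = -r₀ • deriv (lift γ σ lam) x := by
    intro x
    rw [hN.ode x, hr, hm, zero_smul, sub_zero]
  obtain ⟨w, e₀, e₁, e₂, hw, hD, hP⟩ := circle_of_const hS.curve hN.wr hode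
  obtain ⟨hw2, -⟩ := leaf_of_const hS hw hD hP (c := 1 / 2) ⟨by norm_num, by norm_num⟩
  have hσ := GCir_surj hN
  have hP' : ∀ t, lift γ σ lam t = e₀ + cos (2 * π * t) • e₁ + sin (2 * π * t) • e₂ := by
    rw [← hw2]
    exact hP
  refine ⟨crd e₀ e₁ e₂ hD, ?_, ?_⟩
  · have hv : ∀ x, γ.Γ (σ x) = (lam x)⁻¹ • ((1:ℝ) • e₀ + (1 * cos (w * x) - 0 * sin (w * x)) • e₁ +
        (1 * sin (w * x) + 0 * cos (w * x)) • e₂) := by
      intro x
      have hl := (hN.pos_lam x).ne'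
      rw [one_smul, one_mul, one_mul, zero_mul, zero_mul, sub_zero, add_zero, ← hP x]
      unfold lift
      rw [smul_smul, inv_mul_cancel₀ hl, one_smul]
    refine range_eq_circ (v := γ.Γ) γ.avec_ne fun P hP0 => ?_
    have k := GCir_cone hD (ρ := 1) (b := 0) one_pos (v := γ.Γ) (fun t => by
      obtain ⟨x, rfl⟩ := hσ t
      exact ⟨w * x, (lam x)⁻¹, inv_ne_zero (hN.pos_lam x).ne', hv x⟩) (fun θ => by
      refine ⟨σ (θ / w), (lam (θ / w))⁻¹, inv_ne_zero (hN.pos_lam _).ne', ?_⟩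
      have k := hv (θ / w)
      rwa [mul_div_cancel₀ _ hw.ne'] at k) P hP0
    rw [k]
    norm_num
  · intro c hc
    have hpos := GCir_pos h hN hD hP' hc
    obtain ⟨-, v, hv⟩ := leaf_of_const hS hw hD hP hc
    rw [hv 0] at hpos
    have hvec : ∀ x, γ.hvec (σ x) (U c (σ x)) = (lam x * deriv σ x)⁻¹ • (v • e₀ +
        (v * cos (w * x) - w * sin (w * x)) • e₁ + (v * sin (w * x) + w * cos (w * x)) • e₂) := by
      intro x
      have n0 : lam x * deriv σ x ≠ 0 := (mul_pos (hN.pos_lam x) (hN.pos_σ x)).ne'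
      have k := GCir_hvec hN U c x
      rw [hv x, GCir_deriv hP x, hP x] at k
      have e : v • e₀ + (v * cos (w * x) - w * sin (w * x)) • e₁ +
          (v * sin (w * x) + w * cos (w * x)) • e₂ =
          v • (e₀ + cos (w * x) • e₁ + sin (w * x) • e₂) +
          ((-sin (w * x) * w) • e₁ + (cos (w * x) * w) • e₂) := by
        funext i
        simp only [Pi.add_apply, Pi.smul_apply, smul_eq_mul]
        ring
      rw [e, k, smul_smul, inv_mul_cancel₀ n0, one_smul]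
    refine ⟨√(v ^ 2 + w ^ 2) / v, ?_, ?_⟩
    · rw [one_lt_div hpos]
      apply lt_sqrt_of_sq_lt
      nlinarith
    · refine range_eq_circ (v := fun t => γ.hvec t (U c t)) (fun t => γ.hvec_ne t _)
        fun P hP0 => ?_
      refine GCir_cone hD hpos (v := fun t => γ.hvec t (U c t)) (fun t => ?_) (fun θ => ?_) P hP0
      · obtain ⟨x, rfl⟩ := hσ t
        exact ⟨w * x, (lam x * deriv σ x)⁻¹,
          inv_ne_zero (mul_pos (hN.pos_lam x) (hN.pos_σ x)).ne', hvec x⟩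
      · refine ⟨σ (θ / w), (lam (θ / w) * deriv σ (θ / w))⁻¹,
          inv_ne_zero (mul_pos (hN.pos_lam _) (hN.pos_σ _)).ne', ?_⟩
        have k := hvec (θ / w)
        rwa [mul_div_cancel₀ _ hw.ne'] at k

end Pool.Agent.MP_ae5b4e_an_RIG
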