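import Mathlib
import Pool.Agent.Lib.MP_ae5b4e_an_RG.Defs

/-!
# MP_ae5b4e_an, project RIG, module GCon: the leaves of the constant structure

For `R1 = 0`, `R2 = r₀` (constant) the curve `u = 0` is a leaf for every `p / q`, `q ≥ q0 (K)`.

PROOF.  `VSol 0 r₀ a d y` says `y σ = 2 σ - d ^ 2 r₀ ∫ 0..σ ∫ 0..s y`; it depends neither on `a` nor on
the sign of `d`.  Put `c = d ^ 2 * r₀`, `|c| ≤ 1` (`d = p / q ≤ 2 / q`, `q ≥ q0` with
`4 K / q0 ^ 2 ≤ 1`).  Solutions of `y'' = - c y`, `y 0 = 0`, `y' 0 = 2`: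
`c > 0`: `y = 2 sin (w σ) / w`, `w = √c ≤ 1`; `c = 0`: `y = 2 σ`; `c < 0`: `y = 2 sinh (w σ) / w`,
`w = √(-c)`.  The double integral: `∫ 0..s 2 sin (w t) / w dt = 2 (1 - cos (w s)) / w ^ 2`, etc. (or:
show that both sides have the same second derivative).  In all the cases `y > 0` on `(0, 1]`, so
`∫ 0..1 y ≠ 0`.  ALTERNATIVELY: the power series / the fixed point of the contraction
`y ↦ 2 σ - c ∫∫ y` on `C([0,1])`, `|c| ≤ 1`: then `|y| ≤ 4`, `y ≥ 2 σ - 2 σ ^ 2 ...`; the explicit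
formulas are simpler.  With `ρ` = the value for this `y`: `Rel 0 r₀ a d ρ` and `Rel 0 r₀ a' (-d) ρ`
for all `a`, `a'`, so the law reads `0 = (ω ρ - ω ρ) / 2`.
-/

noncomputable section

namespace Pool.Agent.MP_ae5b4e_an_RIG

open Real Set Filter Topology MeasureTheory intervalIntegral
open Pool.Agent.MP_ae5b4e_an_RG

private theorem gcon_of {c : ℝ} {y Y1 Y2 : ℝ → ℝ} (hy : Continuous y)
    (h1 : ∀ x, HasDerivAt Y1 (y x) x) (h2 : ∀ x, HasDerivAt Y2 (Y1 x) x) (h10 : Y1 0 = 0)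
    (h20 : Y2 0 = 0) (he : ∀ x, y x = 2 * x - c * Y2 x) (hne : Y1 1 ≠ 0) :
    ∃ y : ℝ → ℝ, Continuous y ∧
      (∀ σ, y σ = 2 * σ - c * ∫ s in (0:ℝ)..σ, ∫ s' in (0:ℝ)..s, y s') ∧
      (∫ s in (0:ℝ)..1, y s) ≠ 0 := by
  have hY1 : Continuous Y1 := continuous_iff_continuousAt.2 fun x => (h1 x).continuousAt
  have hi1 : ∀ s, ∫ s' in (0:ℝ)..s, y s' = Y1 s := by
    intro s
    rw [integral_eq_sub_of_hasDerivAt (fun x _ => h1 x) (hy.intervalIntegrable _ _), h10, sub_zero]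
  have hi2 : ∀ σ, ∫ s in (0:ℝ)..σ, ∫ s' in (0:ℝ)..s, y s' = Y2 σ := by
    intro σ
    simp only [hi1]
    rw [integral_eq_sub_of_hasDerivAt (fun x _ => h2 x) (hY1.intervalIntegrable _ _), h20,
      sub_zero]
  refine ⟨y, hy, fun σ => ?_, ?_⟩
  · rw [hi2]
    exact he σ
  · rw [hi1]
    exact hne

private theorem gcon_exists (c : ℝ) (hc : |c| ≤ 1) :
    ∃ y : ℝ → ℝ, Continuous y ∧
      (∀ σ, y σ = 2 * σ - c * ∫ s in (0:ℝ)..σ, ∫ s' in (0:ℝ)..s, y s') ∧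
      (∫ s in (0:ℝ)..1, y s) ≠ 0 := by
  rcases lt_trichotomy c 0 with h0 | h0 | h0
  · -- hyperbolic case
    obtain ⟨v, hv, hcv⟩ : ∃ v : ℝ, 0 < v ∧ c = -v ^ 2 :=
      ⟨√(-c), Real.sqrt_pos.2 (by linarith), by rw [Real.sq_sqrt (by linarith)]; ring⟩
    have hv0 : v ≠ 0 := hv.ne'
    have hl : ∀ x : ℝ, HasDerivAt (fun t : ℝ => v * t) v x := fun x => by
      simpa using (hasDerivAt_id x).const_mul v
    refine gcon_of (y := fun x => 2 * Real.sinh (v * x) / v)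
      (Y1 := fun x => 2 * (Real.cosh (v * x) - 1) / v ^ 2)
      (Y2 := fun x => 2 * Real.sinh (v * x) / v ^ 3 - 2 * x / v ^ 2) ?_ ?_ ?_ ?_ ?_ ?_ ?_
    · fun_prop
    · intro x
      have h := (((hl x).cosh.sub_const 1).const_mul 2).div_const (v ^ 2)
      exact h.congr_deriv (by field_simp)
    · intro x
      have h := (((hl x).sinh.const_mul 2).div_const (v ^ 3)).sub
        (((hasDerivAt_id' x).const_mul 2).div_const (v ^ 2))
      exact h.congr_deriv (by field_simp)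
    · simp
    · simp
    · intro x
      rw [hcv]
      field_simp
      ring
    · have h1 : 1 < Real.cosh (v * 1) := by
        rw [Real.one_lt_cosh]
        simpa using hv0
      have h2 : 0 < 2 * (Real.cosh (v * 1) - 1) / v ^ 2 := by
        have : 0 < Real.cosh (v * 1) - 1 := by linarith
        positivity
      exact h2.ne'
  · subst h0
    refine gcon_of (y := fun x => 2 * x) (Y1 := fun x => x ^ 2) (Y2 := fun x => x ^ 3 / 3)
      ?_ ?_ ?_ ?_ ?_ ?_ ?_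
    · fun_prop
    · intro x
      simpa using hasDerivAt_pow 2 x
    · intro x
      have h := (hasDerivAt_pow 3 x).div_const 3
      exact h.congr_deriv (by norm_num)
    · simp
    · simp
    · intro x
      simp
    · norm_num
  · -- trigonometric case
    obtain ⟨v, hv, hcv⟩ : ∃ v : ℝ, 0 < v ∧ c = v ^ 2 :=
      ⟨√c, Real.sqrt_pos.2 h0, by rw [Real.sq_sqrt h0.le]⟩
    have hv0 : v ≠ 0 := hv.ne'
    have hv1 : v ≤ 1 := by
      have h1 : v ^ 2 ≤ 1 := by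
        rw [← hcv]
        exact (le_abs_self c).trans hc
      nlinarith
    have hl : ∀ x : ℝ, HasDerivAt (fun t : ℝ => v * t) v x := fun x => by
      simpa using (hasDerivAt_id x).const_mul v
    refine gcon_of (y := fun x => 2 * Real.sin (v * x) / v)
      (Y1 := fun x => 2 * (1 - Real.cos (v * x)) / v ^ 2)
      (Y2 := fun x => 2 * x / v ^ 2 - 2 * Real.sin (v * x) / v ^ 3) ?_ ?_ ?_ ?_ ?_ ?_ ?_
    · fun_prop
    · intro x
      have h := (((hl x).cos.const_sub 1).const_mul 2).div_const (v ^ 2)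
      exact h.congr_deriv (by field_simp)
    · intro x
      have h := (((hasDerivAt_id' x).const_mul 2).div_const (v ^ 2)).sub
        (((hl x).sin.const_mul 2).div_const (v ^ 3))
      exact h.congr_deriv (by field_simp)
    · simp
    · simp
    · intro x
      rw [hcv]
      field_simp
      ring
    · have h1 : Real.cos (v * 1) < 1 := by
        rw [mul_one, ← Real.cos_zero]
        exact Real.cos_lt_cos_of_nonneg_of_le_pi le_rfl
          (hv1.trans (by linarith [Real.pi_gt_three])) hv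
      have h2 : 0 < 2 * (1 - Real.cos (v * 1)) / v ^ 2 := by
        have : 0 < 1 - Real.cos (v * 1) := by linarith
        positivity
      exact h2.ne'

theorem leaf_const (K : ℝ) (hK : 0 ≤ K) : ∃ q0 : ℕ, ∀ (r₀ Cs : ℝ) (p q : ℕ), |r₀| ≤ K → 0 ≤ Cs →
    PQ p q → q0 ≤ q → Leaf (fun _ => 0) (fun _ => r₀) p q Cs (fun _ => 0) := by
  refine ⟨⌈4 * K⌉₊ + 1, fun r₀ Cs p q hr hCs hpq hq => ?_⟩
  obtain ⟨hp, hq2, -⟩ := hpq
  have hq1 : (1:ℝ) ≤ q := by exact_mod_cast (by omega : 1 ≤ q)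
  have hqpos : (0:ℝ) < q := by linarith
  have hqK : 4 * K ≤ q := by
    have h1 : 4 * K ≤ (⌈4 * K⌉₊ : ℝ) := Nat.le_ceil _
    have h2 : ((⌈4 * K⌉₊ + 1 : ℕ) : ℝ) ≤ q := by exact_mod_cast hq
    push_cast at h2
    linarith
  have hp2 : (p:ℝ) ≤ 2 := by
    rcases hp with h | h <;> rw [h] <;> norm_num
  have hp0 : (0:ℝ) ≤ p := Nat.cast_nonneg p
  have hc : |((p:ℝ) / q) ^ 2 * r₀| ≤ 1 := by
    rw [abs_mul, abs_of_nonneg (sq_nonneg _), div_pow, div_mul_eq_mul_div,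
      div_le_one (by positivity)]
    have h1 : (p:ℝ) ^ 2 ≤ 4 := by nlinarith
    calc (p:ℝ) ^ 2 * |r₀| ≤ 4 * K := mul_le_mul h1 hr (abs_nonneg _) (by norm_num)
      _ ≤ q := hqK
      _ ≤ (q:ℝ) ^ 2 := by nlinarith
  obtain ⟨y, hyc, hy, hne⟩ := gcon_exists _ hc
  have hint : ∀ σ, ∫ s in (0:ℝ)..σ, ∫ s' in (0:ℝ)..s, (0 + r₀) * y s' =
      r₀ * ∫ s in (0:ℝ)..σ, ∫ s' in (0:ℝ)..s, y s' := by
    intro σ
    simp only [zero_add, intervalIntegral.integral_const_mul]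
  have hrel : ∀ a, Rel (fun _ => 0) (fun _ => r₀) a ((p:ℝ) / q)
      ((y 1 - 2 * ∫ s in (0:ℝ)..1, y s) / ∫ s in (0:ℝ)..1, y s) := by
    intro a
    refine ⟨y, ⟨hyc.continuousOn, fun σ _ => ?_⟩, hne, rfl⟩
    rw [hint σ, ← mul_assoc]
    exact hy σ
  have hrel' : ∀ a, Rel (fun _ => 0) (fun _ => r₀) a (-((p:ℝ) / q))
      ((y 1 - 2 * ∫ s in (0:ℝ)..1, y s) / ∫ s in (0:ℝ)..1, y s) := by
    intro a
    refine ⟨y, ⟨hyc.continuousOn, fun σ _ => ?_⟩, hne, rfl⟩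
    rw [hint σ, ← mul_assoc, neg_sq]
    exact hy σ
  refine ⟨continuous_const, fun x => rfl, fun x => by simp, fun x => ?_, fun x => ?_,
    fun x => ⟨(y 1 - 2 * ∫ s in (0:ℝ)..1, y s) / ∫ s in (0:ℝ)..1, y s,
      (y 1 - 2 * ∫ s in (0:ℝ)..1, y s) / ∫ s in (0:ℝ)..1, y s, ?_, ?_, ?_⟩⟩
  · rw [abs_zero]
    positivity
  · rw [sub_self, abs_zero]
    positivity
  · rw [add_zero, sub_zero, add_zero]
    exact hrel _
  · rw [add_zero, sub_zero, add_zero]
    exact hrel' _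
  · simp

end Pool.Agent.MP_ae5b4e_an_RIG
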