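import Mathlib
import Pool.Agent.Lib.MP_ae5b4e_an_RIG.GDef

/-!
# MP_ae5b4e_an, project RIG, module GOde: equal coefficients, projectively equivalent lifts

PROOF of `exists_lin`.  Let `M x` be the matrix with the columns `P x`, `P' x`, `P'' x` (determinant
one) and `N x` the same for `Q`.  Both satisfy `M' = M A`, `N' = N A` with the same
`A x = !![0, 0, -m x; 1, 0, -r x; 0, 1, 0]`.  Hence `(N M⁻¹)' = N A M⁻¹ - N M⁻¹ (M A) M⁻¹ = 0`,
`N M⁻¹ = g` is constant, and `Q = g P`.  WITHOUT MATRICES: put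
`g v := det3 v (P' 0) (P'' 0) • Q 0 + det3 (P 0) v (P'' 0) • Q' 0 + det3 (P 0) (P' 0) v • Q'' 0`
(linear in `v`; the inverse is the same formula with `P` and `Q` exchanged, because both determinants
are one: Cramer).  The difference `D x := Q x - g (P x)` satisfies `D''' = -r D' - m D` and
`D 0 = D' 0 = D'' 0 = 0`; a Gronwall argument (`ODE_solution_unique_univ` for
`(D, D', D'') : ℝ → (Fin 3 → ℝ) × (Fin 3 → ℝ) × (Fin 3 → ℝ)`, the field is Lipschitz with a
constant valid on `[-n, n]`, or on `ℝ` since `r`, `m` are bounded) gives `D = 0`.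

`map_pt`: the point of the tangent line at `σ x` with the coordinate
`κ (σ x) / 2 + v / deriv σ x` is represented by `P' x + v • P x`, `P = lift γ σ lam`:
`P' = lam' • Γ + lam * σ' • Γ'` and `lam' = lam * (κ / 2) * σ'` give
`P' + v P = lam * σ' • ((κ / 2 + v / σ') • Γ + Γ')`, and `γ.hvec_eq`.  Apply `g`.
-/

noncomputable section

namespace Pool.Agent.MP_ae5b4e_an_RIG

open Real Set Filter Topology
open scoped ContDiff
open Pool.Agent.MP_ae5b4e_an_hopf
open Pool.Agent.MP_ae5b4e_an_RG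

/-- Cramer's rule -/
private lemma GOde_cramer (a b c v : Fin 3 → ℝ) (h : det3 a b c = 1) :
    v = det3 v b c • a + det3 a v c • b + det3 a b v • c := by
  funext i
  simp only [Pi.add_apply, Pi.smul_apply, smul_eq_mul]
  have h1 : det3 a b c * v i = det3 v b c * a i + det3 a v c * b i + det3 a b v * c i := by
    fin_cases i <;> simp only [det3, Fin.zero_eta, Fin.mk_one, Fin.reduceFinMk] <;> ring
  rw [h, one_mul] at h1
  exact h1

/-- the linear map taking the basis `p` (of determinant one) to `q` -/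
private def GOde_map (p0 p1 p2 q0 q1 q2 : Fin 3 → ℝ) : (Fin 3 → ℝ) →ₗ[ℝ] (Fin 3 → ℝ) where
  toFun v := det3 v p1 p2 • q0 + det3 p0 v p2 • q1 + det3 p0 p1 v • q2
  map_add' v w := by
    funext i
    simp only [det3, Pi.add_apply, Pi.smul_apply, smul_eq_mul]
    ring
  map_smul' t v := by
    funext i
    simp only [det3, Pi.add_apply, Pi.smul_apply, smul_eq_mul, RingHom.id_apply]
    ring

private lemma GOde_map_inj (p0 p1 p2 q0 q1 q2 : Fin 3 → ℝ) (hp : det3 p0 p1 p2 = 1)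
    (hq : det3 q0 q1 q2 = 1) : Function.Injective (GOde_map p0 p1 p2 q0 q1 q2) := by
  rw [injective_iff_map_eq_zero]
  intro v hv
  change det3 v p1 p2 • q0 + det3 p0 v p2 • q1 + det3 p0 p1 v • q2 = 0 at hv
  have hc := GOde_cramer p0 p1 p2 v hp
  set a := det3 v p1 p2
  set b := det3 p0 v p2
  set c := det3 p0 p1 v
  have h0 : ∀ i, a * q0 i + b * q1 i + c * q2 i = 0 := fun i => by
    have := congrFun hv i
    simpa using this
  have ha : a = 0 := by
    have : a * det3 q0 q1 q2 = 0 := by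
      unfold det3
      linear_combination (q1 1 * q2 2 - q1 2 * q2 1) * h0 0 - (q1 0 * q2 2 - q1 2 * q2 0) * h0 1 +
        (q1 0 * q2 1 - q1 1 * q2 0) * h0 2
    rwa [hq, mul_one] at this
  have hb : b = 0 := by
    have : b * det3 q0 q1 q2 = 0 := by
      unfold det3
      linear_combination (q2 1 * q0 2 - q2 2 * q0 1) * h0 0 - (q2 0 * q0 2 - q2 2 * q0 0) * h0 1 +
        (q2 0 * q0 1 - q2 1 * q0 0) * h0 2
    rwa [hq, mul_one] at this
  have hc' : c = 0 := by
    have : c * det3 q0 q1 q2 = 0 := by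
      unfold det3
      linear_combination (q0 1 * q1 2 - q0 2 * q1 1) * h0 0 - (q0 0 * q1 2 - q0 2 * q1 0) * h0 1 +
        (q0 0 * q1 1 - q0 1 * q1 0) * h0 2
    rwa [hq, mul_one] at this
  rw [hc, ha, hb, hc']
  simp

private lemma GOde_hd {P : ℝ → Fin 3 → ℝ} (hP : ContDiff ℝ ∞ P) (x : ℝ) :
    HasDerivAt P (deriv P x) x ∧ HasDerivAt (deriv P) (deriv (deriv P) x) x ∧
      HasDerivAt (deriv (deriv P)) (deriv (deriv (deriv P)) x) x := by
  have h1 := contDiff_infty_iff_deriv.1 hP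
  have h2 := contDiff_infty_iff_deriv.1 h1.2
  have h3 := contDiff_infty_iff_deriv.1 h2.2
  exact ⟨(h1.1 x).hasDerivAt, (h2.1 x).hasDerivAt, (h3.1 x).hasDerivAt⟩

theorem exists_lin {P Q : ℝ → Fin 3 → ℝ} {r m : ℝ → ℝ} (hP : ContDiff ℝ ∞ P)
    (hQ : ContDiff ℝ ∞ Q) (hr : ContDiff ℝ ∞ r) (hm : ContDiff ℝ ∞ m)
    (pr : Function.Periodic r 1) (pm : Function.Periodic m 1)
    (hWP : ∀ x, det3 (P x) (deriv P x) (deriv (deriv P) x) = 1)
    (hWQ : ∀ x, det3 (Q x) (deriv Q x) (deriv (deriv Q) x) = 1)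
    (hoP : ∀ x, deriv (deriv (deriv P)) x = -(r x) • deriv P x - m x • P x)
    (hoQ : ∀ x, deriv (deriv (deriv Q)) x = -(r x) • deriv Q x - m x • Q x) :
    ∃ g : (Fin 3 → ℝ) ≃ₗ[ℝ] (Fin 3 → ℝ), ∀ x, Q x = g (P x) := by
  set G : ℝ → (Fin 3 → ℝ) → (Fin 3 → ℝ) := fun x v =>
    GOde_map (P x) (deriv P x) (deriv (deriv P) x) (Q x) (deriv Q x) (deriv (deriv Q) x) v with hG
  have hconst : ∀ v x, G x v = G 0 v := by
    intro v x
    have hd : ∀ y, HasDerivAt (fun y => G y v) 0 y := by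
      intro y
      obtain ⟨p0, p1, p2⟩ := GOde_hd hP y
      obtain ⟨q0, q1, q2⟩ := GOde_hd hQ y
      have hv : HasDerivAt (fun _ : ℝ => v) 0 y := hasDerivAt_const y v
      have h1 := (hasDerivAt_det3 hv p1 p2).smul q0
      have h2 := (hasDerivAt_det3 p0 hv p2).smul q1
      have h3 := (hasDerivAt_det3 p0 p1 hv).smul q2
      refine ((h1.add h2).add h3).congr_deriv ?_
      rw [hoP, hoQ]
      funext i
      simp only [det3, Pi.add_apply, Pi.smul_apply, smul_eq_mul, Pi.sub_apply, Pi.zero_apply,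
        Pi.neg_apply]
      ring
    exact is_const_of_deriv_eq_zero (fun y => (hd y).differentiableAt) (fun y => (hd y).deriv) x 0
  refine ⟨LinearEquiv.ofInjectiveEndo _ (GOde_map_inj _ _ _ _ _ _ (hWP 0) (hWQ 0)), fun x => ?_⟩
  change Q x = G 0 (P x)
  rw [← hconst (P x) x]
  change Q x = det3 (P x) (deriv P x) (deriv (deriv P) x) • Q x +
    det3 (P x) (P x) (deriv (deriv P) x) • deriv Q x + det3 (P x) (deriv P x) (P x) •
      deriv (deriv Q) x
  rw [hWP, det3_self_left, det3_self_outer, zero_smul, zero_smul, one_smul, add_zero, add_zero]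

/-- the coordinate `u` on the tangent line at `σ x` of the point `P' x + v P x` -/
def nrm (κ σ : ℝ → ℝ) (x v : ℝ) : ℝ := κ (σ x) / 2 + v / deriv σ x

private lemma GOde_lift {γ : ConvexCurve} {κ σ lam r m : ℝ → ℝ} (hN : Normal γ κ σ lam r m)
    (x v : ℝ) : deriv (lift γ σ lam) x + v • lift γ σ lam x =
      (lam x * deriv σ x) • γ.hvec (σ x) (nrm κ σ x v) := by
  have hσ : HasDerivAt σ (deriv σ x) x :=
    ((contDiff_infty_iff_deriv.1 hN.smooth_σ).1 x).hasDerivAt
  have hl : HasDerivAt lam (deriv lam x) x :=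
    ((contDiff_infty_iff_deriv.1 hN.smooth_lam).1 x).hasDerivAt
  have hΓ : HasDerivAt γ.Γ (deriv γ.Γ (σ x)) (σ x) :=
    ((contDiff_infty_iff_deriv.1 γ.smooth_Γ).1 (σ x)).hasDerivAt
  have hd : HasDerivAt (lift γ σ lam) (lam x • (deriv σ x • deriv γ.Γ (σ x)) +
      deriv lam x • γ.Γ (σ x)) x :=
    hl.smul (HasDerivAt.scomp x hΓ hσ)
  rw [hd.deriv, hN.eq_lam, γ.hvec_eq]
  have hs := (hN.pos_σ x).ne'
  funext i
  simp only [lift, nrm, Pi.add_apply, Pi.smul_apply, smul_eq_mul]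
  field_simp
  ring

/-- The projective map given by `g` takes the point with the normal coordinate `v` of the tangent
line at `x` of the first curve to the point with the same coordinate for the second curve; hence it
conjugates the involutions `v ↦ -v`. -/
theorem map_pt {γ γ' : ConvexCurve} {κ σ lam r m κ' σ' lam' r' m' : ℝ → ℝ}
    (hN : Normal γ κ σ lam r m) (hN' : Normal γ' κ' σ' lam' r' m')
    {g : (Fin 3 → ℝ) ≃ₗ[ℝ] (Fin 3 → ℝ)}
    (hg : ∀ x, lift γ' σ' lam' x = g (lift γ σ lam x)) (x v : ℝ) :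
    Projectivization.map g.toLinearMap g.injective (γ.pt (σ x) (nrm κ σ x v)) =
      γ'.pt (σ' x) (nrm κ' σ' x v) := by
  have e1 := GOde_lift hN x v
  have e2 := GOde_lift hN' x v
  set s := lam x * deriv σ x with hs
  set s' := lam' x * deriv σ' x with hs'
  have hs0 : s ≠ 0 := mul_ne_zero (hN.pos_lam x).ne' (hN.pos_σ x).ne'
  have hs0' : s' ≠ 0 := mul_ne_zero (hN'.pos_lam x).ne' (hN'.pos_σ x).ne'
  have hdiff : HasDerivAt (lift γ σ lam) (deriv (lift γ σ lam) x) x := by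
    have hσ : HasDerivAt σ (deriv σ x) x :=
      ((contDiff_infty_iff_deriv.1 hN.smooth_σ).1 x).hasDerivAt
    have hl : HasDerivAt lam (deriv lam x) x :=
      ((contDiff_infty_iff_deriv.1 hN.smooth_lam).1 x).hasDerivAt
    have hΓ : HasDerivAt γ.Γ (deriv γ.Γ (σ x)) (σ x) :=
      ((contDiff_infty_iff_deriv.1 γ.smooth_Γ).1 (σ x)).hasDerivAt
    have hd : HasDerivAt (lift γ σ lam) (lam x • (deriv σ x • deriv γ.Γ (σ x)) +
        deriv lam x • γ.Γ (σ x)) x :=
      hl.smul (HasDerivAt.scomp x hΓ hσ)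
    exact hd.differentiableAt.hasDerivAt
  have hg' : deriv (lift γ' σ' lam') x = g (deriv (lift γ σ lam) x) := by
    have h1 : lift γ' σ' lam' = fun x => g.toContinuousLinearEquiv (lift γ σ lam x) :=
      funext fun y => hg y
    rw [h1]
    exact (g.toContinuousLinearEquiv.hasFDerivAt.comp_hasDerivAt x hdiff).deriv
  have key : s • g (γ.hvec (σ x) (nrm κ σ x v)) = s' • γ'.hvec (σ' x) (nrm κ' σ' x v) := by
    rw [← e2, hg', hg, ← map_smul, ← map_smul, ← map_add, e1]
  unfold ConvexCurve.pt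
  rw [Projectivization.map_mk, Projectivization.mk_eq_mk_iff']
  refine ⟨s⁻¹ * s', ?_⟩
  rw [mul_smul, ← key, smul_smul, inv_mul_cancel₀ hs0, one_smul]
  rfl

end Pool.Agent.MP_ae5b4e_an_RIG
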