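import Mathlib
import Pool.Agent.Lib.MP_ae5b4e_an_RIG.GGeo
import Pool.Agent.Lib.MP_ae5b4e_an_RIG.GEx
import Pool.Agent.Lib.MP_ae5b4e_an_RIG.GMod
import Pool.Agent.Lib.MP_ae5b4e_an_RIG.GOde
import Pool.Agent.Lib.MP_ae5b4e_an_RIG.GCon
import Pool.Agent.Lib.MP_ae5b4e_an_RIG.GCir

/-!
# MP_ae5b4e_an, project RIG, module GFin: the theorem

The analytic core `determinacy` (`CFin.lean`, helper42) is a hypothesis (`Det`) here.

PROOF.  `K' := max K 0`.  `A0 := 2 K'`, `Cs`, `q0` from `geo_unif` (and `leaf_const K'`: take the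
larger `q0` and, for the constant structure, the same `Cs`).  `Q`, `C`, `ρ0` from `Det`.
(ii) For the two solutions: `hN.lsys h`, `hN.step h hR`, `geo_unif` give `∫ m = 0` and the leaves
for `R1 = prm m`, `R2 = r - prm m`; `dec`.  If `‖rc r k - rc r' k‖ ≤ B`, `‖rc m k - rc m' k‖ ≤ B`
for `|k| ≤ Q`, then `‖rc R1 k - rc R1' k‖ ≤ B` (`k = 0`: both vanish; `k ≠ 0`: `rc_eq_prm`, `2 π
|k| ≥ 1`) and `‖rc R2 k - rc R2' k‖ ≤ 2 B`.  `Det` and `transfer`.
`B = 0`: all the coefficients agree, `eq_of_rc` gives `r = r'`, `m = m'`; `exists_lin`, `map_pt`.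
(iii) `r₀ := mean of r`, `|r₀| ≤ K'`; apply `Det` to `(prm m, r - prm m)` and `(0, r₀)` with `B =
0`: the coefficients of `prm m` with `|k| ≤ Q` vanish and those of `r - prm m` agree with those of
the constant `r₀`.  So `rc (prm m) k = 0` for all `k`, `rc r k = 0` for `k ≠ 0`; `m = 0`, `r =
r₀`; `conic_of_const`.
(iv) From `lift (x + 1/N) = g (lift x)`, differentiating, `r (x + 1/N) = r x`, `m (x + 1/N) = m x`
(uniqueness of the coefficients of the equation: `P`, `P'` are independent, as `det (P, P', P'') =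
1`), hence `rc r k = e(k/N) rc r k` and `rc r k = 0` unless `N ∣ k`; `N > Q`: (iii).
-/

noncomputable section

namespace Pool.Agent.MP_ae5b4e_an_RIG

open Real Set Filter Topology MeasureTheory intervalIntegral
open scoped ContDiff
open Pool.Agent.MP_ae5b4e_an_hopf
open Pool.Agent.MP_ae5b4e_an_RG

/-- the statement of the analytic core (`CFin.determinacy`) -/
def Det : Prop :=
  ∀ (A0 Cs : ℝ) (q0 : ℕ), 0 ≤ A0 → 0 ≤ Cs → ∃ (Q : ℕ) (C ρ0 : ℝ), 0 < C ∧ 0 < ρ0 ∧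
    ∀ R1 R2 R1' R2' : ℝ → ℝ, Dec 0 0 A0 R1 → Dec 0 0 A0 R2 → Dec 0 0 A0 R1' → Dec 0 0 A0 R2' →
      (∀ p q, PQ p q → q0 ≤ q → ∃ u, Leaf R1 R2 p q Cs u) →
      (∀ p q, PQ p q → q0 ≤ q → ∃ u, Leaf R1' R2' p q Cs u) →
      ∀ B : ℝ, (∀ k : ℤ, |(k:ℝ)| ≤ Q → ‖rc R1 k - rc R1' k‖ ≤ B ∧ ‖rc R2 k - rc R2' k‖ ≤ B) →
        ∀ k : ℤ, ‖rc R1 k - rc R1' k‖ ≤ C * B * Real.exp (-(ρ0 * |(k:ℝ)|)) ∧
          ‖rc R2 k - rc R2' k‖ ≤ C * B * Real.exp (-(ρ0 * |(k:ℝ)|))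

private lemma Bnd.mono {K K' : ℝ} {r m : ℝ → ℝ} (h : Bnd K r m) (hK : K ≤ K') : Bnd K' r m :=
  ⟨fun x => (h.r0 x).trans hK, fun x => (h.r1 x).trans hK, fun x => (h.r2 x).trans hK,
    fun x => (h.r3 x).trans hK, fun x => (h.m0 x).trans hK, fun x => (h.m1 x).trans hK,
    fun x => (h.m2 x).trans hK⟩

/-- one application of the geometric part -/
theorem data_of_sol (K δ : ℝ) (hK : 0 ≤ K) (hδ : 0 < δ) : ∃ (Cs : ℝ) (q0 : ℕ), 0 ≤ Cs ∧
    ∀ (γ : ConvexCurve) (U : ℝ → ℝ → ℝ) (κ σ lam r m : ℝ → ℝ), Sol γ U κ →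
      Normal γ κ σ lam r m → Bnd K r m → Reach γ U σ δ →
      (∫ x in (0:ℝ)..1, m x = 0) ∧ Dec 0 0 (2 * K) (prm m) ∧
      Dec 0 0 (2 * K) (fun x => r x - prm m x) ∧
      ∀ p q : ℕ, PQ p q → q0 ≤ q → ∃ u, Leaf (prm m) (fun x => r x - prm m x) p q Cs u := by
  obtain ⟨Cs, q0, hCs, H⟩ := geo_unif K δ hK hδ
  refine ⟨Cs, q0, hCs, ?_⟩
  intro γ U κ σ lam r m h hN hB hR
  obtain ⟨h0, hL⟩ := H (lift γ σ lam) (rU κ σ U) r m (hN.lsys h) hN.wr hN.smooth_r hN.smooth_m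
    hN.per_r hN.per_m hN.ode hB (hN.step h hR)
  have hd := dec hN.smooth_r hN.smooth_m hN.per_r hN.per_m h0 hB
  exact ⟨h0, hd.1, hd.2, hL _ _ (hasDerivAt_prm hN.smooth_m) (fun _ => rfl)⟩

private lemma gf_V3 : V 0 0 3 0 = 1 := by
  unfold V w
  simp

/-- constants -/
private lemma gf_hasSum (c : ℝ) (x : ℝ) :
    HasSum (fun k : ℤ => (if k = 0 then (c:ℂ) else 0) * e k x) ((c : ℝ) : ℂ) := by
  have h1 : (fun k : ℤ => (if k = 0 then (c:ℂ) else 0) * e k x) =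
      fun k : ℤ => if k = 0 then (c:ℂ) else 0 := by
    funext k
    by_cases hk : k = 0
    · rw [if_pos hk, hk, e_zero, mul_one]
    · rw [if_neg hk, zero_mul]
  rw [h1]
  exact hasSum_ite_eq 0 (c:ℂ)

private lemma gf_dec {A c : ℝ} (h : |c| ≤ A) : Dec 0 0 A (fun _ => c) := by
  refine ⟨fun k => if k = 0 then (c:ℂ) else 0, fun k => ?_, fun x => gf_hasSum c x⟩
  have hA : 0 ≤ A := (abs_nonneg c).trans h
  show ‖(if k = 0 then (c:ℂ) else 0)‖ ≤ A / V 0 0 3 k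
  by_cases hk : k = 0
  · rw [if_pos hk, hk, gf_V3, div_one, Complex.norm_real]
    exact h
  · rw [if_neg hk, norm_zero]
    exact div_nonneg hA (V_pos 0 0 3 k).le

private lemma gf_rc_const (c : ℝ) (k : ℤ) :
    rc (fun _ => c) k = if k = 0 then (c:ℂ) else 0 := by
  refine fc_of_hasSum (a := fun k : ℤ => if k = 0 then (c:ℂ) else 0) ?_
    (fun x => gf_hasSum c x) k
  refine summable_of_ne_finset_zero (s := {0}) fun k hk => ?_
  rw [Finset.mem_singleton] at hk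
  rw [if_neg hk, norm_zero]

/-- (ii), (iii) with the same constants -/
theorem rig (hDet : Det) (K δ : ℝ) (hδ : 0 < δ) : ∃ (Q : ℕ) (C ρ : ℝ), 0 < C ∧ 0 < ρ ∧
    (∀ (γ : ConvexCurve) (U : ℝ → ℝ → ℝ) (κ σ lam r m : ℝ → ℝ) (γ' : ConvexCurve)
      (U' : ℝ → ℝ → ℝ) (κ' σ' lam' r' m' : ℝ → ℝ), Sol γ U κ → Normal γ κ σ lam r m →
      Bnd K r m → Reach γ U σ δ → Sol γ' U' κ' → Normal γ' κ' σ' lam' r' m' → Bnd K r' m' →
      Reach γ' U' σ' δ →
      (∀ B : ℝ, (∀ k : ℤ, |(k:ℝ)| ≤ Q → ‖rc r k - rc r' k‖ ≤ B ∧ ‖rc m k - rc m' k‖ ≤ B) →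
        ∀ k : ℤ, ‖rc r k - rc r' k‖ ≤ C * B * Real.exp (-(ρ * |(k:ℝ)|)) ∧
          ‖rc m k - rc m' k‖ ≤ C * B * Real.exp (-(ρ * |(k:ℝ)|))) ∧
      ((∀ k : ℤ, |(k:ℝ)| ≤ Q → rc r k = rc r' k ∧ rc m k = rc m' k) →
        ∃ g : (Fin 3 → ℝ) ≃ₗ[ℝ] (Fin 3 → ℝ), ∀ x v,
          Projectivization.map g.toLinearMap g.injective (γ.pt (σ x) (nrm κ σ x v)) =
            γ'.pt (σ' x) (nrm κ' σ' x v))) ∧
    ∀ (γ : ConvexCurve) (U : ℝ → ℝ → ℝ) (κ σ lam r m : ℝ → ℝ), Sol γ U κ →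
      Normal γ κ σ lam r m → Bnd K r m → Reach γ U σ δ →
      (∀ k : ℤ, 1 ≤ |(k:ℝ)| → |(k:ℝ)| ≤ Q → rc r k = 0 ∧ rc m k = 0) →
      ∃ g : (Fin 3 → ℝ) ≃ₗ[ℝ] (Fin 3 → ℝ), γ.trace = circ g 1 ∧
        ∀ c ∈ Ioo (0:ℝ) 1, ∃ R : ℝ, 1 < R ∧ γ.leaf U c = circ g R := by
  obtain ⟨K', hK', hKK⟩ : ∃ K' : ℝ, 0 ≤ K' ∧ K ≤ K' := ⟨max K 0, le_max_right _ _, le_max_left _ _⟩
  obtain ⟨Cs, q0, hCs, HD⟩ := data_of_sol K' δ hK' hδ
  obtain ⟨q1, HL⟩ := leaf_const K' hK'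
  obtain ⟨Q, C, ρ0, hC, hρ0, H⟩ := hDet (2 * K') Cs (max q0 q1) (by positivity) hCs
  obtain ⟨C', hC', HT⟩ := transfer hρ0
  -- the main estimate
  have main : ∀ (γ : ConvexCurve) (U : ℝ → ℝ → ℝ) (κ σ lam r m : ℝ → ℝ) (γ' : ConvexCurve)
      (U' : ℝ → ℝ → ℝ) (κ' σ' lam' r' m' : ℝ → ℝ), Sol γ U κ → Normal γ κ σ lam r m →
      Bnd K r m → Reach γ U σ δ → Sol γ' U' κ' → Normal γ' κ' σ' lam' r' m' → Bnd K r' m' →
      Reach γ' U' σ' δ →
      ∀ B : ℝ, (∀ k : ℤ, |(k:ℝ)| ≤ Q → ‖rc r k - rc r' k‖ ≤ B ∧ ‖rc m k - rc m' k‖ ≤ B) →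
        ∀ k : ℤ, ‖rc r k - rc r' k‖ ≤ 2 * C' * C * B * Real.exp (-(ρ0 / 2 * |(k:ℝ)|)) ∧
          ‖rc m k - rc m' k‖ ≤ 2 * C' * C * B * Real.exp (-(ρ0 / 2 * |(k:ℝ)|)) := by
    intro γ U κ σ lam r m γ' U' κ' σ' lam' r' m' h hN hB hR h' hN' hB' hR' B hk k
    obtain ⟨i0, d1, d2, L⟩ := HD γ U κ σ lam r m h hN (hB.mono hKK) hR
    obtain ⟨i0', d1', d2', L'⟩ := HD γ' U' κ' σ' lam' r' m' h' hN' (hB'.mono hKK) hR'
    have hB0 : 0 ≤ B := (norm_nonneg _).trans (hk 0 (by simp)).1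
    have hk' : ∀ k : ℤ, |(k:ℝ)| ≤ Q → ‖rc (prm m) k - rc (prm m') k‖ ≤ 2 * B ∧
        ‖rc (fun x => r x - prm m x) k - rc (fun x => r' x - prm m' x) k‖ ≤ 2 * B := by
      intro k hkQ
      obtain ⟨k1, k2⟩ := hk k hkQ
      have e1 : ‖rc (prm m) k - rc (prm m') k‖ ≤ B := by
        by_cases hk0 : k = 0
        · rw [hk0, rc_prm_zero hN.smooth_m, rc_prm_zero hN'.smooth_m, sub_self, norm_zero]
          exact hB0
        · rw [rc_eq_prm hN.smooth_m hN.per_m i0, rc_eq_prm hN'.smooth_m hN'.per_m i0',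
            ← mul_sub, norm_mul] at k2
          have e2 : 1 ≤ ‖2 * (π:ℂ) * Complex.I * (k:ℂ)‖ := by
            rw [norm_mul, norm_mul, norm_mul, Complex.norm_I, Complex.norm_real, Complex.norm_two,
              Complex.norm_intCast, Real.norm_of_nonneg pi_pos.le, mul_one]
            have e3 : (1:ℝ) ≤ |(k:ℝ)| := by exact_mod_cast Int.one_le_abs hk0
            nlinarith [pi_gt_three]
          calc ‖rc (prm m) k - rc (prm m') k‖
              ≤ ‖2 * (π:ℂ) * Complex.I * (k:ℂ)‖ * ‖rc (prm m) k - rc (prm m') k‖ :=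
                le_mul_of_one_le_left (norm_nonneg _) e2
            _ ≤ B := k2
      refine ⟨by linarith, ?_⟩
      rw [rc_sub_prm hN.smooth_r hN.smooth_m, rc_sub_prm hN'.smooth_r hN'.smooth_m]
      have e4 : rc r k - rc (prm m) k - (rc r' k - rc (prm m') k) =
          (rc r k - rc r' k) - (rc (prm m) k - rc (prm m') k) := by ring
      rw [e4]
      refine (norm_sub_le _ _).trans ?_
      linarith
    obtain ⟨f1, f2⟩ := H (prm m) (fun x => r x - prm m x) (prm m') (fun x => r' x - prm m' x)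
      d1 d2 d1' d2' (fun p q hp hq => L p q hp ((le_max_left _ _).trans hq))
      (fun p q hp hq => L' p q hp ((le_max_left _ _).trans hq)) (2 * B) hk' k
    have f3 := HT (C * (2 * B)) r m r' m' (by positivity) hN.smooth_r hN.smooth_m hN'.smooth_r
      hN'.smooth_m hN.per_m hN'.per_m i0 i0' k f1 f2
    have f4 : C' * (C * (2 * B)) = 2 * C' * C * B := by ring
    rw [f4] at f3
    exact f3
  refine ⟨Q, 2 * C' * C, ρ0 / 2, by positivity, by positivity, ?_, ?_⟩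
  · intro γ U κ σ lam r m γ' U' κ' σ' lam' r' m' h hN hB hR h' hN' hB' hR'
    refine ⟨main γ U κ σ lam r m γ' U' κ' σ' lam' r' m' h hN hB hR h' hN' hB' hR', ?_⟩
    intro hk
    have h0 := main γ U κ σ lam r m γ' U' κ' σ' lam' r' m' h hN hB hR h' hN' hB' hR' 0
      (fun k hkQ => by
        obtain ⟨k1, k2⟩ := hk k hkQ
        rw [k1, k2, sub_self, sub_self, norm_zero]
        exact ⟨le_refl _, le_refl _⟩)
    simp only [mul_zero, zero_mul, norm_le_zero_iff, sub_eq_zero] at h0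
    have hr : r = r' := eq_of_rc hN.smooth_r hN'.smooth_r hN.per_r hN'.per_r fun k => (h0 k).1
    have hm : m = m' := eq_of_rc hN.smooth_m hN'.smooth_m hN.per_m hN'.per_m fun k => (h0 k).2
    have o' : ∀ x, deriv (deriv (deriv (lift γ' σ' lam'))) x =
        -(r x) • deriv (lift γ' σ' lam') x - m x • lift γ' σ' lam' x := by
      intro x
      rw [hr, hm]
      exact hN'.ode x
    obtain ⟨g, hg⟩ := exists_lin (hN.lsys h).curve.smooth (hN'.lsys h').curve.smooth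
      hN.smooth_r hN.smooth_m hN.per_r hN.per_m hN.wr hN'.wr hN.ode o'
    exact ⟨g, fun x v => map_pt hN hN' hg x v⟩
  · intro γ U κ σ lam r m h hN hB hR hk
    obtain ⟨i0, d1, d2, L⟩ := HD γ U κ σ lam r m h hN (hB.mono hKK) hR
    -- the mean value
    obtain ⟨r₀, hr0, hr0K⟩ : ∃ r₀ : ℝ, rc r 0 = (r₀:ℂ) ∧ |r₀| ≤ K' := by
      refine ⟨∫ x in (0:ℝ)..1, r x, ?_, ?_⟩
      · unfold rc fc
        rw [← intervalIntegral.integral_ofReal]
        congr 1
        funext x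
        rw [neg_zero, e_zero, mul_one]
      · have := intervalIntegral.norm_integral_le_of_norm_le_const (a := (0:ℝ)) (b := 1)
          (f := r) (C := K') (fun x _ => (hB.r0 x).trans hKK)
        rw [sub_zero, abs_one, mul_one] at this
        exact this
    have hcoef : ∀ k : ℤ, |(k:ℝ)| ≤ Q → rc (prm m) k = 0 ∧
        rc (fun x => r x - prm m x) k = rc (fun _ => r₀) k := by
      intro k hkQ
      by_cases hk0 : k = 0
      · rw [rc_sub_prm hN.smooth_r hN.smooth_m, hk0, rc_prm_zero hN.smooth_m, sub_zero,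
          gf_rc_const, if_pos rfl]
        exact ⟨rfl, hr0⟩
      · have e3 : (1:ℝ) ≤ |(k:ℝ)| := by exact_mod_cast Int.one_le_abs hk0
        obtain ⟨k1, k2⟩ := hk k e3 hkQ
        rw [rc_eq_prm hN.smooth_m hN.per_m i0] at k2
        have e4 : (2 * (π:ℂ) * Complex.I * (k:ℂ)) ≠ 0 := by
          have h1 : (k : ℂ) ≠ 0 := by exact_mod_cast hk0
          exact mul_ne_zero Complex.two_pi_I_ne_zero h1
        have e5 : rc (prm m) k = 0 := (mul_eq_zero.1 k2).resolve_left e4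
        rw [rc_sub_prm hN.smooth_r hN.smooth_m, e5, k1, gf_rc_const, if_neg hk0, sub_zero]
        exact ⟨rfl, rfl⟩
    have hdet := H (prm m) (fun x => r x - prm m x) (fun _ => 0) (fun _ => r₀) d1 d2
      (gf_dec (by rw [abs_zero]; positivity))
      (gf_dec (hr0K.trans (by linarith)))
      (fun p q hp hq => L p q hp ((le_max_left _ _).trans hq))
      (fun p q hp hq => ⟨fun _ => 0, HL r₀ Cs p q hr0K hCs hp ((le_max_right _ _).trans hq)⟩) 0
      (fun k hkQ => by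
        obtain ⟨k1, k2⟩ := hcoef k hkQ
        rw [k1, k2, gf_rc_const]
        simp)
    simp only [mul_zero, zero_mul, norm_le_zero_iff, sub_eq_zero] at hdet
    have hz : ∀ k, rc (prm m) k = 0 := fun k => by
      rw [(hdet k).1, gf_rc_const]
      simp
    have hm : m = fun _ => 0 := by
      refine eq_of_rc hN.smooth_m contDiff_const hN.per_m (fun _ => rfl) fun k => ?_
      rw [rc_eq_prm hN.smooth_m hN.per_m i0, hz k, mul_zero, gf_rc_const]
      simp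
    have hr : r = fun _ => r₀ := by
      refine eq_of_rc hN.smooth_r contDiff_const hN.per_r (fun _ => rfl) fun k => ?_
      have e1 := (hdet k).2
      rw [rc_sub_prm hN.smooth_r hN.smooth_m, hz k, sub_zero] at e1
      exact e1
    exact conic_of_const h hN (fun x => congrFun hr x) (fun x => congrFun hm x)

private lemma gf_deriv {P : ℝ → Fin 3 → ℝ} (hP : ContDiff ℝ ∞ P)
    {g : (Fin 3 → ℝ) ≃ₗ[ℝ] (Fin 3 → ℝ)} {c : ℝ} (h : ∀ x, P (x + c) = g (P x)) (x : ℝ) :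
    deriv P (x + c) = g (deriv P x) := by
  have h1 : (fun x => P (x + c)) = fun x => g (P x) := funext h
  have h2 : deriv (fun x => P (x + c)) x = deriv P (x + c) := deriv_comp_add_const ..
  have h3 : HasDerivAt (fun x => g (P x)) (g (deriv P x)) x :=
    (LinearMap.toContinuousLinearMap g.toLinearMap).hasFDerivAt.comp_hasDerivAt x
      ((contDiff_infty_iff_deriv.1 hP).1 x).hasDerivAt
  rw [← h2, h1, h3.deriv]

/-- shift of Fourier coefficients -/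
private lemma gf_fc_shift {f : ℝ → ℂ} (hp : Function.Periodic f 1) (y : ℝ) (k : ℤ) :
    fc (fun x => f (x + y)) k = e k y * fc f k := by
  unfold fc
  have h1 : ∀ x, f (x + y) * e (-k) x = e k y * (f (x + y) * e (-k) (x + y)) := by
    intro x
    have h2 : e (-k) (x + y) = e (-k) x * e (-k) y := e_shift _ _ _
    have h3 : e k y * e (-k) y = 1 := by
      rw [← e_add, add_neg_cancel, e_zero]
    rw [h2]
    linear_combination (-(f (x + y) * e (-k) x)) * h3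
  simp only [h1]
  rw [intervalIntegral.integral_const_mul]
  congr 1
  have h4 : ∫ x in (0:ℝ)..1, f (x + y) * e (-k) (x + y) =
      ∫ x in (0 + y)..(1 + y), f x * e (-k) x :=
    intervalIntegral.integral_comp_add_right (fun x => f x * e (-k) x) y
  rw [h4, zero_add, add_comm (1:ℝ) y]
  have h5 : Function.Periodic (fun x => f x * e (-k) x) 1 := hp.mul (periodic_e (-k))
  have h6 := h5.intervalIntegral_add_eq y 0
  rw [zero_add] at h6
  exact h6

private lemma gf_rc_zero {R : ℝ → ℝ} (pR : Function.Periodic R 1) {N Q : ℕ} (hNQ : Q < N)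
    (h : ∀ x, R (x + 1 / N) = R x) (k : ℤ) (h1 : 1 ≤ |(k:ℝ)|) (hQ : |(k:ℝ)| ≤ Q) :
    rc R k = 0 := by
  have hN0 : (N:ℝ) ≠ 0 := by
    have : 0 < N := by omega
    exact_mod_cast this.ne'
  have h2 := gf_fc_shift (f := fun x => (R x : ℂ)) (fun x => by
    show ((R (x + 1) : ℝ) : ℂ) = (R x : ℂ)
    rw [pR x]) (1 / N) k
  simp only [h] at h2
  have h3 : (1 - e k (1 / N)) * rc R k = 0 := by
    unfold rc
    linear_combination h2
  refine (mul_eq_zero.1 h3).resolve_left fun h4 => ?_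
  have h5 : e k (1 / N) = 1 := by linear_combination -h4
  unfold e at h5
  rw [Complex.exp_eq_one_iff] at h5
  obtain ⟨n, hn⟩ := h5
  have h6 : ((k:ℝ) : ℂ) = ((n * N : ℝ) : ℂ) := by
    have hN1 : (N:ℂ) ≠ 0 := by exact_mod_cast hN0
    have h7 := Complex.two_pi_I_ne_zero
    have h8 : (2 * (π:ℂ) * Complex.I) * ((k:ℂ) / N) = (2 * (π:ℂ) * Complex.I) * n := by
      push_cast at hn
      linear_combination hn
    have h9 := mul_left_cancel₀ h7 h8
    rw [div_eq_iff hN1] at h9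
    push_cast
    exact h9
  have h7 : (k:ℝ) = n * N := by exact_mod_cast h6
  have h8 : k = n * N := by exact_mod_cast h7
  have h9 : n ≠ 0 := by
    rintro rfl
    rw [h7] at h1
    simp at h1
    linarith
  have h10 : (1:ℝ) ≤ |(n:ℝ)| := by exact_mod_cast Int.one_le_abs h9
  rw [h7, abs_mul, Nat.abs_cast] at hQ
  have h11 : (Q:ℝ) < N := by exact_mod_cast hNQ
  nlinarith [Nat.cast_nonneg (α := ℝ) Q]

/-- (iv) symmetric curves: the low modes vanish -/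
theorem modes_of_symm {γ : ConvexCurve} {κ σ lam r m : ℝ → ℝ} (hN : Normal γ κ σ lam r m)
    {N Q : ℕ} (hNQ : Q < N) {g : (Fin 3 → ℝ) ≃ₗ[ℝ] (Fin 3 → ℝ)}
    (hg : ∀ x, lift γ σ lam (x + 1 / N) = g (lift γ σ lam x)) :
    ∀ k : ℤ, 1 ≤ |(k:ℝ)| → |(k:ℝ)| ≤ Q → rc r k = 0 ∧ rc m k = 0 := by
  have hP : ContDiff ℝ ∞ (lift γ σ lam) :=
    hN.smooth_lam.smul (γ.smooth_Γ.comp hN.smooth_σ)
  have hP1 := (contDiff_infty_iff_deriv.1 hP).2
  have hP2 := (contDiff_infty_iff_deriv.1 hP1).2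
  have g1 := gf_deriv hP hg
  have g2 := gf_deriv hP1 g1
  have g3 := gf_deriv hP2 g2
  have key : ∀ x, r (x + 1 / N) = r x ∧ m (x + 1 / N) = m x := by
    intro x
    have e1 := g3 x
    rw [hN.ode x, hN.ode (x + 1 / N), map_sub, map_smul, map_smul, ← g1 x, ← hg x] at e1
    have hw := hN.wr (x + 1 / N)
    set a := lift γ σ lam (x + 1 / N)
    set b := deriv (lift γ σ lam) (x + 1 / N)
    set c := deriv (deriv (lift γ σ lam)) (x + 1 / N)
    have e2 : ∀ i, -(r (x + 1 / N)) * b i - m (x + 1 / N) * a i = -(r x) * b i - m x * a i := by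
      intro i
      have := congrFun e1 i
      simpa only [Pi.sub_apply, Pi.smul_apply, smul_eq_mul] using this
    have e20 := e2 0
    have e21 := e2 1
    have e22 := e2 2
    unfold det3 at hw
    constructor
    · have k1 : (r (x + 1 / N) - r x) * (a 0 * (b 1 * c 2 - b 2 * c 1) -
          a 1 * (b 0 * c 2 - b 2 * c 0) + a 2 * (b 0 * c 1 - b 1 * c 0)) = 0 := by
        linear_combination (-(a 2 * c 1 - a 1 * c 2)) * e20 + (-(a 0 * c 2 - a 2 * c 0)) * e21 +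
          (-(a 1 * c 0 - a 0 * c 1)) * e22
      rw [hw, mul_one] at k1
      linarith
    · have k1 : (m (x + 1 / N) - m x) * (a 0 * (b 1 * c 2 - b 2 * c 1) -
          a 1 * (b 0 * c 2 - b 2 * c 0) + a 2 * (b 0 * c 1 - b 1 * c 0)) = 0 := by
        linear_combination (-(b 1 * c 2 - b 2 * c 1)) * e20 + (b 0 * c 2 - b 2 * c 0) * e21 +
          (-(b 0 * c 1 - b 1 * c 0)) * e22
      rw [hw, mul_one] at k1
      linarith
  intro k h1 hQ
  exact ⟨gf_rc_zero hN.per_r hNQ (fun x => (key x).1) k h1 hQ,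
    gf_rc_zero hN.per_m hNQ (fun x => (key x).2) k h1 hQ⟩

end Pool.Agent.MP_ae5b4e_an_RIG
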